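import Mathlib

/-!
# Quadratic polynomials with a root in common with their derivative along a curve
-/

open scoped Topology
open Filter Metric

namespace Pool.Agent.Lib.MP_627a61_nt

/-- If the resultant of a quadratic polynomial `a + 2bt + ct^2` with analytic coefficients and of
its derivative along the curve vanishes, then the polynomial is constant up to a factor, or it has
a constant root near points arbitrarily close to the given point. -/
theorem exists_root {a b c : ℂ → ℂ} {z₀ : ℂ} (ha : AnalyticAt ℂ a z₀) (hb : AnalyticAt ℂ b z₀)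
    (hc : AnalyticAt ℂ c z₀) (hc0 : c z₀ ≠ 0) (hd : b z₀ ^ 2 - a z₀ * c z₀ ≠ 0)
    (hW : ∀ᶠ z in 𝓝 z₀, (a z * deriv c z - deriv a z * c z) ^ 2
      - 4 * (a z * deriv b z - deriv a z * b z) * (b z * deriv c z - deriv b z * c z) = 0) :
    (∀ᶠ z in 𝓝 z₀, a z * deriv b z - deriv a z * b z = 0 ∧
      a z * deriv c z - deriv a z * c z = 0 ∧ b z * deriv c z - deriv b z * c z = 0) ∨
    (∃ᶠ z in 𝓝 z₀, ∃ τ : ℂ, ∀ᶠ w in 𝓝 z, a w + 2 * τ * b w + τ ^ 2 * c w = 0) := by
  obtain ⟨P, hP⟩ : ∃ P : ℂ → ℂ, ∀ z, P z = a z * deriv b z - deriv a z * b z :=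
    ⟨fun z => _, fun _ => rfl⟩
  obtain ⟨Q, hQ⟩ : ∃ Q : ℂ → ℂ, ∀ z, Q z = a z * deriv c z - deriv a z * c z :=
    ⟨fun z => _, fun _ => rfl⟩
  obtain ⟨S, hS⟩ : ∃ S : ℂ → ℂ, ∀ z, S z = b z * deriv c z - deriv b z * c z :=
    ⟨fun z => _, fun _ => rfl⟩
  simp only [← hP, ← hQ, ← hS] at hW ⊢
  have hSan : AnalyticAt ℂ S z₀ := by
    have h1 : AnalyticAt ℂ (fun z => b z * deriv c z - deriv b z * c z) z₀ :=
      (hb.mul hc.deriv).sub (hb.deriv.mul hc)
    exact h1.congr (Eventually.of_forall fun z => (hS z).symm)
  have hcne : ∀ᶠ z in 𝓝 z₀, c z ≠ 0 := hc.continuousAt.eventually_ne hc0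
  rcases hSan.eventually_eq_zero_or_eventually_ne_zero with h0 | h0
  · left
    filter_upwards [h0, hW, hcne] with z h1 h2 h3
    have h4 : Q z = 0 := by
      rw [h1, mul_zero, sub_zero] at h2
      exact pow_eq_zero_iff two_ne_zero |>.1 h2
    have h5 : c z * P z = 0 := by
      have h6 : c z * P z = b z * Q z - a z * S z := by
        rw [hP, hQ, hS]
        ring
      rw [h6, h1, h4]
      ring
    exact ⟨(mul_eq_zero.1 h5).resolve_left h3, h4, h1⟩
  · right
    have hdne : ∀ᶠ z in 𝓝 z₀, b z ^ 2 - a z * c z ≠ 0 := by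
      have h1 : ContinuousAt (fun z => b z ^ 2 - a z * c z) z₀ :=
        (hb.continuousAt.pow 2).sub (ha.continuousAt.mul hc.continuousAt)
      exact h1.eventually_ne hd
    have hall : ∀ᶠ z in 𝓝[≠] z₀, ∃ τ : ℂ, ∀ᶠ w in 𝓝 z, a w + 2 * τ * b w + τ ^ 2 * c w = 0 := by
      filter_upwards [h0, hW.eventually_nhds.filter_mono nhdsWithin_le_nhds,
        hdne.eventually_nhds.filter_mono nhdsWithin_le_nhds,
        ha.eventually_analyticAt.filter_mono nhdsWithin_le_nhds,
        hb.eventually_analyticAt.filter_mono nhdsWithin_le_nhds,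
        hc.eventually_analyticAt.filter_mono nhdsWithin_le_nhds] with z hSz hWz hdz haz hbz hcz
      have hPz : AnalyticAt ℂ P z := by
        have h1 : AnalyticAt ℂ (fun z => a z * deriv b z - deriv a z * b z) z :=
          (haz.mul hbz.deriv).sub (haz.deriv.mul hbz)
        exact h1.congr (Eventually.of_forall fun z => (hP z).symm)
      have hQz : AnalyticAt ℂ Q z := by
        have h1 : AnalyticAt ℂ (fun z => a z * deriv c z - deriv a z * c z) z :=
          (haz.mul hcz.deriv).sub (haz.deriv.mul hcz)
        exact h1.congr (Eventually.of_forall fun z => (hQ z).symm)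
      have hSz' : AnalyticAt ℂ S z := by
        have h1 : AnalyticAt ℂ (fun z => b z * deriv c z - deriv b z * c z) z :=
          (hbz.mul hcz.deriv).sub (hbz.deriv.mul hcz)
        exact h1.congr (Eventually.of_forall fun z => (hS z).symm)
      obtain ⟨τ, hτ⟩ : ∃ τ : ℂ → ℂ, ∀ w, τ w = -Q w / (2 * S w) :=
        ⟨fun w => _, fun _ => rfl⟩
      have hτan : AnalyticAt ℂ τ z := by
        have h1 : AnalyticAt ℂ (fun w => -Q w / (2 * S w)) z :=
          hQz.neg.div (analyticAt_const.mul hSz') (mul_ne_zero two_ne_zero hSz)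
        exact h1.congr (Eventually.of_forall fun w => (hτ w).symm)
      have hSne : ∀ᶠ w in 𝓝 z, S w ≠ 0 := hSz'.continuousAt.eventually_ne hSz
      -- the root
      have hroot : ∀ᶠ w in 𝓝 z, a w + 2 * τ w * b w + τ w ^ 2 * c w = 0 := by
        filter_upwards [hWz, hSne] with w h1 h2
        have h3 : a w * S w - b w * Q w + c w * P w = 0 := by
          rw [hP, hQ, hS]
          ring
        have h4 : (a w + 2 * τ w * b w + τ w ^ 2 * c w) * (4 * S w ^ 2) = 0 := by
          have h5 : (a w + 2 * τ w * b w + τ w ^ 2 * c w) * (4 * S w ^ 2) =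
              4 * a w * S w ^ 2 - 4 * b w * Q w * S w + c w * Q w ^ 2 := by
            rw [hτ]
            field_simp
            ring
          rw [h5]
          linear_combination (4 * S w) * h3 + c w * h1
        exact (mul_eq_zero.1 h4).resolve_right (mul_ne_zero (by norm_num) (pow_ne_zero 2 h2))
      have hroot' : ∀ᶠ w in 𝓝 z, deriv a w + 2 * τ w * deriv b w + τ w ^ 2 * deriv c w = 0 := by
        filter_upwards [hWz, hSne] with w h1 h2
        have h3 : deriv a w * S w - deriv b w * Q w + deriv c w * P w = 0 := by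
          rw [hP, hQ, hS]
          ring
        have h4 : (deriv a w + 2 * τ w * deriv b w + τ w ^ 2 * deriv c w) * (4 * S w ^ 2) = 0 := by
          have h5 : (deriv a w + 2 * τ w * deriv b w + τ w ^ 2 * deriv c w) * (4 * S w ^ 2) =
              4 * deriv a w * S w ^ 2 - 4 * deriv b w * Q w * S w + deriv c w * Q w ^ 2 := by
            rw [hτ]
            field_simp
            ring
          rw [h5]
          linear_combination (4 * S w) * h3 + deriv c w * h1
        exact (mul_eq_zero.1 h4).resolve_right (mul_ne_zero (by norm_num) (pow_ne_zero 2 h2))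
      have hder : ∀ᶠ w in 𝓝 z, deriv τ w = 0 := by
        filter_upwards [hroot.eventually_nhds, hroot', hdz, haz.eventually_analyticAt,
          hbz.eventually_analyticAt, hcz.eventually_analyticAt, hτan.eventually_analyticAt]
          with w h1 h2 h3 h4 h5 h6 h7
        have d1 : HasDerivAt (fun w => a w + 2 * τ w * b w + τ w ^ 2 * c w)
            (deriv a w + ((2 * deriv τ w) * b w + 2 * τ w * deriv b w)
              + ((((2 : ℕ) : ℂ) * τ w ^ (2 - 1) * deriv τ w) * c w + τ w ^ 2 * deriv c w)) w :=
          (h4.differentiableAt.hasDerivAt.add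
            ((h7.differentiableAt.hasDerivAt.const_mul 2).mul h5.differentiableAt.hasDerivAt)).add
            ((h7.differentiableAt.hasDerivAt.pow 2).mul h6.differentiableAt.hasDerivAt)
        have d2 := d1.unique ((hasDerivAt_const w (0 : ℂ)).congr_of_eventuallyEq h1)
        have h8 : deriv τ w * (b w + τ w * c w) = 0 := by
          simp only [Nat.cast_ofNat, Nat.add_one_sub_one, pow_one] at d2
          linear_combination (1 / 2) * d2 - (1 / 2) * h2
        refine (mul_eq_zero.1 h8).resolve_right fun h9 => h3 ?_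
        have h10 := h1.self_of_nhds
        linear_combination (b w + τ w * c w) * h9 - c w * h10
      obtain ⟨ε, hε, hball⟩ := Metric.eventually_nhds_iff_ball.1
        ((hder.and hτan.eventually_analyticAt).and hroot)
      refine ⟨τ z, ?_⟩
      have hconst : ∀ w ∈ ball z ε, τ w = τ z := by
        intro w hw
        refine isOpen_ball.is_const_of_deriv_eq_zero (convex_ball z ε).isPreconnected ?_ ?_ hw
          (mem_ball_self hε)
        · intro u hu
          exact (hball u hu).1.2.differentiableAt.differentiableWithinAt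
        · intro u hu
          exact (hball u hu).1.1
      filter_upwards [ball_mem_nhds z hε] with w hw
      have h1 := (hball w hw).2
      rwa [hconst w hw] at h1
    exact hall.frequently.filter_mono nhdsWithin_le_nhds

end Pool.Agent.Lib.MP_627a61_nt
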