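import Mathlib

/-!
# The Ahlfors-Schwarz lemma for sections along an entire curve, by maximum modulus
-/

open scoped Topology ComplexConjugate InnerProductSpace
open Filter Metric

namespace Pool.Agent.Lib.MP_627a61_nt

variable {E : Type*} [NormedAddCommGroup E] [InnerProductSpace ℂ E]

/-- the expansion of the factor of the Poincare metric around a point of the disc -/
lemma as_factor {p : ℂ} {R : ℝ} (hA : 0 < R ^ 2 - ‖p‖ ^ 2) (ζ : ℂ) :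
    R ^ 2 - ‖p + ζ‖ ^ 2 = (R ^ 2 - ‖p‖ ^ 2) *
      (‖1 - conj p / ((R ^ 2 - ‖p‖ ^ 2 : ℝ) : ℂ) * ζ‖ ^ 2
        - ‖ζ‖ ^ 2 * (R ^ 2 / (R ^ 2 - ‖p‖ ^ 2) ^ 2)) := by
  set A : ℝ := R ^ 2 - ‖p‖ ^ 2 with hAdef
  have e1 : ‖p + ζ‖ ^ 2 = ‖p‖ ^ 2 + 2 * (conj p * ζ).re + ‖ζ‖ ^ 2 := by
    rw [← Complex.normSq_eq_norm_sq, ← Complex.normSq_eq_norm_sq, ← Complex.normSq_eq_norm_sq,
      Complex.normSq_add]
    have : (p * conj ζ).re = (conj p * ζ).re := by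
      simp [Complex.mul_re]
    rw [this]
    ring
  have e2 : ‖1 - conj p / (A : ℂ) * ζ‖ ^ 2
      = 1 - 2 * (conj p * ζ).re / A + ‖p‖ ^ 2 * ‖ζ‖ ^ 2 / A ^ 2 := by
    have e3 : conj p / (A : ℂ) * ζ = (conj p * ζ) / A := by ring
    rw [e3, ← Complex.normSq_eq_norm_sq, Complex.normSq_sub]
    rw [Complex.normSq_eq_norm_sq, Complex.normSq_eq_norm_sq, norm_div, norm_mul,
      RCLike.norm_conj, Complex.norm_real, Real.norm_of_nonneg hA.le, div_pow, mul_pow]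
    have e4 : (1 * conj (conj p * ζ / (A : ℂ))).re = (conj p * ζ).re / A := by
      rw [one_mul, Complex.conj_re, Complex.div_ofReal_re]
    rw [e4]
    simp
    ring
  rw [e1, e2]
  have hR : R ^ 2 = A + ‖p‖ ^ 2 := by rw [hAdef]; ring
  rw [hR]
  field_simp
  ring

/-- local form of the Ahlfors-Schwarz lemma at a maximum -/
lemma as_local {f : ℂ → E} {G : ℂ → ℂ} {z₀ p : ℂ} {R : ℝ} {m : ℕ} (hm : 1 ≤ m)
    (hf : AnalyticAt ℂ f z₀) (hG : AnalyticAt ℂ G z₀) (hf0 : f z₀ ≠ 0) (hG0 : G z₀ ≠ 0)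
    (hA : 0 < R ^ 2 - ‖p‖ ^ 2)
    (hmax : ∀ᶠ ζ in 𝓝 (0 : ℂ), ‖G (z₀ + ζ)‖ * ‖f (z₀ + ζ)‖ ^ m *
      (R ^ 2 - ‖p + ζ‖ ^ 2) ^ 2 ≤ ‖G z₀‖ * ‖f z₀‖ ^ m * (R ^ 2 - ‖p‖ ^ 2) ^ 2) :
    ∃ t : ℂ, (‖deriv f z₀ - t • f z₀‖ / ‖f z₀‖) ^ 2 ≤ 4 * R ^ 2 / (R ^ 2 - ‖p‖ ^ 2) ^ 2 := by
  set A : ℝ := R ^ 2 - ‖p‖ ^ 2 with hAdef
  have hfac := fun ζ : ℂ => as_factor (p := p) (R := R) hA ζ
  rw [← hAdef] at hfac
  set s₀ : ℝ := ‖f z₀‖ with hs₀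
  have hs₀pos : 0 < s₀ := norm_pos_iff.2 hf0
  have hs₀ne : (s₀ : ℂ) ≠ 0 := by exact_mod_cast hs₀pos.ne'
  have hshift : AnalyticAt ℂ (fun ζ : ℂ => z₀ + ζ) 0 := analyticAt_const.add analyticAt_id
  have hfs : AnalyticAt ℂ (fun ζ => f (z₀ + ζ)) 0 := by
    have : AnalyticAt ℂ f (z₀ + 0) := by simpa using hf
    exact this.comp hshift
  have hGs : AnalyticAt ℂ (fun ζ => G (z₀ + ζ)) 0 := by
    have : AnalyticAt ℂ G (z₀ + 0) := by simpa using hG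
    exact this.comp hshift
  obtain ⟨g, hg⟩ : ∃ g : ℂ → ℂ, ∀ ζ, g ζ = inner ℂ (f z₀) (f (z₀ + ζ)) / (s₀ : ℂ) ^ 2 :=
    ⟨fun ζ => _, fun _ => rfl⟩
  obtain ⟨h, hh⟩ : ∃ h : ℂ → E, ∀ ζ, h ζ = f (z₀ + ζ) - g ζ • f z₀ :=
    ⟨fun ζ => _, fun _ => rfl⟩
  have hself : inner ℂ (f z₀) (f z₀) = (s₀ : ℂ) ^ 2 := inner_self_eq_norm_sq_to_K (f z₀)
  have hg0 : g 0 = 1 := by
    rw [hg, add_zero, hself, div_self (pow_ne_zero 2 hs₀ne)]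
  have hh0 : h 0 = 0 := by
    rw [hh, hg0, add_zero, one_smul, sub_self]
  have hgan : AnalyticAt ℂ g 0 := by
    have h1 : AnalyticAt ℂ (fun ζ => (innerSL ℂ (f z₀)) (f (z₀ + ζ))) 0 :=
      ((innerSL ℂ (f z₀)).analyticAt _).comp hfs
    have h2 : AnalyticAt ℂ (fun ζ => (innerSL ℂ (f z₀)) (f (z₀ + ζ)) / (s₀ : ℂ) ^ 2) 0 :=
      h1.div analyticAt_const (pow_ne_zero 2 hs₀ne)
    exact h2.congr (Eventually.of_forall fun ζ => by rw [hg]; rfl)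
  have hhan : AnalyticAt ℂ h 0 := by
    have h1 : AnalyticAt ℂ (fun ζ => f (z₀ + ζ) - g ζ • f z₀) 0 :=
      hfs.sub (hgan.smul analyticAt_const)
    exact h1.congr (Eventually.of_forall fun ζ => (hh ζ).symm)
  -- orthogonality
  have hort : ∀ ζ, inner ℂ (f z₀) (h ζ) = 0 := by
    intro ζ
    rw [hh, inner_sub_right, inner_smul_right, hself, hg,
      div_mul_cancel₀ _ (pow_ne_zero 2 hs₀ne), sub_self]
  have hpyth : ∀ ζ, ‖f (z₀ + ζ)‖ ^ 2 = ‖g ζ‖ ^ 2 * s₀ ^ 2 + ‖h ζ‖ ^ 2 := by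
    intro ζ
    have e2 : f (z₀ + ζ) = g ζ • f z₀ + h ζ := by
      rw [hh]
      abel
    have e3 : inner ℂ (g ζ • f z₀) (h ζ) = 0 := by
      rw [inner_smul_left, hort, mul_zero]
    have e4 := norm_add_sq_eq_norm_sq_add_norm_sq_of_inner_eq_zero (g ζ • f z₀) (h ζ) e3
    rw [e2, sq, e4, norm_smul, ← hs₀]
    ring
  -- derivative of the orthogonal part
  have hdf : HasDerivAt (fun ζ => f (z₀ + ζ)) (deriv f z₀) 0 := by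
    have h1 : HasDerivAt f (deriv f z₀) (z₀ + 0) := by
      simpa using hf.differentiableAt.hasDerivAt
    exact h1.comp_const_add z₀ 0
  have hdg : HasDerivAt g (deriv g 0) 0 := hgan.differentiableAt.hasDerivAt
  have hdh : HasDerivAt h (deriv f z₀ - deriv g 0 • f z₀) 0 := by
    have h1 : HasDerivAt (fun ζ => f (z₀ + ζ) - g ζ • f z₀)
        (deriv f z₀ - deriv g 0 • f z₀) 0 := hdf.sub (hdg.smul_const (f z₀))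
    exact h1.congr_of_eventuallyEq (Eventually.of_forall fun ζ => hh ζ)
  refine ⟨deriv g 0, ?_⟩
  set h' : E := deriv f z₀ - deriv g 0 • f z₀ with hh'
  set Y : ℝ := (‖h'‖ / s₀) ^ 2 with hY
  set b : ℂ := conj p / (A : ℂ) with hb
  -- the auxiliary analytic function
  obtain ⟨H, hH⟩ : ∃ H : ℂ → ℂ, ∀ ζ, H ζ = G (z₀ + ζ) * g ζ ^ m * (1 - b * ζ) ^ 4 :=
    ⟨fun ζ => _, fun _ => rfl⟩
  have hHan : AnalyticAt ℂ H 0 := by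
    have h1 : AnalyticAt ℂ (fun ζ => G (z₀ + ζ) * g ζ ^ m * (1 - b * ζ) ^ 4) 0 :=
      (hGs.mul (hgan.pow _)).mul
        ((analyticAt_const.sub (analyticAt_const.mul analyticAt_id)).pow _)
    exact h1.congr (Eventually.of_forall fun ζ => (hH ζ).symm)
  have hH0 : H 0 = G z₀ := by
    rw [hH, hg0]
    simp
  have hfreq : ∃ᶠ ζ in 𝓝[≠] (0 : ℂ), ‖H 0‖ ≤ ‖H ζ‖ := by
    intro hcon
    have hcon' : ∀ᶠ ζ in 𝓝[≠] (0 : ℂ), ‖H ζ‖ < ‖H 0‖ := by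
      filter_upwards [hcon] with ζ h1
      exact lt_of_not_ge h1
    have hloc : IsLocalMax (norm ∘ H) 0 := by
      rw [eventually_nhdsWithin_iff] at hcon'
      unfold IsLocalMax IsMaxFilter
      filter_upwards [hcon'] with ζ h1
      by_cases hζ : ζ = 0
      · rw [hζ]
      · exact (h1 hζ).le
    have hd : ∀ᶠ ζ in 𝓝 (0 : ℂ), DifferentiableAt ℂ H ζ :=
      hHan.eventually_analyticAt.mono fun ζ h1 => h1.differentiableAt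
    have h2 := Complex.eventually_eq_of_isLocalMax_norm hd hloc
    have h3 : ∀ᶠ ζ in 𝓝[≠] (0 : ℂ), False := by
      filter_upwards [hcon', h2.filter_mono nhdsWithin_le_nhds] with ζ h4 h5
      rw [h5] at h4
      exact lt_irrefl _ h4
    exact (inferInstance : (𝓝[≠] (0 : ℂ)).NeBot).ne (eventually_false_iff_eq_bot.1 h3)
  -- limits
  have hgt : Tendsto g (𝓝[≠] 0) (𝓝 1) := by
    have := hgan.continuousAt.tendsto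
    rw [hg0] at this
    exact this.mono_left nhdsWithin_le_nhds
  have hbt : Tendsto (fun ζ : ℂ => 1 - b * ζ) (𝓝[≠] 0) (𝓝 1) := by
    have h1 : Continuous fun ζ : ℂ => 1 - b * ζ := by fun_prop
    have := h1.tendsto 0
    simp only [mul_zero, sub_zero] at this
    exact this.mono_left nhdsWithin_le_nhds
  have hζt : Tendsto (fun ζ : ℂ => ‖ζ‖ ^ 2) (𝓝[≠] 0) (𝓝 0) := by
    have h1 : Continuous fun ζ : ℂ => ‖ζ‖ ^ 2 := by fun_prop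
    have := h1.tendsto 0
    simp only [norm_zero, ne_eq, OfNat.ofNat_ne_zero, not_false_eq_true, zero_pow] at this
    exact this.mono_left nhdsWithin_le_nhds
  obtain ⟨y, hy⟩ : ∃ y : ℂ → ℝ, ∀ ζ, y ζ = (‖ζ⁻¹ • h ζ‖ / (‖g ζ‖ * s₀)) ^ 2 :=
    ⟨fun ζ => _, fun _ => rfl⟩
  obtain ⟨q, hq⟩ : ∃ q : ℂ → ℝ, ∀ ζ, q ζ = R ^ 2 / A ^ 2 / ‖1 - b * ζ‖ ^ 2 :=
    ⟨fun ζ => _, fun _ => rfl⟩
  have hyt : Tendsto y (𝓝[≠] 0) (𝓝 Y) := by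
    have h1 : Tendsto (fun ζ : ℂ => ζ⁻¹ • h ζ) (𝓝[≠] 0) (𝓝 h') := by
      have h2 := hdh.tendsto_slope
      refine h2.congr' ?_
      filter_upwards with ζ
      rw [slope_def_module, hh0, sub_zero, sub_zero]
    have h4 : Tendsto (fun ζ : ℂ => ‖g ζ‖ * s₀) (𝓝[≠] 0) (𝓝 (‖(1 : ℂ)‖ * s₀)) :=
      hgt.norm.mul_const s₀
    rw [norm_one, one_mul] at h4
    have h5 := (h1.norm.div h4 hs₀pos.ne').pow 2
    exact h5.congr' (Eventually.of_forall fun ζ => (hy ζ).symm)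
  have hqt : Tendsto q (𝓝[≠] 0) (𝓝 (R ^ 2 / A ^ 2)) := by
    have h1 : Tendsto (fun ζ : ℂ => R ^ 2 / A ^ 2 / ‖1 - b * ζ‖ ^ 2) (𝓝[≠] 0)
        (𝓝 (R ^ 2 / A ^ 2 / ‖(1 : ℂ)‖ ^ 2)) :=
      tendsto_const_nhds.div (hbt.norm.pow 2) (by simp)
    rw [norm_one, one_pow, div_one] at h1
    exact h1.congr' (Eventually.of_forall fun ζ => (hq ζ).symm)
  have hlim : Tendsto (fun ζ => y ζ - 4 * q ζ - 4 * ‖ζ‖ ^ 2 * y ζ * q ζ) (𝓝[≠] 0)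
      (𝓝 (Y - 4 * (R ^ 2 / A ^ 2) - 4 * 0 * Y * (R ^ 2 / A ^ 2))) :=
    (hyt.sub (hqt.const_mul _)).sub (((hζt.const_mul _).mul hyt).mul hqt)
  have hYle : Y ≤ 4 * (R ^ 2 / A ^ 2) := by
    by_contra hcon
    push Not at hcon
    have h1 : 0 < Y - 4 * (R ^ 2 / A ^ 2) - 4 * 0 * Y * (R ^ 2 / A ^ 2) := by
      nlinarith
    have h2 := hlim.eventually_const_lt h1
    have hsmall : Tendsto (fun ζ => ‖ζ‖ ^ 2 * q ζ) (𝓝[≠] 0) (𝓝 (0 * (R ^ 2 / A ^ 2))) :=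
      hζt.mul hqt
    rw [zero_mul] at hsmall
    have h3 := hsmall.eventually_lt_const (zero_lt_one)
    have h4 : ∀ᶠ ζ in 𝓝[≠] (0 : ℂ), g ζ ≠ 0 := hgt.eventually_ne one_ne_zero
    have h5 : ∀ᶠ ζ in 𝓝[≠] (0 : ℂ), 1 - b * ζ ≠ 0 := hbt.eventually_ne one_ne_zero
    have h6 : ∀ᶠ ζ in 𝓝[≠] (0 : ℂ), ζ ≠ 0 := eventually_mem_nhdsWithin
    obtain ⟨ζ, hζ1, hζ2, hζ3, hζ4, hζ5, hζ6, hζ7⟩ := (hfreq.and_eventually
      (h2.and (h3.and (h4.and (h5.and (h6.and (hmax.filter_mono nhdsWithin_le_nhds))))))).exists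
    have hgp : 0 < ‖g ζ‖ := norm_pos_iff.2 hζ4
    have hbp : 0 < ‖1 - b * ζ‖ := norm_pos_iff.2 hζ5
    have hzp : 0 < ‖ζ‖ := norm_pos_iff.2 hζ6
    have hyn : 0 ≤ y ζ := by
      rw [hy]
      positivity
    have hqn : 0 ≤ q ζ := by
      rw [hq]
      positivity
    have e1 : ‖h ζ‖ ^ 2 = ‖ζ‖ ^ 2 * y ζ * (‖g ζ‖ ^ 2 * s₀ ^ 2) := by
      rw [hy, norm_smul, norm_inv]
      field_simp
    have e2 : ‖f (z₀ + ζ)‖ ^ 2 = ‖g ζ‖ ^ 2 * s₀ ^ 2 * (1 + ‖ζ‖ ^ 2 * y ζ) := by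
      rw [hpyth, e1]
      ring
    have e3 : R ^ 2 - ‖p + ζ‖ ^ 2 = A * ‖1 - b * ζ‖ ^ 2 * (1 - ‖ζ‖ ^ 2 * q ζ) := by
      rw [hfac, hq]
      field_simp
    have e4 : ‖H ζ‖ ^ 2 = ‖G (z₀ + ζ)‖ ^ 2 * (‖g ζ‖ ^ 2) ^ m * (‖1 - b * ζ‖ ^ 2) ^ 4 := by
      have e6 : (‖g ζ‖ ^ 2) ^ m = (‖g ζ‖ ^ m) ^ 2 := by
        rw [← pow_mul, ← pow_mul, mul_comm]
      rw [hH, norm_mul, norm_mul, norm_pow, norm_pow, e6]
      ring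
    have hx0 : 0 ≤ 1 - ‖ζ‖ ^ 2 * q ζ := by linarith
    -- square the maximum inequality
    have hsq : (‖G (z₀ + ζ)‖ * ‖f (z₀ + ζ)‖ ^ m * (R ^ 2 - ‖p + ζ‖ ^ 2) ^ 2) ^ 2 ≤
        (‖G z₀‖ * s₀ ^ m * A ^ 2) ^ 2 := by
      gcongr
    have e5 : (‖G (z₀ + ζ)‖ * ‖f (z₀ + ζ)‖ ^ m * (R ^ 2 - ‖p + ζ‖ ^ 2) ^ 2) ^ 2 =
        ‖H ζ‖ ^ 2 * (s₀ ^ 2) ^ m * A ^ 4 *
          ((1 + ‖ζ‖ ^ 2 * y ζ) ^ m * (1 - ‖ζ‖ ^ 2 * q ζ) ^ 4) := by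
      have e6 : (‖f (z₀ + ζ)‖ ^ m) ^ 2 = (‖f (z₀ + ζ)‖ ^ 2) ^ m := by
        rw [← pow_mul, ← pow_mul, mul_comm]
      have e2' : (‖f (z₀ + ζ)‖ ^ 2) ^ m =
          (‖g ζ‖ ^ 2) ^ m * (s₀ ^ 2) ^ m * (1 + ‖ζ‖ ^ 2 * y ζ) ^ m := by
        rw [e2, mul_pow, mul_pow]
      rw [e3, mul_pow, mul_pow, e6, e2', e4]
      generalize (1 + ‖ζ‖ ^ 2 * y ζ) ^ m = T1
      generalize (‖g ζ‖ ^ 2) ^ m = T2
      generalize (s₀ ^ 2) ^ m = T3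
      ring
    have e7 : (‖G z₀‖ * s₀ ^ m * A ^ 2) ^ 2 = ‖H 0‖ ^ 2 * (s₀ ^ 2) ^ m * A ^ 4 := by
      have e6 : (s₀ ^ 2) ^ m = (s₀ ^ m) ^ 2 := by
        rw [← pow_mul, ← pow_mul, mul_comm]
      rw [hH0, e6]
      ring
    rw [e5, e7] at hsq
    have hH0pos : 0 < ‖H 0‖ := by
      rw [hH0]
      exact norm_pos_iff.2 hG0
    have e8 : (1 + ‖ζ‖ ^ 2 * y ζ) ^ m * (1 - ‖ζ‖ ^ 2 * q ζ) ^ 4 ≤ 1 := by
      have h7 : ‖H 0‖ ^ 2 * (s₀ ^ 2) ^ m * A ^ 4 *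
          ((1 + ‖ζ‖ ^ 2 * y ζ) ^ m * (1 - ‖ζ‖ ^ 2 * q ζ) ^ 4) ≤
          ‖H 0‖ ^ 2 * (s₀ ^ 2) ^ m * A ^ 4 * 1 := by
        rw [mul_one]
        refine le_trans ?_ hsq
        gcongr
      exact le_of_mul_le_mul_left h7 (by positivity)
    have e9 : 1 + ((4 : ℕ) : ℝ) * (-(‖ζ‖ ^ 2 * q ζ)) ≤ (1 + -(‖ζ‖ ^ 2 * q ζ)) ^ 4 :=
      one_add_mul_le_pow (by linarith) _
    have e10 : (1 + ‖ζ‖ ^ 2 * y ζ) * (1 - 4 * (‖ζ‖ ^ 2 * q ζ)) ≤ 1 := by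
      refine le_trans ?_ e8
      have h8 : 0 ≤ 1 + ‖ζ‖ ^ 2 * y ζ := by positivity
      have h8' : 1 ≤ 1 + ‖ζ‖ ^ 2 * y ζ := by
        have : 0 ≤ ‖ζ‖ ^ 2 * y ζ := by positivity
        linarith
      have h9 : 1 + ‖ζ‖ ^ 2 * y ζ ≤ (1 + ‖ζ‖ ^ 2 * y ζ) ^ m := by
        calc _ = (1 + ‖ζ‖ ^ 2 * y ζ) ^ 1 := (pow_one _).symm
          _ ≤ _ := pow_le_pow_right₀ h8' hm
      calc (1 + ‖ζ‖ ^ 2 * y ζ) * (1 - 4 * (‖ζ‖ ^ 2 * q ζ))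
          ≤ (1 + ‖ζ‖ ^ 2 * y ζ) * (1 - ‖ζ‖ ^ 2 * q ζ) ^ 4 := by
            refine mul_le_mul_of_nonneg_left ?_ h8
            push_cast at e9
            calc _ = 1 + 4 * -(‖ζ‖ ^ 2 * q ζ) := by ring
              _ ≤ _ := e9
              _ = _ := by ring
        _ ≤ (1 + ‖ζ‖ ^ 2 * y ζ) ^ m * (1 - ‖ζ‖ ^ 2 * q ζ) ^ 4 := by gcongr
    have e11 : ‖ζ‖ ^ 2 * (y ζ - 4 * q ζ - 4 * ‖ζ‖ ^ 2 * y ζ * q ζ) ≤ 0 := by
      nlinarith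
    have e12 : 0 < ‖ζ‖ ^ 2 * (y ζ - 4 * q ζ - 4 * ‖ζ‖ ^ 2 * y ζ * q ζ) :=
      mul_pos (by positivity) hζ2
    exact absurd e11 (not_le.2 e12)
  calc Y ≤ 4 * (R ^ 2 / A ^ 2) := hYle
    _ = _ := by ring

/-- Ahlfors-Schwarz lemma for sections along an entire curve. -/
theorem ahlfors_schwarz {F : ℂ → ℝ} {m : ℕ} (hm : 1 ≤ m) {C : ℝ}
    (h : ∀ z₀, ∃ f : ℂ → E, ∃ G : ℂ → ℂ, AnalyticAt ℂ f z₀ ∧ AnalyticAt ℂ G z₀ ∧ f z₀ ≠ 0 ∧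
      (∀ᶠ z in 𝓝 z₀, F z = ‖G z‖ * ‖f z‖ ^ m) ∧
      ∀ t : ℂ, F z₀ ≤ C * (‖deriv f z₀ - t • f z₀‖ / ‖f z₀‖) ^ 2) :
    ∀ z, F z = 0 := by
  have hcont : Continuous F := by
    rw [continuous_iff_continuousAt]
    intro z
    obtain ⟨f, G, hf, hG, -, hw, -⟩ := h z
    have h1 : ContinuousAt (fun w => ‖G w‖ * ‖f w‖ ^ m) z :=
      hG.continuousAt.norm.mul (hf.continuousAt.norm.pow m)
    exact h1.congr (hw.mono fun w h => h.symm)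
  have hnn : ∀ z, 0 ≤ F z := by
    intro z
    obtain ⟨f, G, hf, hG, -, hw, -⟩ := h z
    rw [hw.self_of_nhds]
    positivity
  intro z₁
  by_contra hne
  have hF1 : 0 < F z₁ := lt_of_le_of_ne (hnn z₁) (Ne.symm hne)
  -- the bound for every radius
  have key : ∀ R : ℝ, 1 ≤ R → F z₁ * R ≤ C * 4 := by
    intro R hR
    have hR0 : 0 < R := by linarith
    obtain ⟨Ψ, hΨ⟩ : ∃ Ψ : ℂ → ℝ, ∀ z, Ψ z = F z * (R ^ 2 - ‖z - z₁‖ ^ 2) ^ 2 :=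
      ⟨fun z => _, fun _ => rfl⟩
    have hΨc : Continuous Ψ := by
      have h1 : Continuous fun z => F z * (R ^ 2 - ‖z - z₁‖ ^ 2) ^ 2 := by fun_prop
      exact h1.congr fun z => (hΨ z).symm
    obtain ⟨z₀, hz₀, hmax⟩ := (isCompact_closedBall z₁ R).exists_isMaxOn
      ⟨z₁, mem_closedBall_self hR0.le⟩ hΨc.continuousOn
    have hΨ1 : Ψ z₁ = F z₁ * (R ^ 2) ^ 2 := by
      rw [hΨ]
      simp
    have hle : Ψ z₁ ≤ Ψ z₀ := hmax (mem_closedBall_self hR0.le)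
    have hpos : 0 < Ψ z₁ := by
      rw [hΨ1]
      positivity
    have hΨ0 : 0 < Ψ z₀ := lt_of_lt_of_le hpos hle
    have hF0 : F z₀ ≠ 0 := by
      intro h0
      rw [hΨ, h0, zero_mul] at hΨ0
      exact lt_irrefl _ hΨ0
    have hz₀' : ‖z₀ - z₁‖ ≤ R := by
      rw [mem_closedBall, dist_eq_norm] at hz₀
      exact hz₀
    have hlt : ‖z₀ - z₁‖ < R := by
      refine lt_of_le_of_ne hz₀' fun h0 => ?_
      rw [hΨ, h0, sub_self, zero_pow two_ne_zero, mul_zero] at hΨ0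
      exact lt_irrefl _ hΨ0
    have hA : 0 < R ^ 2 - ‖z₀ - z₁‖ ^ 2 := by
      have := norm_nonneg (z₀ - z₁)
      nlinarith
    obtain ⟨f, G, hf, hG, hf0, hw, hbd⟩ := h z₀
    have hFz0 : F z₀ = ‖G z₀‖ * ‖f z₀‖ ^ m := hw.self_of_nhds
    have hG0 : G z₀ ≠ 0 := by
      intro h0
      rw [h0, norm_zero, zero_mul] at hFz0
      exact hF0 hFz0
    have hloc : ∀ᶠ ζ in 𝓝 (0 : ℂ), ‖G (z₀ + ζ)‖ * ‖f (z₀ + ζ)‖ ^ m *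
        (R ^ 2 - ‖(z₀ - z₁) + ζ‖ ^ 2) ^ 2 ≤
        ‖G z₀‖ * ‖f z₀‖ ^ m * (R ^ 2 - ‖z₀ - z₁‖ ^ 2) ^ 2 := by
      have hadd : Tendsto (fun ζ : ℂ => z₀ + ζ) (𝓝 0) (𝓝 z₀) := by
        have : Continuous fun ζ : ℂ => z₀ + ζ := by fun_prop
        simpa using this.tendsto 0
      have hball : ∀ᶠ w in 𝓝 z₀, w ∈ closedBall z₁ R := by
        refine closedBall_mem_nhds_of_mem ?_
        rw [mem_ball, dist_eq_norm]
        exact hlt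
      filter_upwards [hadd.eventually hw, hadd.eventually hball] with ζ h1 h2
      have h3 : Ψ (z₀ + ζ) ≤ Ψ z₀ := hmax h2
      rw [hΨ, hΨ, h1, hFz0] at h3
      have h4 : z₀ - z₁ + ζ = z₀ + ζ - z₁ := by ring
      rw [h4]
      exact h3
    obtain ⟨t, ht⟩ := as_local hm hf hG hf0 hG0 hA hloc
    have hbd' := hbd t
    have hCpos : 0 < C := by
      by_contra hC
      push Not at hC
      have h1 : 0 ≤ (‖deriv f z₀ - t • f z₀‖ / ‖f z₀‖) ^ 2 := by positivity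
      have h2 : 0 < F z₀ := lt_of_le_of_ne (hnn z₀) (Ne.symm hF0)
      nlinarith [mul_nonneg (neg_nonneg.2 hC) h1]
    have h6 : Ψ z₀ ≤ C * 4 * R ^ 2 := by
      rw [hΨ]
      calc F z₀ * (R ^ 2 - ‖z₀ - z₁‖ ^ 2) ^ 2
          ≤ (C * (4 * R ^ 2 / (R ^ 2 - ‖z₀ - z₁‖ ^ 2) ^ 2)) * (R ^ 2 - ‖z₀ - z₁‖ ^ 2) ^ 2 := by
            gcongr
            exact hbd'.trans (by gcongr)
        _ = C * 4 * R ^ 2 := by
            field_simp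
    have h7 : F z₁ * R ^ 2 * R ^ 2 ≤ C * 4 * R ^ 2 := by
      calc _ = Ψ z₁ := by rw [hΨ1]; ring
        _ ≤ _ := hle.trans h6
    have h8 : F z₁ * R ^ 2 ≤ C * 4 := le_of_mul_le_mul_right h7 (by positivity)
    refine le_trans ?_ h8
    have h10 : R ≤ R ^ 2 := by nlinarith
    gcongr
  obtain ⟨n, hn⟩ := exists_nat_gt (C * 4 / F z₁)
  have h1 := key (n + 1) (by
    have : (0 : ℝ) ≤ n := Nat.cast_nonneg n
    linarith)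
  rw [div_lt_iff₀ hF1] at hn
  nlinarith

end Pool.Agent.Lib.MP_627a61_nt
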