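import Pool.Agent.Lib.MP_627a61_nt.Sq.Defs

/-!
# Elementary lemmas on the matrices `Lmat`
-/

open scoped LinearAlgebra.Projectivization Topology
open Filter MvPolynomial

namespace Pool.Agent.Lib.MP_627a61_nt

section basic

variable {ν R : Type*} [Fintype ν] [CommRing R]

lemma qv_sq (x v : ν → R) : qv (sq x) v = (∑ a, v a * x a) ^ 2 := by
  unfold qv sq
  rw [pow_two, Finset.sum_mul_sum]
  refine Finset.sum_congr rfl fun i _ => Finset.sum_congr rfl fun j _ => ?_
  ring

lemma qv_add (φ ψ : ν → ν → R) (v : ν → R) : qv (φ + ψ) v = qv φ v + qv ψ v := by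
  unfold qv
  simp only [Pi.add_apply, mul_add, Finset.sum_add_distrib]

lemma qv_smul (c : R) (φ : ν → ν → R) (v : ν → R) : qv (c • φ) v = qv φ v * c := by
  unfold qv
  simp only [Pi.smul_apply, smul_eq_mul, Finset.sum_mul]
  refine Finset.sum_congr rfl fun i _ => Finset.sum_congr rfl fun j _ => ?_
  ring

lemma qv_zero (v : ν → R) : qv (0 : ν → ν → R) v = 0 := by
  simp [qv]

lemma qv_sum {J : Type*} (s : Finset J) (b : J → ν → ν → R) (u : J → R) (v : ν → R) :
    qv (∑ i ∈ s, u i • b i) v = ∑ i ∈ s, qv (b i) v * u i := by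
  classical
  induction s using Finset.induction_on with
  | empty => simp [qv_zero]
  | insert j s hj ih => rw [Finset.sum_insert hj, Finset.sum_insert hj, qv_add, qv_smul, ih]

lemma qv_map {S : Type*} [CommRing S] (σ : R →+* S) (φ : ν → ν → R) (v : ν → R) :
    σ (qv φ v) = qv (fun i j => σ (φ i j)) fun a => σ (v a) := by
  simp [qv, map_sum, map_mul]

end basic

lemma gv_map {ν R S : Type*} [DecidableEq ν] [Ring R] [Ring S] (σ : R →+* S) (g : GI ν) :
    (fun a => σ (gv R g a)) = gv S g := by
  funext a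
  simp only [gv, ev, map_add, map_mul, map_natCast, apply_ite σ, map_one, map_zero]

lemma sq_eq_smul {ν K : Type*} [Field K] {x y : ν → K} {t : K} (h : sq x = t ^ 2 • sq y) :
    x = t • y ∨ x = (-t) • y := by
  have h' : ∀ i j, x i * x j = t ^ 2 * (y i * y j) := fun i j => by
    have := congrFun (congrFun h i) j
    simpa [sq] using this
  by_cases hx : x = 0
  · left
    have h0 : ∀ i, t * y i = 0 := fun i => by
      have := h' i i
      rw [hx] at this
      simp only [Pi.zero_apply, mul_zero] at this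
      have h1 : (t * y i) ^ 2 = 0 := by rw [mul_pow, pow_two (y i)]; exact this.symm
      exact pow_eq_zero_iff (by norm_num) |>.1 h1
    rw [hx]
    funext i
    simp [h0 i]
  · obtain ⟨i, hi⟩ : ∃ i, x i ≠ 0 := by
      by_contra hcon
      push Not at hcon
      exact hx (funext hcon)
    have hi2 : x i = t * y i ∨ x i = -(t * y i) := by
      have := h' i i
      have h2 : (x i) ^ 2 = (t * y i) ^ 2 := by rw [mul_pow, pow_two, pow_two (y i)]; exact this
      exact sq_eq_sq_iff_eq_or_eq_neg.1 h2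
    rcases hi2 with h2 | h2
    · left
      funext j
      have h3 := h' i j
      have h4 : x i * x j = x i * (t * y j) := by
        rw [h3, h2]; ring
      simpa using mul_left_cancel₀ hi h4
    · right
      funext j
      have h3 := h' i j
      have h4 : x i * x j = x i * (-t * y j) := by
        rw [h3, h2]; ring
      simpa using mul_left_cancel₀ hi h4

lemma sq_eq_zero {ν K : Type*} [Field K] {x : ν → K} (h : sq x = 0) : x = 0 := by
  funext i
  have := congrFun (congrFun h i) i
  simpa [sq] using this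

/-- forms in general position form an injective matrix -/
lemma GenPos.inj {M d : ℕ} {k : Type*} [Field k] {L : Fin M → Fin d → k} (h : GenPos L)
    (hM : d ≤ M) (u : Fin d → k) (hu : ∀ l, ∑ i, L l i * u i = 0) : u = 0 := by
  have h1 := h (Fin.castLE hM) (Fin.castLE_injective hM)
  refine Matrix.eq_zero_of_mulVec_eq_zero h1 ?_
  funext i
  simpa [Matrix.mulVec, dotProduct] using hu (Fin.castLE hM i)

/-- elements of the base change in terms of a basis -/
lemma mem_ext_iff {ν k K J : Type*} [Field k] [Field K] [Fintype J] (τ : k →+* K)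
    (Φ : Submodule k (ν → ν → k)) (b : Module.Basis J k Φ) (φ : ν → ν → K) :
    φ ∈ ext τ Φ ↔ ∃ u : J → K, φ = ∑ i, u i • fun p q => τ ((b i : ν → ν → k) p q) := by
  constructor
  · intro h
    unfold ext at h
    refine Submodule.span_induction ?_ ?_ ?_ ?_ h
    · rintro _ ⟨ψ, hψ, rfl⟩
      refine ⟨fun i => τ (b.repr ⟨ψ, hψ⟩ i), ?_⟩
      have h1 : ψ = ∑ i, b.repr ⟨ψ, hψ⟩ i • (b i : ν → ν → k) := by
        have h0 := congrArg Φ.subtype (b.sum_repr ⟨ψ, hψ⟩)
        rw [map_sum] at h0
        simpa only [map_smul, Submodule.subtype_apply] using h0.symm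
      funext p q
      have h2 := congrFun (congrFun h1 p) q
      dsimp only
      rw [h2]
      simp [Finset.sum_apply, map_sum, map_mul]
    · exact ⟨0, by simp⟩
    · rintro x y - - ⟨u, hu⟩ ⟨v, hv⟩
      refine ⟨u + v, ?_⟩
      rw [hu, hv, ← Finset.sum_add_distrib]
      exact Finset.sum_congr rfl fun i _ => by rw [Pi.add_apply, add_smul]
    · rintro c x - ⟨u, hu⟩
      refine ⟨c • u, ?_⟩
      rw [hu, Finset.smul_sum]
      exact Finset.sum_congr rfl fun i _ => by rw [Pi.smul_apply, smul_smul, smul_eq_mul]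
  · rintro ⟨u, rfl⟩
    exact Submodule.sum_mem _ fun i _ => Submodule.smul_mem _ _
      (Submodule.subset_span ⟨_, (b i).2, rfl⟩)

lemma ext_symm {ν k K : Type*} [Field k] [Field K] (τ : k →+* K)
    {Φ : Submodule k (ν → ν → k)} (h : Symm Φ) : Symm (ext τ Φ) := by
  intro φ hφ i j
  unfold ext at hφ
  refine Submodule.span_induction (p := fun φ _ => φ i j = φ j i) ?_ ?_ ?_ ?_ hφ
  · rintro _ ⟨ψ, hψ, rfl⟩
    dsimp only
    rw [h ψ hψ i j]
  · rfl
  · intro x y _ _ hx hy
    simp [hx, hy]
  · intro c x _ hx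
    simp [hx]

/-- The set `valSet` of a base change is the cover defined by `Lmat`. -/
lemma valSet_ext {ν I k K J : Type*} [Fintype ν] [Field k] [Field K] [Fintype J] (τ : k →+* K)
    (Φ : Submodule k (ν → ν → k)) (b : Module.Basis J k Φ) (lam : I → ν → k) :
    valSet (ext τ Φ) (fun l a => τ (lam l a)) =
      sqCover τ (Lmat (fun i => (b i : ν → ν → k)) lam) := by
  ext z
  unfold valSet sqCover
  simp only [Set.mem_ofPred_eq]
  constructor
  · rintro ⟨φ, hφ, h⟩
    obtain ⟨u, rfl⟩ := (mem_ext_iff τ Φ b φ).1 hφ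
    refine ⟨u, fun l => ?_⟩
    rw [h l, qv_sum]
    exact Finset.sum_congr rfl fun i _ => by rw [Lmat, qv_map]
  · rintro ⟨u, h⟩
    refine ⟨_, (mem_ext_iff τ Φ b _).2 ⟨u, rfl⟩, fun l => ?_⟩
    rw [h l, qv_sum]
    exact Finset.sum_congr rfl fun i _ => by rw [Lmat, qv_map]

end Pool.Agent.Lib.MP_627a61_nt
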