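import Pool.Agent.Lib.MP_627a61_nt.Sq.Stm

/-!
# Statement of the box form
-/

open scoped LinearAlgebra.Projectivization Topology
open Filter MvPolynomial

namespace Pool.Agent.Lib.MP_627a61_nt

/-- BOX: linear systems of quadratic forms, squares of linear forms in them, and forms in them
whose values on a box are squares -/
def S_BOX : Prop := ∀ B : ℕ, 25 ≤ B →
  ∀ (k : Type) [Field k] [CharZero k] (T : Set (k →+* ℂ)),
  List.TFAE [
    ∀ (n : ℕ) (S : Set (MvPolynomial (Fin (n + 1)) k)), (∀ P ∈ S, ∃ m, P.IsHomogeneous m) →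
      (∀ σ ∈ T, KobayashiHyperbolic (points σ S)) → (points (RingHom.id k) S).Finite,
    ∀ (n : ℕ) (Φ : Submodule k (Fin n → Fin n → k)), (∀ φ ∈ Φ, ∀ i j, φ i j = φ j i) →
      (∀ σ ∈ T, KobayashiHyperbolic (squareForms σ Φ)) →
      (squareForms (RingHom.id k) Φ).Finite,
    ∀ (n : ℕ) (Φ : Submodule k (Fin n → Fin n → k)), (∀ φ ∈ Φ, ∀ i j, φ i j = φ j i) →
      (∀ σ ∈ T, KobayashiHyperbolic (squareForms σ Φ)) → (boxSquares B Φ).Finite]

/-- the final theorem over the rational numbers, with the box form -/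
def S_RAT2 : Prop := ∀ B : ℕ, 25 ≤ B → ∀ r : ℕ → ℕ, (∀ D, D ^ 3 ≤ r D) →
  ∀ A : Set ℕ, A.Infinite →
  List.TFAE [
    ∀ (k : Type) [Field k] [NumberField k] (n : ℕ) (S : Set (MvPolynomial (Fin (n + 1)) k)),
      (∀ P ∈ S, ∃ m, P.IsHomogeneous m) → (∀ σ : k →+* ℂ, KobayashiHyperbolic (points σ S)) →
      (points (RingHom.id k) S).Finite,
    ∀ D ∈ A, ∀ L : Fin (D + r D + 1) → Fin (D + 1) → ℚ, GenPos L →
      KobayashiHyperbolic (sqCover (algebraMap ℚ ℂ) L) → (squarePoints L).Finite,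
    ∀ (n : ℕ) (Φ : Submodule ℚ (Fin n → Fin n → ℚ)), (∀ φ ∈ Φ, ∀ i j, φ i j = φ j i) →
      KobayashiHyperbolic (squareForms (algebraMap ℚ ℂ) Φ) → (boxSquares B Φ).Finite]

end Pool.Agent.Lib.MP_627a61_nt
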