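import Pool.Agent.Lib.MP_627a61_nt.Sq.Final
import Pool.Agent.Lib.MP_627a61_nt.Sq.BoxStm

/-!
# Squares on a box

Lang's question for all projective varieties over a field is equivalent to a problem on linear
systems of quadratic forms all of whose values on the integer points of a box are squares.
-/

open scoped LinearAlgebra.Projectivization Topology
open Filter MvPolynomial

namespace Pool.Agent.Lib.MP_627a61_nt

/-- equations for the image of an injective matrix, valid over all extension fields -/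
lemma exists_eqs {k I J : Type*} [Field k] [Fintype I] [Fintype J] (L : I → J → k)
    (hL : ∀ u : J → k, (∀ l, ∑ i, L l i * u i = 0) → u = 0) :
    ∃ a : I → I → k, ∀ (K : Type) [Field K] (τ : k →+* K) (w : I → K),
      (∀ l, ∑ l', τ (a l l') * w l' = 0) ↔ ∃ u : J → K, ∀ l, w l = ∑ i, τ (L l i) * u i := by
  classical
  let M : Matrix I J k := Matrix.of L
  have hinj : LinearMap.ker M.mulVecLin = ⊥ := by
    rw [LinearMap.ker_eq_bot']
    intro u hu
    refine hL u fun l => ?_
    have := congrFun hu l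
    simpa [Matrix.mulVecLin_apply, Matrix.mulVec, dotProduct, M] using this
  obtain ⟨P, hP⟩ := LinearMap.exists_leftInverse_of_injective _ hinj
  let N : Matrix J I k := LinearMap.toMatrix' P
  have hN : N * M = 1 := by
    apply Matrix.toLin'.injective
    rw [Matrix.toLin'_mul, Matrix.toLin'_one, Matrix.toLin'_toMatrix']
    exact hP
  have hN' : ∀ j j', ∑ l, N j l * L l j' = if j = j' then 1 else 0 := by
    intro j j'
    have := congrFun (congrFun hN j) j'
    simpa [Matrix.mul_apply, Matrix.one_apply, M] using this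
  refine ⟨fun l l' => (if l = l' then 1 else 0) - ∑ j, L l j * N j l', fun K _ τ w => ?_⟩
  have h1 : ∀ l, ∑ l', τ ((if l = l' then 1 else 0) - ∑ j, L l j * N j l') * w l' =
      w l - ∑ j, τ (L l j) * ∑ l', τ (N j l') * w l' := by
    intro l
    simp only [map_sub, sub_mul, Finset.sum_sub_distrib]
    congr 1
    · rw [Finset.sum_eq_single l]
      · simp
      · intro b _ hb
        simp [hb.symm]
      · intro h
        exact absurd (Finset.mem_univ _) h
    · simp only [map_sum, map_mul, Finset.sum_mul, Finset.mul_sum]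
      rw [Finset.sum_comm]
      exact Finset.sum_congr rfl fun j _ => Finset.sum_congr rfl fun l' _ => by ring
  constructor
  · intro h
    refine ⟨fun j => ∑ l', τ (N j l') * w l', fun l => ?_⟩
    have h2 := h l
    rw [h1 l] at h2
    exact sub_eq_zero.1 h2
  · rintro ⟨u, hu⟩ l
    rw [h1 l, sub_eq_zero, hu l]
    refine Finset.sum_congr rfl fun j _ => ?_
    congr 1
    have h3 : ∑ l', τ (N j l') * w l' = ∑ i, (∑ l', τ (N j l') * τ (L l' i)) * u i := by
      simp only [hu, Finset.mul_sum, Finset.sum_mul]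
      rw [Finset.sum_comm]
      exact Finset.sum_congr rfl fun i _ => Finset.sum_congr rfl fun l' _ => by ring
    rw [h3, Finset.sum_eq_single j]
    · have h4 := congrArg τ (hN' j j)
      rw [map_sum] at h4
      simp only [map_mul, if_true, map_one] at h4
      rw [h4, one_mul]
    · intro i _ hi
      have h4 := congrArg τ (hN' j i)
      rw [map_sum] at h4
      simp only [map_mul, hi.symm, if_false, map_zero] at h4
      rw [h4, zero_mul]
    · intro h
      exact absurd (Finset.mem_univ _) h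

/-- the cover defined by an injective matrix is given by diagonal quadrics -/
lemma exists_diagQuad {k I J : Type*} [Field k] [Fintype I] [Fintype J] (L : I → J → k)
    (hL : ∀ u : J → k, (∀ l, ∑ i, L l i * u i = 0) → u = 0) :
    ∃ a : I → I → k, ∀ (K : Type) [Field K] (τ : k →+* K),
      points τ (diagQuad a) = sqCover τ L := by
  obtain ⟨a, ha⟩ := exists_eqs L hL
  refine ⟨a, fun K _ τ => ?_⟩
  ext z
  have h := ha K τ fun l => z.rep l ^ 2
  have h1 : z ∈ points τ (diagQuad a) ↔ ∀ l, ∑ l', τ (a l l') * z.rep l' ^ 2 = 0 := by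
    unfold points diagQuad
    simp only [Set.mem_ofPred_eq, Set.forall_mem_range, eval₂_sum, eval₂_mul, eval₂_C, eval₂_pow,
      eval₂_X]
  rw [h1, h]
  rfl

/-- the set of all `x` with `x ⊗ x` in a subspace is given by quadrics -/
lemma exists_quadrics {k ν : Type*} [Field k] [Fintype ν] (Φ : Submodule k (ν → ν → k)) :
    ∃ S : Set (MvPolynomial ν k), Homog S ∧ ∀ (K : Type) [Field K] (τ : k →+* K),
      (∀ v : ν → K, (∀ F ∈ S, F.eval₂ τ v = 0) ↔ sq v ∈ ext τ Φ) ∧
      points τ S = sqSet (ext τ Φ) := by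
  classical
  let b := Module.finBasis k Φ
  let L : ν × ν → Fin (Module.finrank k Φ) → k := fun p i => (b i : ν → ν → k) p.1 p.2
  have hL : ∀ u : Fin (Module.finrank k Φ) → k, (∀ l, ∑ i, L l i * u i = 0) → u = 0 := by
    intro u hu
    have h1 : ∑ i, u i • b i = 0 := by
      apply Subtype.ext
      rw [Submodule.coe_sum, Submodule.coe_zero]
      funext p q
      rw [Finset.sum_apply, Finset.sum_apply]
      simpa [L, mul_comm] using hu (p, q)
    funext i
    exact Fintype.linearIndependent_iff.1 b.linearIndependent u h1 i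
  obtain ⟨a, ha⟩ := exists_eqs L hL
  have key : ∀ (K : Type) [Field K] (τ : k →+* K) (v : ν → K),
      (∀ F ∈ Set.range fun c : ν × ν => ∑ d : ν × ν, C (a c d) * (X d.1 * X d.2),
        F.eval₂ τ v = 0) ↔ sq v ∈ ext τ Φ := by
    intro K _ τ v
    have h := ha K τ fun d => v d.1 * v d.2
    simp only [Set.forall_mem_range, eval₂_sum, eval₂_mul, eval₂_C, eval₂_X]
    rw [h, mem_ext_iff τ Φ b]
    constructor
    · rintro ⟨u, hu⟩
      refine ⟨u, ?_⟩
      funext p q
      rw [Finset.sum_apply, Finset.sum_apply]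
      simpa [sq, L, mul_comm] using hu (p, q)
    · rintro ⟨u, hu⟩
      refine ⟨u, fun d => ?_⟩
      have h2 := congrFun (congrFun hu d.1) d.2
      rw [Finset.sum_apply, Finset.sum_apply] at h2
      simpa [sq, L, mul_comm] using h2
  refine ⟨Set.range fun c : ν × ν => ∑ d : ν × ν, C (a c d) * (X d.1 * X d.2), ?_,
    fun K _ τ => ⟨key K τ, ?_⟩⟩
  · rintro _ ⟨c, rfl⟩
    refine ⟨2, IsHomogeneous.sum _ _ _ fun d _ => ?_⟩
    have h1 : (C (a c d) * (X d.1 * X d.2) : MvPolynomial ν k).IsHomogeneous (0 + (1 + 1)) :=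
      (isHomogeneous_C _ _).mul ((isHomogeneous_X _ _).mul (isHomogeneous_X _ _))
    simpa using h1
  · ext x
    exact key K τ x.rep

lemma ext_id {k ν : Type*} [Field k] (Φ : Submodule k (ν → ν → k)) :
    ext (RingHom.id k) Φ = Φ := by
  unfold ext
  simp

/-- the vectors `gv` lie in a box -/
lemma gv_box {ν : Type*} [DecidableEq ν] {B : ℕ} (hB : 25 ≤ B) (R : Type*) [Ring R] (g : GI ν) :
    ∃ v : ν → Fin (B + 1), (fun i => ((v i : ℕ) : R)) = gv R g := by
  obtain ⟨i, ⟨j, l, β⟩, ⟨j', l', β'⟩, s, t⟩ := g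
  refine ⟨fun a => ⟨(if a = i then 1 else 0) +
    (s : ℕ) * ((if a = j then 1 else 0) + (β : ℕ) * (if a = l then 1 else 0)) +
    (t : ℕ) * ((if a = j' then 1 else 0) + (β' : ℕ) * (if a = l' then 1 else 0)), ?_⟩, ?_⟩
  · have h1 := s.2
    have h2 := t.2
    have h3 := β.2
    have h4 := β'.2
    have e1 : (if a = i then 1 else 0 : ℕ) ≤ 1 := by split_ifs <;> omega
    have e2 : (if a = j then 1 else 0 : ℕ) ≤ 1 := by split_ifs <;> omega
    have e3 : (if a = l then 1 else 0 : ℕ) ≤ 1 := by split_ifs <;> omega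
    have e4 : (if a = j' then 1 else 0 : ℕ) ≤ 1 := by split_ifs <;> omega
    have e5 : (if a = l' then 1 else 0 : ℕ) ≤ 1 := by split_ifs <;> omega
    have f1 : (β : ℕ) * (if a = l then 1 else 0) ≤ 1 * 1 :=
      Nat.mul_le_mul (by omega) e3
    have f2 : (β' : ℕ) * (if a = l' then 1 else 0) ≤ 1 * 1 :=
      Nat.mul_le_mul (by omega) e5
    have f3 : (s : ℕ) * ((if a = j then 1 else 0) + (β : ℕ) * (if a = l then 1 else 0)) ≤ 4 * 2 :=
      Nat.mul_le_mul (by omega) (by omega)
    have f4 : (t : ℕ) * ((if a = j' then 1 else 0) + (β' : ℕ) * (if a = l' then 1 else 0)) ≤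
        8 * 2 :=
      Nat.mul_le_mul (by omega) (by omega)
    omega
  · funext a
    simp [gv, ev]

lemma sq_smul {ν R : Type*} [CommRing R] (t : R) (v : ν → R) : sq (t • v) = t ^ 2 • sq v := by
  funext i j
  simp only [sq, Pi.smul_apply, smul_eq_mul]
  ring

lemma mem_sqSet_mk {ν K : Type*} [Field K] (Ψ : Submodule K (ν → ν → K)) {v : ν → K}
    (hv : v ≠ 0) : Projectivization.mk K v hv ∈ sqSet Ψ ↔ sq v ∈ Ψ := by
  obtain ⟨t, ht, hrep⟩ := exists_rep_eq (p := Projectivization.mk K v hv) (v := v) (hv := hv) rfl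
  unfold sqSet
  rw [Set.mem_ofPred_eq, hrep, sq_smul]
  exact Submodule.smul_mem_iff _ (pow_ne_zero 2 ht)

/-- renaming of coordinates -/
lemma brody_comap {V V' : Type*} [Fintype V] [Fintype V'] (e : V ≃ V')
    {Y : Set (ℙ ℂ (V → ℂ))} {Y' : Set (ℙ ℂ (V' → ℂ))} (hY : BrodyHyperbolic Y)
    (h : ∀ x ∈ Y', ∀ hne : (fun i => x.rep (e i)) ≠ (0 : V → ℂ),
      Projectivization.mk ℂ (fun i => x.rep (e i)) hne ∈ Y) : BrodyHyperbolic Y' := by
  intro φ hφ hφY
  have hne : ∀ z, (fun i => (φ z).rep (e i)) ≠ (0 : V → ℂ) := by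
    intro z h
    apply (φ z).rep_nonzero
    funext c
    have := congrFun h (e.symm c)
    simpa using this
  obtain ⟨ψ, hψ, hψ1, -⟩ := exists_division hφ (fun x i => x (e i) : (V' → ℂ) → (V → ℂ))
    (by
      intro x
      rw [analyticAt_pi_iff]
      intro i
      exact analyticAt_proj _ x) 1
    (by
      intro t x
      funext i
      simp) (hne 0)
  have hψY : ∀ z, ψ z ∈ Y := by
    intro z
    rw [hψ1 z (hne z)]
    exact h _ (hφY z) _
  have hψc := hY ψ hψ hψY
  intro z w
  have h1 := hψc z w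
  rw [hψ1 z (hne z), hψ1 w (hne w), Projectivization.mk_eq_mk_iff'] at h1
  obtain ⟨t, ht⟩ := h1
  rw [← (φ z).mk_rep, ← (φ w).mk_rep, Projectivization.mk_eq_mk_iff']
  refine ⟨t, ?_⟩
  funext c
  have := congrFun ht (e.symm c)
  simpa using this

/-- renaming of the variables of quadratic forms -/
def reind {ν ν' k : Type*} [Field k] (e : ν ≃ ν') : (ν' → ν' → k) →ₗ[k] (ν → ν → k) where
  toFun φ i j := φ (e i) (e j)
  map_add' _ _ := rfl
  map_smul' _ _ := rfl

lemma reind_ext {ν ν' k K : Type*} [Field k] [Field K] (τ : k →+* K) (e : ν ≃ ν')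
    (Φ : Submodule k (ν → ν → k)) {φ : ν' → ν' → K} (h : φ ∈ ext τ (Φ.comap (reind e))) :
    reind e φ ∈ ext τ Φ := by
  unfold ext at h
  refine Submodule.span_induction (p := fun φ _ => reind e φ ∈ ext τ Φ) ?_ ?_ ?_ ?_ h
  · rintro _ ⟨ψ, hψ, rfl⟩
    exact Submodule.subset_span ⟨reind e ψ, hψ, rfl⟩
  · rw [map_zero]
    exact Submodule.zero_mem _
  · intro x y _ _ hx hy
    rw [map_add]
    exact Submodule.add_mem _ hx hy
  · intro c x _ hx
    rw [map_smul]
    exact Submodule.smul_mem _ _ hx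

lemma squareForms_eq {n : ℕ} {k K : Type*} [Field k] [Field K] (τ : k →+* K)
    (Φ : Submodule k (Fin n → Fin n → k)) : squareForms τ Φ = sqSet (ext τ Φ) := rfl

lemma formVal_eq {n m : ℕ} {k : Type*} [Field k] (φ : Fin n → Fin n → k) (v : Fin n → Fin m) :
    formVal φ v = qv φ fun i => ((v i : ℕ) : k) := rfl

/-- squares of linear forms have square values -/
lemma squareForms_finite_of_box {n B : ℕ} {k : Type*} [Field k]
    {Φ : Submodule k (Fin n → Fin n → k)} (h : (boxSquares B Φ).Finite) :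
    (squareForms (RingHom.id k) Φ).Finite := by
  have h0 : ∀ p : ℙ k (Fin n → k), sq p.rep ≠ 0 := fun p h => p.rep_nonzero (sq_eq_zero h)
  refine Set.Finite.of_injOn (f := fun p => Projectivization.mk k (sq p.rep) (h0 p))
    (t := boxSquares B Φ) ?_ ?_ h
  · intro p hp
    rw [squareForms_eq, ext_id] at hp
    obtain ⟨t, ht, hrep⟩ := exists_rep_eq (p := Projectivization.mk k (sq p.rep) (h0 p))
      (v := sq p.rep) (hv := h0 p) rfl
    refine ⟨?_, t⁻¹, inv_ne_zero ht, fun v => ?_⟩
    · rw [hrep]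
      exact Submodule.smul_mem _ _ hp
    · rw [hrep, formVal_eq, qv_smul, qv_sq]
      refine ⟨∑ a, ((v a : ℕ) : k) * p.rep a, ?_⟩
      field_simp
  · intro p _ q _ hpq
    rw [Projectivization.mk_eq_mk_iff'] at hpq
    obtain ⟨t, ht⟩ := hpq
    obtain ⟨i, hi⟩ : ∃ i, p.rep i ≠ 0 := by
      by_contra hcon
      push Not at hcon
      exact p.rep_nonzero (funext hcon)
    rw [← p.mk_rep, ← q.mk_rep, Projectivization.mk_eq_mk_iff']
    refine ⟨(p.rep i)⁻¹ * (t * q.rep i), ?_⟩
    funext j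
    have h1 := congrFun (congrFun ht i) j
    simp only [sq, Pi.smul_apply, smul_eq_mul] at h1 ⊢
    have h2 : p.rep i * p.rep j = t * (q.rep i * q.rep j) := h1.symm
    have h3 : (p.rep i)⁻¹ * (t * q.rep i) * q.rep j = (p.rep i)⁻¹ * (p.rep i * p.rep j) := by
      rw [h2]
      ring
    rw [h3, inv_mul_cancel_left₀ hi]

/-- From finiteness of squares of linear forms to finiteness of points -/
lemma box_back (hVER : S_VER) (k : Type) [Field k] (T : Set (k →+* ℂ))
    (h : ∀ (n : ℕ) (Φ : Submodule k (Fin n → Fin n → k)), (∀ φ ∈ Φ, ∀ i j, φ i j = φ j i) →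
      (∀ σ ∈ T, KobayashiHyperbolic (squareForms σ Φ)) → (squareForms (RingHom.id k) Φ).Finite)
    (n : ℕ) (S : Set (MvPolynomial (Fin (n + 1)) k)) (hS : Homog S)
    (hZ : ∀ σ ∈ T, KobayashiHyperbolic (points σ S)) : (points (RingHom.id k) S).Finite := by
  classical
  obtain ⟨ν, _, _, Φ, ver, hsym, hv0, hvinj, hvmem, hvhyp⟩ := hVER k n S hS
  let e : ν ≃ Fin (Fintype.card ν) := Fintype.equivFin ν
  let Φ' : Submodule k (Fin (Fintype.card ν) → Fin (Fintype.card ν) → k) := Φ.comap (reind e)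
  obtain ⟨S', hS', hS'2⟩ := exists_quadrics Φ'
  have hid := hS'2 k (RingHom.id k)
  rw [ext_id] at hid
  have hfin : (points (RingHom.id k) S').Finite := by
    rw [(hS'2 k (RingHom.id k)).2]
    refine h _ Φ' ?_ fun σ hσ => ?_
    · intro φ hφ i j
      have := hsym _ hφ (e.symm i) (e.symm j)
      simpa [reind] using this
    · have h1 : BrodyHyperbolic (sqSet (ext σ Φ')) := by
        refine brody_comap e (hvhyp σ (hZ σ hσ).brody) fun x hx hne => ?_
        rw [mem_sqSet_mk]
        exact reind_ext σ e Φ hx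
      have h2 : PClosed (sqSet (ext σ Φ')) := by
        rw [← (hS'2 ℂ σ).2]
        exact pclosed_points hS' σ
      exact h1.kobayashi h2
  refine finite_transfer (fun x => if x = 0 then 0 else fun i => ver x (e.symm i)) ?_ ?_ hS' ?_ hfin
  · intro x hx h0
    rw [if_neg hx] at h0
    apply hv0 x hx
    funext i
    have := congrFun h0 (e i)
    simpa using this
  · rintro x y hx hy ⟨t, ht⟩
    rw [if_neg hx, if_neg hy] at ht
    refine hvinj x y hx hy ⟨t, ?_⟩
    funext i
    have := congrFun ht (e i)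
    simpa using this
  · intro x hx
    rw [hid.1]
    by_cases h0 : x = 0
    · rw [if_pos h0]
      have : sq (0 : Fin (Fintype.card ν) → k) = 0 := by
        funext i j
        simp [sq]
      rw [this]
      exact Submodule.zero_mem _
    · rw [if_neg h0]
      have h1 := hvmem x h0 hx
      change reind e (sq fun i => ver x (e.symm i)) ∈ Φ
      have h2 : reind e (sq fun i => ver x (e.symm i)) = sq (ver x) := by
        funext i j
        simp [reind, sq]
      rw [h2]
      exact h1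

/-- From finiteness of points to finiteness of forms with square values on the box -/
lemma box_forward (hKEY : S_KEY) (hINJ : S_INJ) (hSQ : S_SQFIN) {B : ℕ} (hB : 25 ≤ B)
    (k : Type) [Field k] [CharZero k] (T : Set (k →+* ℂ))
    (h : ∀ (n : ℕ) (S : Set (MvPolynomial (Fin (n + 1)) k)), Homog S →
      (∀ σ ∈ T, KobayashiHyperbolic (points σ S)) → (points (RingHom.id k) S).Finite)
    (n : ℕ) (Φ : Submodule k (Fin n → Fin n → k)) (hsym : ∀ φ ∈ Φ, ∀ i j, φ i j = φ j i)
    (hZ : ∀ σ ∈ T, KobayashiHyperbolic (squareForms σ Φ)) : (boxSquares B Φ).Finite := by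
  classical
  obtain hr | ⟨D, hD⟩ : Module.finrank k Φ = 0 ∨ ∃ D, Module.finrank k Φ = D + 1 := by
    rcases Nat.eq_zero_or_pos (Module.finrank k Φ) with h0 | h0
    · exact Or.inl h0
    · exact Or.inr ⟨Module.finrank k Φ - 1, by omega⟩
  · have h1 : Φ = ⊥ := Submodule.finrank_eq_zero.1 hr
    have h2 : boxSquares B Φ = ∅ := by
      rw [Set.eq_empty_iff_forall_notMem]
      rintro p ⟨hp, -⟩
      rw [h1, Submodule.mem_bot] at hp
      exact p.rep_nonzero hp
    rw [h2]
    exact Set.finite_empty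
  let b : Module.Basis (Fin (D + 1)) k Φ := Module.finBasisOfFinrankEq k Φ hD
  let Bf : Fin (D + 1) → Fin n → Fin n → k := fun i => (b i).1
  have hBf : LinearIndependent k Bf :=
    b.linearIndependent.map' Φ.subtype (Submodule.ker_subtype _)
  obtain ⟨m, hm⟩ : ∃ m, Fintype.card (Fin n → Fin (B + 1)) = m + 1 :=
    ⟨Fintype.card (Fin n → Fin (B + 1)) - 1, by
      have : 0 < Fintype.card (Fin n → Fin (B + 1)) := Fintype.card_pos
      omega⟩
  let e : Fin (m + 1) ≃ (Fin n → Fin (B + 1)) := (Fintype.equivFinOfCardEq hm).symm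
  let lam : Fin (m + 1) → Fin n → k := fun l i => ((e l i : ℕ) : k)
  have hlam : ∀ g : GI (Fin n), ∃ l, lam l = gv k g := by
    intro g
    obtain ⟨v, hv⟩ := gv_box hB k g
    refine ⟨e.symm v, ?_⟩
    rw [← hv]
    funext i
    simp [lam]
  have hinj : ∀ u : Fin (D + 1) → k, (∀ l, ∑ i, Lmat Bf lam l i * u i = 0) → u = 0 := by
    intro u hu
    exact hINJ k (Fin n) (Fin (m + 1)) D Bf hBf (fun i p q => hsym _ (b i).2 p q) lam hlam k
      (RingHom.id k) u hu
  obtain ⟨a, ha⟩ := exists_diagQuad (Lmat Bf lam) hinj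
  have hfin : (squarePoints (Lmat Bf lam)).Finite := by
    rw [hSQ k D (m + 1) (Lmat Bf lam) hinj, ← ha]
    refine h m (diagQuad a) (homog_diagQuad a) fun σ hσ => ?_
    have h1 : BrodyHyperbolic (points σ (diagQuad a)) := by
      rw [ha, ← valSet_ext σ Φ b lam]
      refine hKEY _ _ (ext σ Φ) (ext_symm σ hsym) _ ?_ (hZ σ hσ).brody
      intro g
      obtain ⟨l, hl⟩ := hlam g
      exact ⟨l, by rw [hl, gv_map]⟩
    exact h1.kobayashi (pclosed_points (homog_diagQuad a) σ)
  -- coordinates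
  let cd : ℙ k (Fin n → Fin n → k) → Fin (D + 1) → k := fun p =>
    if hp : p.rep ∈ Φ then b.equivFun ⟨p.rep, hp⟩ else fun _ => 1
  have hcd : ∀ p : ℙ k (Fin n → Fin n → k), p.rep ∈ Φ → p.rep = ∑ i, cd p i • Bf i := by
    intro p hp
    have h1 := congrArg Φ.subtype (b.sum_equivFun ⟨p.rep, hp⟩)
    rw [map_sum] at h1
    simp only [map_smul, Submodule.subtype_apply] at h1
    simp only [cd, dif_pos hp]
    exact h1.symm
  have hcd0 : ∀ p : ℙ k (Fin n → Fin n → k), cd p ≠ 0 := by
    intro p h0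
    by_cases hp : p.rep ∈ Φ
    · have h1 := hcd p hp
      rw [h0] at h1
      apply p.rep_nonzero
      rw [h1]
      simp
    · simp only [cd, dif_neg hp] at h0
      exact one_ne_zero (congrFun h0 0)
  refine Set.Finite.of_injOn (f := fun p => Projectivization.mk k (cd p) (hcd0 p))
    (t := squarePoints (Lmat Bf lam)) ?_ ?_ hfin
  · rintro p ⟨hp, c, hc, hsq⟩
    obtain ⟨t, ht, hrep⟩ := exists_rep_eq (p := Projectivization.mk k (cd p) (hcd0 p))
      (v := cd p) (hv := hcd0 p) rfl
    refine ⟨c * t⁻¹, mul_ne_zero hc (inv_ne_zero ht), fun l => ?_⟩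
    have h1 := hsq (e l)
    rw [formVal_eq, hcd p hp, qv_sum] at h1
    have h2 : c * t⁻¹ * ∑ i, Lmat Bf lam l i * (Projectivization.mk k (cd p) (hcd0 p)).rep i =
        c * ∑ i, qv (Bf i) (fun i => ((e l i : ℕ) : k)) * cd p i := by
      rw [hrep]
      simp only [Pi.smul_apply, smul_eq_mul, Finset.mul_sum]
      refine Finset.sum_congr rfl fun i _ => ?_
      have h3 : Lmat Bf lam l i = qv (Bf i) (fun i => ((e l i : ℕ) : k)) := rfl
      rw [h3]
      field_simp
    rw [h2]
    exact h1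
  · rintro p ⟨hp, -⟩ q ⟨hq, -⟩ hpq
    rw [Projectivization.mk_eq_mk_iff'] at hpq
    obtain ⟨t, ht⟩ := hpq
    rw [← p.mk_rep, ← q.mk_rep, Projectivization.mk_eq_mk_iff']
    refine ⟨t, ?_⟩
    rw [hcd p hp, hcd q hq, ← ht, Finset.smul_sum]
    exact Finset.sum_congr rfl fun i _ => by rw [Pi.smul_apply, smul_smul, smul_eq_mul]

theorem piece_BOX (hKEY : S_KEY) (hVER : S_VER) (hINJ : S_INJ) (hSQ : S_SQFIN) : S_BOX := by
  intro B hB k _ _ T
  tfae_have 1 → 3 := fun h n Φ hsym hZ => box_forward hKEY hINJ hSQ hB k T h n Φ hsym hZ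
  tfae_have 3 → 2 := fun h n Φ hsym hZ => squareForms_finite_of_box (h n Φ hsym hZ)
  tfae_have 2 → 1 := fun h n S hS hZ => box_back hVER k T h n S hS hZ
  tfae_finish

end Pool.Agent.Lib.MP_627a61_nt
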