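import Pool.Agent.Lib.MP_627a61_nt.Sq.Defs

/-!
# Statements of the pieces of SQUARES (not used in any proof; the pieces are theorems with these
statements, in their own files)
-/

open scoped LinearAlgebra.Projectivization Topology
open Filter MvPolynomial

namespace Pool.Agent.Lib.MP_627a61_nt

/-- CONST. A holomorphic curve whose coordinates have squares proportional to constants
(frequently near one point) is constant. Proof: local lift `f` at `z₀`; the analytic functions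
`κ j * f i ^ 2 - κ i * f j ^ 2` vanish frequently, so eventually. Take `f j z₀ ≠ 0`, so
`κ j ≠ 0`, and `(f i / f j)` is analytic with constant square, so constant near `z₀`;
conclude with `eq_of_eventually_const`. -/
def S_CONST : Prop := ∀ (ι : Type) [Fintype ι] (ψ : ℂ → ℙ ℂ (ι → ℂ)),
  (∀ z, HolomorphicAt ψ z) → ∀ (z₀ : ℂ) (κ : ι → ℂ),
  (∃ᶠ z in 𝓝[≠] z₀, ∃ h : ℂ, ∀ i, (ψ z).rep i ^ 2 = κ i * h) → ∀ z w, ψ z = ψ w

/-- PLANE (from helper32/helper35 `buchi`, with `exists_division` for the subtuple `l`). -/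
def S_PLANE : Prop := ∀ (I : Type) [Fintype I] (ψ : ℂ → ℙ ℂ (I → ℂ)),
  (∀ z, HolomorphicAt ψ z) → ∀ l : Fin 9 → I,
  (∀ z, ∃ a b c : ℂ, ∀ t : Fin 9, (ψ z).rep (l t) ^ 2 =
    a + 2 * ((t : ℕ) : ℂ) * b + ((t : ℕ) : ℂ) ^ 2 * c) →
  (∀ z, ∀ a b c : ℂ, (∀ t : Fin 9, (ψ z).rep (l t) ^ 2 =
    a + 2 * ((t : ℕ) : ℂ) * b + ((t : ℕ) : ℂ) ^ 2 * c) → b ^ 2 = a * c) ∨
  (∃ p : Fin 9 → ℂ, ∀ z, ∀ᶠ w in 𝓝[≠] z, ∃ r : ℂ, ∀ t, (ψ w).rep (l t) = r * p t)

/-- KEYALG: pure algebra. `C` = constants. If all planes `⟨e_i, w⟩`, `w = e_j + b e_k`, are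
degenerate we get the first case (`b = 0, 1`, characteristic zero). Otherwise one plane
`⟨e_i, v⟩` is not degenerate, so `φ(e_i,e_i) = α h`, `φ(e_i,v) = β h`, `φ(v,v) = γ h`,
`α γ ≠ β ^ 2`, `h ≠ 0`. Let `w` be one of the `e_j + b e_k`. Claim `φ(w,w) ∈ C h` (then all
`φ_jk ∈ C h` since `φ(e_j+e_k,e_j+e_k) = φ_jj + 2 φ_jk + φ_kk`). For `s = 0..4` let
`p_s = e_i + s v`, `Q(s) = α + 2 β s + γ s ^ 2`, so `φ(p_s,p_s) = Q(s) h`, and `Q(s) ≠ 0` for at
least three of the five `s`. If for one of these `s` the plane `⟨p_s, w⟩` is of the second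
(constant) type then `Q(s) h = α' κ`, so `κ ∈ C h` and `φ(w,w) = γ' κ ∈ C h`. Otherwise with
`g = φ(w,w)`, `f_u = φ(e_i,w)`, `f_v = φ(v,w)`: `(f_u + s f_v) ^ 2 = Q(s) h g` for three `s`, so
`f_u ^ 2 = α h g`, `f_u f_v = β h g`, `f_v ^ 2 = γ h g`, so `(α γ - β ^ 2) (h g) ^ 2 = 0` and
`g = 0`. -/
def S_KEYALG : Prop := ∀ (C K : Type) [Field C] [CharZero C] [Field K] (ι : C →+* K)
  (ν : Type) [Fintype ν] [DecidableEq ν] (φ : ν → ν → K), (∀ i j, φ i j = φ j i) →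
  (∀ (i : ν) (v w : EI ν) (s : Fin 5),
    bv φ (pv K i v s) (ev K w) ^ 2 = qv φ (pv K i v s) * qv φ (ev K w) ∨
    ∃ (κ : K) (α β γ : C), qv φ (pv K i v s) = ι α * κ ∧
      bv φ (pv K i v s) (ev K w) = ι β * κ ∧ qv φ (ev K w) = ι γ * κ) →
  (∀ i j k, φ i i * φ j k = φ i j * φ i k) ∨
  ∃ (h : K) (c : ν → ν → C), ∀ i j, φ i j = ι (c i j) * h

/-- KEYA: the case where all `φ` have rank one. `φ_jk` is a quadratic polynomial in `z` (the
coordinates of `e_j`, `e_k`, `e_j + e_k`, all of the form `gv`). In the ring of analytic germs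
at `z₀` (a domain: `AnalyticAt.eventually_eq_zero_or_eventually_ne_zero`) choose `i` with
`φ_ii ≠ 0`; then `φ_ij ^ 2 = φ_ii φ_jj = (z_i z_j) ^ 2`, `φ_ij = ε_j z_i z_j` with a constant sign
`ε_j`, and `φ_jk = ε_j ε_k z_j z_k` near `z₀`, so everywhere (`exists_division`, third
conclusion). By `exists_division` for `x = (ε_j z_j)_j` there is an entire curve in
`sqSet Φ` (`x ⊗ x = φ`), so it is constant, so all `z_l ^ 2 = φ(lam l, lam l)` are proportional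
to constants; S_CONST. -/
def S_KEYA : Prop := ∀ (ν I : Type) [Fintype ν] [DecidableEq ν] [Fintype I]
  (Φ : Submodule ℂ (ν → ν → ℂ)), Symm Φ → ∀ lam : I → ν → ℂ,
  (∀ g : GI ν, ∃ l, lam l = gv ℂ g) → BrodyHyperbolic (sqSet Φ) →
  ∀ ψ : ℂ → ℙ ℂ (I → ℂ), (∀ z, HolomorphicAt ψ z) → (∀ z, ψ z ∈ valSet Φ lam) → ∀ z₀ : ℂ,
  (∀ᶠ z in 𝓝[≠] z₀, ∀ φ ∈ Φ, (∀ l, (ψ z).rep l ^ 2 = qv φ (lam l)) →
    ∀ i j k, φ i i * φ j k = φ i j * φ i k) →
  ∀ z w, ψ z = ψ w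

/-- KEYDICH: from S_PLANE and S_KEYALG, with `C = ℂ` and `K = (𝒰 : Filter ℂ).Germ ℂ`,
`𝒰` an ultrafilter below `𝓝[≠] z₀` (`Filter.Germ` for an ultrafilter is a field). `φ_jk` is a
quadratic polynomial in `z` as in S_KEYA, so analytic in terms of a local lift; a polynomial
identity in a lift that holds in `K` holds frequently near `z₀`, so eventually. The nine
coordinates of the plane `⟨p, w⟩`, `p = e_i + s v`, are those of `gv ℂ (i, v, w, s, t)`,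
`t = 0..8`: their squares are `φ(p,p) + 2 t φ(p,w) + t ^ 2 φ(w,w)`. -/
def S_KEYDICH : Prop := ∀ (ν I : Type) [Fintype ν] [DecidableEq ν] [Fintype I]
  (Φ : Submodule ℂ (ν → ν → ℂ)), Symm Φ → ∀ lam : I → ν → ℂ,
  (∀ g : GI ν, ∃ l, lam l = gv ℂ g) →
  ∀ ψ : ℂ → ℙ ℂ (I → ℂ), (∀ z, HolomorphicAt ψ z) → (∀ z, ψ z ∈ valSet Φ lam) → ∀ z₀ : ℂ,
  (∀ᶠ z in 𝓝[≠] z₀, ∀ φ ∈ Φ, (∀ l, (ψ z).rep l ^ 2 = qv φ (lam l)) →
    ∀ i j k, φ i i * φ j k = φ i j * φ i k) ∨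
  ∃ c : ν → ν → ℂ, ∃ᶠ z in 𝓝[≠] z₀, ∀ φ ∈ Φ, (∀ l, (ψ z).rep l ^ 2 = qv φ (lam l)) →
    ∃ h : ℂ, ∀ i j, φ i j = c i j * h

/-- KEY, from S_KEYA, S_KEYDICH, S_CONST -/
def S_KEY : Prop := ∀ (ν I : Type) [Fintype ν] [DecidableEq ν] [Fintype I]
  (Φ : Submodule ℂ (ν → ν → ℂ)), Symm Φ → ∀ lam : I → ν → ℂ,
  (∀ g : GI ν, ∃ l, lam l = gv ℂ g) → BrodyHyperbolic (sqSet Φ) → BrodyHyperbolic (valSet Φ lam)

/-- the conclusion of the Veronese step -/
def VerConcl (k : Type) [Field k] (n : ℕ) (S : Set (MvPolynomial (Fin (n + 1)) k)) : Prop :=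
  ∃ (ν : Type) (_ : Fintype ν) (_ : DecidableEq ν) (Φ : Submodule k (ν → ν → k))
    (ver : (Fin (n + 1) → k) → (ν → k)), Symm Φ ∧ (∀ x, x ≠ 0 → ver x ≠ 0) ∧
    (∀ x y, x ≠ 0 → y ≠ 0 → (∃ t : k, ver x = t • ver y) → ∃ s : k, x = s • y) ∧
    (∀ x, x ≠ 0 → (∀ P ∈ S, P.eval₂ (RingHom.id k) x = 0) → sq (ver x) ∈ Φ) ∧
    ∀ σ : k →+* ℂ, BrodyHyperbolic (points σ S) → BrodyHyperbolic (sqSet (ext σ Φ))

/-- VERDEG: equations all of degree `2 * e`. Take a finite subset with the same zeros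
(`exists_finite_equations`), `2 e ≥` all degrees, and all `P * X i ^ (2 e - deg P)`. -/
def S_VERDEG : Prop := ∀ (k : Type) [Field k] (n : ℕ) (S : Set (MvPolynomial (Fin (n + 1)) k)),
  Homog S → ∃ e : ℕ, 0 < e ∧ ∃ S' : Set (MvPolynomial (Fin (n + 1)) k),
    (∀ P ∈ S', P.IsHomogeneous (2 * e)) ∧
    ∀ (L : Type) [Field L] (τ : k →+* L) (x : Fin (n + 1) → L), x ≠ 0 →
      ((∀ P ∈ S, P.eval₂ τ x = 0) ↔ ∀ P ∈ S', P.eval₂ τ x = 0)

/-- VER: `ν = Fin e → Fin (n + 1)`, `ver x α = ∏ i, x (α i)`, `Φ` = all `φ` with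
`φ α β = φ α' β'` whenever the multisets of values of `(α, β)` and `(α', β')` agree, and
`∑_m (coeff m P) φ α_m β_m = 0` for `P ∈ S`, where `(α_m, β_m)` is a pair with
`∏ x (α_m i) ∏ x (β_m i) = x ^ m`. Curve `ψ` in `sqSet (ext σ Φ)`, `y` its coordinates:
`y_α y_β = y_α' y_β'`. If `y_(const i) = 0` for all `i` then `y = 0`: by induction on the number
of `b` with `α b ≠ i`, `y_α ^ 2 = y_(update α b i) * y_(update α a (α b))` where `α a = i`. So
`c = y_(const i) ≠ 0` for one `i` (somewhere, so near there); put `x_j = y_(update (const i) 0 j)`;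
then `c ^ (e - 1) y_α = ∏ x_(α a)` (from `y_α c = y_(update α b i) x_(α b)`), so `P(x) = 0`, and
`x` gives an entire curve in `points σ S` by `exists_division`; it is constant, so `ψ` is
constant near the point (`eq_of_eventually_const`). -/
def S_VER1 : Prop := ∀ (k : Type) [Field k] (n e : ℕ), 0 < e →
  ∀ S : Set (MvPolynomial (Fin (n + 1)) k), (∀ P ∈ S, P.IsHomogeneous (2 * e)) → VerConcl k n S

/-- VER, from S_VERDEG and S_VER1 -/
def S_VER : Prop := ∀ (k : Type) [Field k] (n : ℕ) (S : Set (MvPolynomial (Fin (n + 1)) k)),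
  Homog S → VerConcl k n S

/-- DUM. `Φ_min` = all `φ'` with `φ'` restricted to `ν` in `Φ` and all other entries zero,
`Φ_max` = all symmetric `φ'` with restriction to `ν` in `Φ` and `φ' y y = 0` for all
`y : Fin a ⊕ Fin a`. `finrank Φ_min ≤ (card ν) ^ 2`, `finrank Φ_max ≥ a ^ 2` (matrices supported on
`Fin a × Fin a` and its transpose), and there is a subspace of every dimension between the two.
`sq x ∈ ext σ Φ'` implies `x y = 0` for the new variables and `sq (x restricted) ∈ ext σ Φ`. -/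
def S_DUM : Prop := ∀ (k : Type) [Field k] (ν : Type) [Fintype ν] [DecidableEq ν]
  (Φ : Submodule k (ν → ν → k)), Symm Φ → ∀ a D : ℕ, Fintype.card ν ^ 2 ≤ D → D < a ^ 2 →
  ∃ Φ' : Submodule k ((ν ⊕ (Fin a ⊕ Fin a)) → (ν ⊕ (Fin a ⊕ Fin a)) → k), Symm Φ' ∧
    Module.finrank k Φ' = D + 1 ∧ (∀ x : ν → k, sq x ∈ Φ → sq (Sum.elim x 0) ∈ Φ') ∧
    ∀ σ : k →+* ℂ, BrodyHyperbolic (sqSet (ext σ Φ)) → BrodyHyperbolic (sqSet (ext σ Φ'))

/-- GOOD. The functionals `φ ↦ qv φ h` span the dual of `span b` (symmetric matrices,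
characteristic zero), so there are `h_0, ..., h_D` with nonzero determinant. For each injective
`c` the determinant is a polynomial in the coordinates of all `lam l`, not zero; the product over
all `c` has a point where it does not vanish (`MvPolynomial.funext`, infinite field). -/
def S_GOOD : Prop := ∀ (k : Type) [Field k] [CharZero k] (ν : Type) [Fintype ν] (D M : ℕ)
  (b : Fin (D + 1) → ν → ν → k), LinearIndependent k b → (∀ i p q, b i p q = b i q p) →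
  ∃ lam : Fin M → ν → k, GenPos (Lmat b lam)

/-- PERT. For each `c` the determinant is a polynomial in `ε = 1 / (m + 1)`, nonzero at
`ε = 1`. -/
def S_PERT : Prop := ∀ (k : Type) [Field k] [CharZero k] (ν : Type) [Fintype ν] (D M : ℕ)
  (b : Fin (D + 1) → ν → ν → k) (lam₀ lam₁ : Fin M → ν → k), GenPos (Lmat b lam₁) →
  ∀ᶠ m : ℕ in atTop, GenPos (Lmat b (path lam₀ lam₁ m))

/-- LIM. `eventually_brodyHyperbolic`; closedness: normalise with `tendsto_col` as in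
`pclosed_points`; `P L₀ = 1` for a matrix `P` (left inverse), `P L_n → 1` is eventually
invertible, `u_n = (P L_n)⁻¹ P (z_n ^ 2) → P (z ^ 2)`. -/
def S_LIM : Prop := ∀ (I J : Type) [Fintype I] [Fintype J] (L : ℕ → I → J → ℂ) (L₀ : I → J → ℂ),
  (∀ i j, Tendsto (fun n => L n i j) atTop (𝓝 (L₀ i j))) →
  (∀ u : J → ℂ, (∀ i, ∑ j, L₀ i j * u j = 0) → u = 0) →
  BrodyHyperbolic (sqCover (RingHom.id ℂ) L₀) →
  ∀ᶠ n in atTop, BrodyHyperbolic (sqCover (RingHom.id ℂ) (L n))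

/-- INJ. Over `k`: `qv φ (e_j) = φ_jj`, `qv φ (e_j + e_k) = φ_jj + 2 φ_jk + φ_kk` (both are of the
form `gv`), so `L` is injective over `k`, so it has a left inverse matrix `P` over `k`; apply
`σ`. -/
def S_INJ : Prop := ∀ (k : Type) [Field k] [CharZero k] (ν I : Type) [Fintype ν] [DecidableEq ν]
  [Fintype I] (D : ℕ) (b : Fin (D + 1) → ν → ν → k), LinearIndependent k b →
  (∀ i p q, b i p q = b i q p) → ∀ lam : I → ν → k, (∀ g : GI ν, ∃ l, lam l = gv k g) →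
  ∀ (K : Type) [Field K] (σ : k →+* K) (u : Fin (D + 1) → K),
    (∀ l, ∑ i, σ (Lmat b lam l i) * u i = 0) → u = 0

/-- MAT. `L = [L₁; L₂]`, `L₁` = first `D + 1` rows, `a = [-L₂ L₁⁻¹ | 1]`. If the minor of `a`
with columns `c` is zero, a nonzero row combination of `a` vanishes on the columns `c`; it is a
relation between the other `D + 1` rows of `L`, so it is zero. -/
def S_MAT : Prop := ∀ (k : Type) [Field k] (D r : ℕ) (L : Fin (D + r + 1) → Fin (D + 1) → k),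
  GenPos L → ∃ a : Fin r → Fin (D + r + 1) → k, MaxMinors a ∧
    ∀ (K : Type) [Field K] (τ : k →+* K), points τ (diagQuad a) = sqCover τ L

/-- SQFIN. The maps `[u] ↦ [z]`, `z_l ^ 2 = c L_l(u)`, and `[z] ↦ [u]`; the second has finite
fibres. -/
def S_SQFIN : Prop := ∀ (k : Type) [Field k] [CharZero k] (D M : ℕ)
  (L : Fin M → Fin (D + 1) → k), (∀ u : Fin (D + 1) → k, (∀ l, ∑ i, L l i * u i = 0) → u = 0) →
  ((squarePoints L).Finite ↔ (sqCover (RingHom.id k) L).Finite)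

/-- NUM (`a = Nat.sqrt D + 1`; `180 (N + 2 a) ^ 5` is the cardinality of `GI` of
`N + 2 a` variables). `N + 2 a ≤ 3 √D` and `180 * 243 * √D ^ 5 ≤ √D ^ 6 ≤ D ^ 3` for large `D`. -/
def S_NUM : Prop := ∀ N : ℕ, ∃ D₀ : ℕ, ∀ D, D₀ ≤ D → N ^ 2 ≤ D ∧ D < (Nat.sqrt D + 1) ^ 2 ∧
  180 * (N + 2 * (Nat.sqrt D + 1)) ^ 5 ≤ D ^ 3

/-- EMB, from S_VER, S_DUM, S_KEY, S_GOOD, S_PERT, S_LIM, S_INJ, S_NUM -/
def S_EMB : Prop := ∀ (k : Type) [Field k] [CharZero k] (n : ℕ)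
  (S : Set (MvPolynomial (Fin (n + 1)) k)), Homog S → ∀ T : Set (k →+* ℂ), T.Finite →
  (∀ σ ∈ T, BrodyHyperbolic (points σ S)) →
  ∃ D₀ : ℕ, ∀ D, D₀ ≤ D → ∀ r, D ^ 3 ≤ r → ∃ L : Fin (D + r + 1) → Fin (D + 1) → k,
    GenPos L ∧ (∀ σ ∈ T, BrodyHyperbolic (sqCover σ L)) ∧
    ((sqCover (RingHom.id k) L).Finite → (points (RingHom.id k) S).Finite)

/-- the final theorem over one field -/
def S_SAME : Prop := ∀ r : ℕ → ℕ, (∀ D, D ^ 3 ≤ r D) →
  ∀ (k : Type) [Field k] [CharZero k] (T : Set (k →+* ℂ)), T.Finite → ∀ A : Set ℕ, A.Infinite →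
  List.TFAE [
    ∀ (n : ℕ) (S : Set (MvPolynomial (Fin (n + 1)) k)), (∀ P ∈ S, ∃ m, P.IsHomogeneous m) →
      (∀ σ ∈ T, KobayashiHyperbolic (points σ S)) → (points (RingHom.id k) S).Finite,
    ∀ D ∈ A, ∀ a : Fin (r D) → Fin (D + r D + 1) → k, MaxMinors a →
      (∀ σ ∈ T, KobayashiHyperbolic (points σ (diagQuad a))) →
      (points (RingHom.id k) (diagQuad a)).Finite,
    ∀ D ∈ A, ∀ L : Fin (D + r D + 1) → Fin (D + 1) → k, GenPos L →
      (∀ σ ∈ T, KobayashiHyperbolic (sqCover σ L)) → (squarePoints L).Finite]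

/-- the final theorem over the rational numbers -/
def S_RAT : Prop := ∀ r : ℕ → ℕ, (∀ D, D ^ 3 ≤ r D) → ∀ A : Set ℕ, A.Infinite →
  List.TFAE [
    ∀ (k : Type) [Field k] [NumberField k] (n : ℕ) (S : Set (MvPolynomial (Fin (n + 1)) k)),
      (∀ P ∈ S, ∃ m, P.IsHomogeneous m) → (∀ σ : k →+* ℂ, KobayashiHyperbolic (points σ S)) →
      (points (RingHom.id k) S).Finite,
    ∀ D ∈ A, ∀ a : Fin (r D) → Fin (D + r D + 1) → ℚ, MaxMinors a →
      KobayashiHyperbolic (points (algebraMap ℚ ℂ) (diagQuad a)) →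
      (points (RingHom.id ℚ) (diagQuad a)).Finite,
    ∀ D ∈ A, ∀ L : Fin (D + r D + 1) → Fin (D + 1) → ℚ, GenPos L →
      KobayashiHyperbolic (sqCover (algebraMap ℚ ℂ) L) → (squarePoints L).Finite]

end Pool.Agent.Lib.MP_627a61_nt
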