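import Pool.Agent.Lib.MP_627a61_nt.Sq.Glue
import Pool.Agent.Lib.MP_627a61_nt.Sq.Stm

/-!
# The final equivalences
-/

open scoped LinearAlgebra.Projectivization Topology
open Filter MvPolynomial

namespace Pool.Agent.Lib.MP_627a61_nt

lemma homog_diagQuad {ι κ k : Type*} [Fintype ι] [Field k] (a : κ → ι → k) :
    Homog (diagQuad a) := by
  rintro _ ⟨c, rfl⟩
  refine ⟨2, IsHomogeneous.sum _ _ _ fun l _ => ?_⟩
  have h1 : (C (a c l) * X l ^ 2 : MvPolynomial ι k).IsHomogeneous (0 + 1 * 2) :=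
    (isHomogeneous_C _ _).mul ((isHomogeneous_X _ _).pow 2)
  simpa using h1

theorem piece_SAME (hEMB : S_EMB) (hMAT : S_MAT) (hSQ : S_SQFIN) : S_SAME := by
  intro r hr k _ _ T hT A hA
  tfae_have 1 → 2 := by
    intro h D _ a _ hσ
    exact h (D + r D) (diagQuad a) (homog_diagQuad a) hσ
  tfae_have 1 → 3 := by
    intro h D _ L hL hσ
    obtain ⟨a, ha, haL⟩ := hMAT k D (r D) L hL
    rw [hSQ k D (D + r D + 1) L (hL.inj (by omega)), ← haL]
    refine h (D + r D) (diagQuad a) (homog_diagQuad a) fun σ hσT => ?_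
    rw [haL]
    exact hσ σ hσT
  tfae_have 2 → 1 := by
    intro h n S hS hZ
    obtain ⟨D₀, hD₀⟩ := hEMB k n S hS T hT fun σ hσ => (hZ σ hσ).brody
    obtain ⟨D, hDA, hD⟩ := hA.exists_gt D₀
    obtain ⟨L, hL, hLσ, hfin⟩ := hD₀ D hD.le (r D) (hr D)
    obtain ⟨a, ha, haL⟩ := hMAT k D (r D) L hL
    apply hfin
    rw [← haL]
    refine h D hDA a ha fun σ hσ => ?_
    have h1 : BrodyHyperbolic (points σ (diagQuad a)) := by
      rw [haL]
      exact hLσ σ hσ
    exact h1.kobayashi (pclosed_points (homog_diagQuad a) σ)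
  tfae_have 3 → 1 := by
    intro h n S hS hZ
    obtain ⟨D₀, hD₀⟩ := hEMB k n S hS T hT fun σ hσ => (hZ σ hσ).brody
    obtain ⟨D, hDA, hD⟩ := hA.exists_gt D₀
    obtain ⟨L, hL, hLσ, hfin⟩ := hD₀ D hD.le (r D) (hr D)
    obtain ⟨a, ha, haL⟩ := hMAT k D (r D) L hL
    apply hfin
    rw [← hSQ k D (D + r D + 1) L (hL.inj (by omega))]
    refine h D hDA L hL fun σ hσ => ?_
    have h1 : BrodyHyperbolic (points σ (diagQuad a)) := by
      rw [haL]
      exact hLσ σ hσ
    rw [← haL]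
    exact h1.kobayashi (pclosed_points (homog_diagQuad a) σ)
  tfae_finish

theorem piece_RAT (hSAME : S_SAME) : S_RAT := by
  intro r hr A hA
  have hS := hSAME r hr ℚ {algebraMap ℚ ℂ} (Set.finite_singleton _) A hA
  have h01 := hS.out 0 1 rfl rfl
  have h12 := hS.out 1 2 rfl rfl
  have h02 := hS.out 0 2 rfl rfl
  tfae_have 1 → 2 := by
    intro h D hD a ha hσ
    refine h01.1 ?_ D hD a ha fun σ hσ' => ?_
    · intro n S hS hZ
      refine h ℚ n S hS fun σ => ?_
      rw [Subsingleton.elim σ (algebraMap ℚ ℂ)]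
      exact hZ _ rfl
    · rw [Set.mem_singleton_iff] at hσ'
      rw [hσ']
      exact hσ
  tfae_have 2 → 3 := by
    intro h D hD L hL hσ
    refine h12.1 ?_ D hD L hL fun σ hσ' => ?_
    · intro D hD a ha hZ
      exact h D hD a ha (hZ _ rfl)
    · rw [Set.mem_singleton_iff] at hσ'
      rw [hσ']
      exact hσ
  tfae_have 3 → 1 := by
    intro h k _ _ n₀ S hS' hZ
    obtain ⟨r', S', Φ, hS'2, hS'1, hΦ0, hΦ1, hΦ2⟩ :=
      exists_rational_model S hS' fun σ => (hZ σ).brody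
    obtain ⟨r', rfl⟩ : ∃ r'', r' = r'' + 1 := by
      refine ⟨r' - 1, ?_⟩
      have h1 : r' ≠ 0 := by
        rintro rfl
        apply hΦ0 (fun _ => 1)
        · intro h0
          exact one_ne_zero (congrFun h0 0)
        · funext i
          exact Fin.elim0 i
      omega
    refine finite_transfer Φ hΦ0 hΦ1 hS'2 hΦ2 ?_
    refine h02.2 ?_ r' S' hS'2 ?_
    · intro D hD L hL hσ
      exact h D hD L hL (hσ _ rfl)
    · intro σ hσ
      rw [Set.mem_singleton_iff] at hσ
      subst hσ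
      exact hS'1.kobayashi (pclosed_points hS'2 _)
  tfae_finish

end Pool.Agent.Lib.MP_627a61_nt
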