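import Pool.Agent.Lib.MP_627a61_nt.Sq.Stm

/-!
# Piece CONST: a curve whose coordinates have squares proportional to constants is constant
-/

open scoped LinearAlgebra.Projectivization Topology
open Filter MvPolynomial

namespace Pool.Agent.Lib.MP_627a61_nt

/-- a continuous function with locally constant square is locally constant -/
private lemma const_of_sq {r : ℂ → ℂ} {z : ℂ} (hr : ContinuousAt r z)
    (h : ∀ᶠ w in 𝓝 z, r w ^ 2 = r z ^ 2) : ∀ᶠ w in 𝓝 z, r w = r z := by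
  by_cases h0 : r z = 0
  · filter_upwards [h] with w hw
    rw [h0] at hw ⊢
    simpa using hw
  · have h1 : ∀ᶠ w in 𝓝 z, r w + r z ≠ 0 := by
      have hc : ContinuousAt (fun w => r w + r z) z := hr.add continuousAt_const
      refine hc.eventually_ne ?_
      rw [← two_mul]
      exact mul_ne_zero two_ne_zero h0
    filter_upwards [h, h1] with w hw hw1
    have h2 : (r w - r z) * (r w + r z) = 0 := by linear_combination hw
    exact sub_eq_zero.1 ((mul_eq_zero.1 h2).resolve_right hw1)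

theorem piece_CONST : S_CONST := by
  intro ι _ ψ hψ z₀ κ hfr
  obtain ⟨f, hf, hw⟩ := hψ z₀
  obtain ⟨hf0, -⟩ := hw.self_of_nhds
  have hfa : ∀ a, AnalyticAt ℂ (fun w => f w a) z₀ := fun a =>
    ((ContinuousLinearMap.proj (R := ℂ) (φ := fun _ : ι => ℂ) a).analyticAt (f z₀)).comp hf
  obtain ⟨j, hj⟩ : ∃ j, f z₀ j ≠ 0 := by
    by_contra h
    push Not at h
    exact hf0 (funext h)
  have hne : ∀ᶠ w in 𝓝 z₀, f w j ≠ 0 := (hfa j).continuousAt.eventually_ne hj
  have hw' : ∀ᶠ w in 𝓝[≠] z₀, ∃ h : f w ≠ 0, ψ w = Projectivization.mk ℂ (f w) h :=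
    hw.filter_mono nhdsWithin_le_nhds
  have hfr' : ∃ᶠ w in 𝓝[≠] z₀, ∃ t h : ℂ, t ≠ 0 ∧ ∀ i, (t * f w i) ^ 2 = κ i * h := by
    refine (hfr.and_eventually hw').mono ?_
    rintro w ⟨⟨h, h1⟩, h2, h3⟩
    obtain ⟨t, ht, hrep⟩ := exists_rep_eq h3
    refine ⟨t, h, ht, fun i => ?_⟩
    rw [← h1 i, hrep]
    rfl
  have hκ : κ j ≠ 0 := by
    have h1 := hfr'.and_eventually (hne.filter_mono nhdsWithin_le_nhds)
    obtain ⟨w, ⟨t, h, ht, h2⟩, h3⟩ := h1.exists
    intro h4
    have h5 := h2 j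
    rw [h4, zero_mul] at h5
    exact mul_ne_zero ht h3 (pow_eq_zero_iff two_ne_zero |>.1 h5)
  have hzero : ∀ i, ∀ᶠ w in 𝓝 z₀, κ j * f w i ^ 2 - κ i * f w j ^ 2 = 0 := by
    intro i
    have han : AnalyticAt ℂ (fun w => κ j * f w i ^ 2 - κ i * f w j ^ 2) z₀ :=
      (analyticAt_const.mul ((hfa i).pow 2)).sub (analyticAt_const.mul ((hfa j).pow 2))
    rw [← han.frequently_zero_iff_eventually_zero]
    refine hfr'.mono ?_
    rintro w ⟨t, h, ht, h1⟩
    have h2 : t ^ 2 * (κ j * f w i ^ 2 - κ i * f w j ^ 2) = 0 := by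
      linear_combination κ j * h1 i - κ i * h1 j
    exact (mul_eq_zero.1 h2).resolve_left (pow_ne_zero 2 ht)
  have hconst : ∀ i, ∀ᶠ w in 𝓝 z₀, f w i / f w j = f z₀ i / f z₀ j := by
    intro i
    have hr : ContinuousAt (fun w => f w i / f w j) z₀ :=
      (hfa i).continuousAt.div (hfa j).continuousAt hj
    refine const_of_sq hr ?_
    have h0 := (hzero i).self_of_nhds
    filter_upwards [hzero i, hne] with w h1 h2
    have h3 : (f w i / f w j) ^ 2 = κ i / κ j := by
      field_simp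
      linear_combination h1
    have h4 : (f z₀ i / f z₀ j) ^ 2 = κ i / κ j := by
      field_simp
      linear_combination h0
    rw [h3, h4]
  have hall : ∀ᶠ w in 𝓝 z₀, ∀ i, f w i / f w j = f z₀ i / f z₀ j := by
    rw [Filter.eventually_all]
    exact hconst
  have hev : ∀ᶠ w in 𝓝 z₀, ψ w = ψ z₀ := by
    obtain ⟨h5, h6⟩ := hw.self_of_nhds
    filter_upwards [hall, hw, hne] with w h1 h2 h3
    obtain ⟨h7, h8⟩ := h2
    rw [h8, h6, Projectivization.mk_eq_mk_iff']
    refine ⟨f w j / f z₀ j, ?_⟩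
    funext i
    have h9 := h1 i
    rw [div_eq_div_iff h3 hj] at h9
    simp only [Pi.smul_apply, smul_eq_mul]
    field_simp
    linear_combination -h9
  have hfin := eq_of_eventually_const hψ (p := ψ z₀) (z₀ := z₀)
    ((hev.filter_mono nhdsWithin_le_nhds).frequently)
  intro z w
  rw [hfin z, hfin w]

end Pool.Agent.Lib.MP_627a61_nt
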