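import Pool.Agent.Lib.MP_627a61_nt.Sq.Stm

/-!
# Piece GOOD
-/

open scoped LinearAlgebra.Projectivization Topology
open Filter MvPolynomial

namespace Pool.Agent.Lib.MP_627a61_nt

/-- linearly independent functions have points with nonzero determinant -/
private theorem good_points {k X : Type*} [Field k] {n : ℕ} (f : Fin n → X → k)
    (hf : ∀ u : Fin n → k, (∀ x, ∑ j, u j * f j x = 0) → u = 0) :
    ∃ h : Fin n → X, Matrix.det (Matrix.of fun i j => f j (h i)) ≠ 0 := by
  classical
  set R : Set (Fin n → k) := Set.range fun x : X => fun j => f j x with hR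
  have hspan : Submodule.span k R = ⊤ := by
    by_contra hne
    obtain ⟨φ, hφ, hφ'⟩ := Submodule.exists_dual_map_eq_bot_of_lt_top (lt_top_iff_ne_top.2 hne)
      inferInstance
    apply hφ
    have key := hf (fun j => φ (Pi.single j 1)) (fun x => by
      have h1 : φ (fun j => f j x) = 0 := by
        have : φ (fun j => f j x) ∈ (Submodule.span k R).map φ :=
          Submodule.mem_map_of_mem (Submodule.subset_span ⟨x, rfl⟩)
        rw [hφ'] at this
        exact (Submodule.mem_bot k).1 this
      have h2 : (fun j => f j x) = ∑ j, f j x • (Pi.single j 1 : Fin n → k) := by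
        ext i
        simp [Finset.sum_apply, Pi.single_apply]
      rw [h2, map_sum] at h1
      rw [← h1]
      refine Finset.sum_congr rfl fun j _ => ?_
      simp [mul_comm])
    refine LinearMap.pi_ext' fun i => ?_
    refine LinearMap.ext_ring ?_
    have := congrFun key i
    simpa using this
  obtain ⟨b, hbR, hbs, hbi⟩ := exists_linearIndependent k R
  rw [hspan] at hbs
  let B : Module.Basis b k (Fin n → k) := Module.Basis.mk hbi (by
    rw [Subtype.range_coe]; exact hbs.ge)
  have hfin : Finite b := Module.Finite.finite_basis B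
  haveI : Fintype b := Fintype.ofFinite b
  have hcard : Fintype.card b = Fintype.card (Fin n) := by
    rw [← Module.finrank_eq_card_basis B, Module.finrank_fintype_fun_eq_card]
  let e : Fin n ≃ b := (Fintype.equivOfCardEq hcard).symm
  have hx : ∀ i : Fin n, ∃ x : X, (fun j => f j x) = ((e i : b) : Fin n → k) := fun i =>
    hbR (e i).2
  choose h hh using hx
  refine ⟨h, ?_⟩
  have hli : LinearIndependent k (Matrix.of fun i j => f j (h i)).row := by
    have h1 : (Matrix.of fun i j => f j (h i)).row = fun i => ((e i : b) : Fin n → k) := by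
      funext i
      rw [← hh i]
      rfl
    rw [h1]
    exact hbi.comp e e.injective
  rw [Matrix.linearIndependent_rows_iff_isUnit, Matrix.isUnit_iff_isUnit_det] at hli
  exact hli.ne_zero

private theorem qv_sum {ν k : Type*} [Fintype ν] [Field k] {n : ℕ} (u : Fin n → k)
    (b : Fin n → ν → ν → k) (v : ν → k) :
    ∑ j, u j * qv (b j) v = qv (fun p q => ∑ j, u j * b j p q) v := by
  simp only [qv, Finset.mul_sum]
  rw [Finset.sum_comm]
  refine Finset.sum_congr rfl fun p _ => ?_
  rw [Finset.sum_comm]
  refine Finset.sum_congr rfl fun q _ => ?_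
  refine Finset.sum_congr rfl fun j _ => ?_
  ring

private theorem qv_zero {ν k : Type*} [Fintype ν] [DecidableEq ν] [Field k] [CharZero k]
    (φ : ν → ν → k) (hs : ∀ p q, φ p q = φ q p) (h : ∀ v, qv φ v = 0) : ∀ p q, φ p q = 0 := by
  have hb : ∀ v w, qv φ (v + w) = qv φ v + 2 * bv φ v w + qv φ w := by
    intro v w
    have h1 : bv φ v w = bv φ w v := by
      unfold bv
      rw [Finset.sum_comm]
      refine Finset.sum_congr rfl fun p _ => Finset.sum_congr rfl fun q _ => ?_
      rw [hs q p]; ring
    have h2 : qv φ (v + w) = qv φ v + bv φ v w + bv φ w v + qv φ w := by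
      simp only [qv, bv, Pi.add_apply, ← Finset.sum_add_distrib]
      refine Finset.sum_congr rfl fun p _ => Finset.sum_congr rfl fun q _ => ?_
      ring
    rw [h2, ← h1]; ring
  intro p q
  have h1 := hb (Pi.single p 1) (Pi.single q 1)
  rw [h, h, h] at h1
  have h2 : bv φ (Pi.single p 1) (Pi.single q 1) = φ p q := by
    unfold bv
    rw [Finset.sum_eq_single p, Finset.sum_eq_single q]
    · simp
    · intro j _ hj; simp [Pi.single_eq_of_ne hj]
    · intro hq; exact absurd (Finset.mem_univ q) hq
    · intro i _ hi; simp [Pi.single_eq_of_ne hi]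
    · intro hq; exact absurd (Finset.mem_univ p) hq
  rw [h2] at h1
  have h3 : (2 : k) * φ p q = 0 := by linear_combination -h1
  simpa using h3

theorem piece_GOOD : S_GOOD := by
  intro k _ _ ν _ D M b hb hs
  classical
  obtain ⟨h, hh⟩ := good_points (fun j v => qv (b j) v) (fun u hu => by
    have h0 : ∀ v, qv (fun p q => ∑ j, u j * b j p q) v = 0 := fun v => by
      rw [← qv_sum]; exact hu v
    have h1 := qv_zero _ (fun p q => Finset.sum_congr rfl fun j _ => by rw [hs j p q]) h0
    rw [Fintype.linearIndependent_iff] at hb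
    funext j
    refine hb u ?_ j
    funext p q
    have := h1 p q
    simpa [Finset.sum_apply] using this)
  -- the polynomial of `c`
  let P : (Fin (D + 1) → Fin M) → MvPolynomial (Fin M × ν) k := fun c =>
    Matrix.det (Matrix.of fun i j : Fin (D + 1) =>
      ∑ p, ∑ q, X (c i, p) * X (c i, q) * C (b j p q))
  have hP : ∀ (c : Fin (D + 1) → Fin M) (lam : Fin M → ν → k),
      eval (fun x => lam x.1 x.2) (P c) =
        Matrix.det (Matrix.of fun i j => Lmat b lam (c i) j) := by
    intro c lam
    change (eval (fun x : Fin M × ν => lam x.1 x.2)) (Matrix.det _) = _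
    rw [RingHom.map_det]
    congr 1
    ext i j
    simp [Lmat, qv, RingHom.mapMatrix_apply]
  have hne : ∀ c, Function.Injective c → P c ≠ 0 := by
    intro c hc h0
    apply hh
    have h1 := hP c (fun l => if hl : ∃ i, c i = l then h hl.choose else 0)
    rw [h0, map_zero] at h1
    rw [h1]
    congr 1
    ext i j
    have h2 : ∃ i', c i' = c i := ⟨i, rfl⟩
    have h3 : h2.choose = i := hc h2.choose_spec
    simp only [Matrix.of_apply, Lmat]
    rw [dif_pos h2, h3]
  have hprod : (∏ c ∈ Finset.univ.filter (fun c : Fin (D + 1) → Fin M => Function.Injective c),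
      P c) ≠ 0 := by
    rw [Finset.prod_ne_zero_iff]
    intro c hc
    exact hne c (Finset.mem_filter.1 hc).2
  obtain ⟨x, hx⟩ : ∃ x : Fin M × ν → k, eval x (∏ c ∈ Finset.univ.filter
      (fun c : Fin (D + 1) → Fin M => Function.Injective c), P c) ≠ 0 := by
    by_contra hcon
    push Not at hcon
    exact hprod (MvPolynomial.funext fun x => by rw [hcon x, map_zero])
  refine ⟨fun l p => x (l, p), fun c hc => ?_⟩
  rw [map_prod, Finset.prod_ne_zero_iff] at hx
  have h1 := hx c (Finset.mem_filter.2 ⟨Finset.mem_univ _, hc⟩)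
  have h2 := hP c (fun l p => x (l, p))
  rw [← h2]
  exact h1

end Pool.Agent.Lib.MP_627a61_nt
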