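import Pool.Agent.Lib.MP_627a61_nt.Sq.Stm

/-!
# Piece INJ
-/

open scoped LinearAlgebra.Projectivization Topology
open Filter MvPolynomial

namespace Pool.Agent.Lib.MP_627a61_nt

private lemma inj_gv0 {ν : Type*} [DecidableEq ν] (R : Type*) [Ring R] (j : ν) :
    gv R (j, (j, j, 0), (j, j, 0), 0, 0) = Pi.single j 1 := by
  funext a
  simp [gv, ev, Pi.single_apply]

private lemma inj_gv1 {ν : Type*} [DecidableEq ν] (R : Type*) [Ring R] (j l : ν) :
    gv R (j, (l, l, 0), (j, j, 0), 1, 0) = Pi.single j 1 + Pi.single l 1 := by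
  funext a
  simp [gv, ev, Pi.single_apply]

private lemma inj_qv0 {ν R : Type*} [Fintype ν] [DecidableEq ν] [CommRing R] (φ : ν → ν → R)
    (j : ν) : qv φ (Pi.single j 1) = φ j j := by
  simp [qv, Pi.single_apply]

private lemma inj_qv1 {ν R : Type*} [Fintype ν] [DecidableEq ν] [CommRing R] (φ : ν → ν → R)
    (j l : ν) : qv φ (Pi.single j 1 + Pi.single l 1) = φ j j + φ j l + φ l j + φ l l := by
  simp [qv, Pi.single_apply, add_mul, mul_add, Finset.sum_add_distrib]
  ring

theorem piece_INJ : S_INJ := by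
  intro k _ _ ν I _ _ _ D b hb hsym lam hlam K _ σ u hu
  have hK : (2 : K) ≠ 0 := by
    have h := (map_ne_zero σ).2 (two_ne_zero : (2 : k) ≠ 0)
    rwa [map_ofNat] at h
  have h0 : ∀ g : GI ν, ∑ i, σ (qv (b i) (gv k g)) * u i = 0 := by
    intro g
    obtain ⟨l, hl⟩ := hlam g
    have := hu l
    simpa only [Lmat, hl] using this
  have h1 : ∀ j, ∑ i, σ (b i j j) * u i = 0 := by
    intro j
    have := h0 (j, (j, j, 0), (j, j, 0), 0, 0)
    simpa only [inj_gv0, inj_qv0] using this
  have h2 : ∀ j l, ∑ i, σ (b i j l) * u i = 0 := by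
    intro j l
    have h3 := h0 (j, (l, l, 0), (j, j, 0), 1, 0)
    simp only [inj_gv1, inj_qv1, map_add, add_mul, Finset.sum_add_distrib, h1, zero_add,
      add_zero] at h3
    have h4 : ∑ i, σ (b i l j) * u i = ∑ i, σ (b i j l) * u i :=
      Finset.sum_congr rfl fun i _ => by rw [hsym i l j]
    rw [h4, ← two_mul, mul_eq_zero] at h3
    exact h3.resolve_left hK
  have hinj : LinearMap.ker (Fintype.linearCombination k b) = ⊥ := by
    rw [LinearMap.ker_eq_bot']
    intro m hm
    funext i
    exact Fintype.linearIndependent_iff.1 hb m (by simpa [Fintype.linearCombination_apply] using hm) i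
  obtain ⟨P, hP⟩ := LinearMap.exists_leftInverse_of_injective _ hinj
  classical
  funext i'
  have h5 : ∀ i, P (b i) = Pi.single i 1 := by
    intro i
    have := congrArg (fun f => f (Pi.single i 1)) hP
    simpa [Fintype.linearCombination_apply_single] using this
  have h6 : ∀ φ : ν → ν → k, P φ i' = ∑ p, ∑ q, φ p q * P (Pi.single p (Pi.single q 1)) i' := by
    intro φ
    have h7 : φ = ∑ p, ∑ q, φ p q • (Pi.single p (Pi.single q 1) : ν → ν → k) := by
      funext p q
      rw [Finset.sum_apply, Finset.sum_apply, Finset.sum_eq_single p]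
      · rw [Finset.sum_apply, Finset.sum_apply, Finset.sum_eq_single q]
        · simp
        · intro q' _ hq
          simp [hq.symm]
        · intro h
          exact absurd (Finset.mem_univ _) h
      · intro p' _ hp
        rw [Finset.sum_apply, Finset.sum_apply]
        refine Finset.sum_eq_zero fun q' _ => ?_
        simp [hp.symm]
      · intro h
        exact absurd (Finset.mem_univ _) h
    conv_lhs => rw [h7]
    simp [map_sum, Finset.sum_apply]
  have h8 : u i' = ∑ i, σ (P (b i) i') * u i := by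
    simp [h5, Pi.single_apply]
  obtain ⟨c, hc⟩ : ∃ c : ν → ν → k, ∀ φ : ν → ν → k, P φ i' = ∑ p, ∑ q, φ p q * c p q :=
    ⟨_, h6⟩
  have h9 : ∀ i, σ (P (b i) i') * u i = ∑ p, ∑ q, σ (c p q) * (σ (b i p q) * u i) := by
    intro i
    rw [hc, map_sum, Finset.sum_mul]
    refine Finset.sum_congr rfl fun p _ => ?_
    rw [map_sum, Finset.sum_mul]
    refine Finset.sum_congr rfl fun q _ => ?_
    rw [map_mul]
    ring
  rw [h8, Finset.sum_congr rfl fun i _ => h9 i, Finset.sum_comm]
  refine Finset.sum_eq_zero fun p _ => ?_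
  rw [Finset.sum_comm]
  refine Finset.sum_eq_zero fun q _ => ?_
  rw [← Finset.mul_sum, h2, mul_zero]

end Pool.Agent.Lib.MP_627a61_nt
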