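import Pool.Agent.Lib.MP_627a61_nt.Sq.Stm

/-!
# Piece KEY of SQUARES
-/

open scoped LinearAlgebra.Projectivization Topology
open Filter MvPolynomial

namespace Pool.Agent.Lib.MP_627a61_nt

/-- KEY, from S_KEYA, S_KEYDICH, S_CONST -/
theorem piece_KEY (hKEYA : S_KEYA) (hKEYDICH : S_KEYDICH) (hCONST : S_CONST) : S_KEY := by
  intro ν I _ _ _ Φ hΦ lam hlam hB ψ hψ hmem
  rcases hKEYDICH ν I Φ hΦ lam hlam ψ hψ hmem 0 with h | ⟨c, hc⟩
  · exact hKEYA ν I Φ hΦ lam hlam hB ψ hψ hmem 0 h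
  · apply hCONST I ψ hψ 0 (fun l => qv c (lam l))
    refine hc.mono ?_
    intro z hz
    obtain ⟨φ, hφ, hl⟩ := hmem z
    obtain ⟨h, hh⟩ := hz φ hφ hl
    refine ⟨h, fun l => ?_⟩
    rw [hl l]
    unfold qv
    rw [Finset.sum_mul]
    refine Finset.sum_congr rfl fun i _ => ?_
    rw [Finset.sum_mul]
    refine Finset.sum_congr rfl fun j _ => ?_
    rw [hh i j]; ring

end Pool.Agent.Lib.MP_627a61_nt
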