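import Pool.Agent.Lib.MP_627a61_nt.Sq.Stm

/-!
# SQUARES, piece KEYA: the case where all matrices along an entire curve have rank one
-/

open scoped LinearAlgebra.Projectivization Topology
open Filter MvPolynomial

namespace Pool.Agent.Lib.MP_627a61_nt

section

variable {ν : Type} [Fintype ν]

private lemma ka_qv_smul (t : ℂ) (φ : ν → ν → ℂ) (v : ν → ℂ) :
    qv (t • φ) v = t * qv φ v := by
  unfold qv
  rw [Finset.mul_sum]
  refine Finset.sum_congr rfl fun i _ => ?_
  rw [Finset.mul_sum]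
  refine Finset.sum_congr rfl fun j _ => ?_
  simp only [Pi.smul_apply, smul_eq_mul]
  ring

private lemma ka_bv_symm (φ : ν → ν → ℂ) (hφ : ∀ i j, φ i j = φ j i) (v w : ν → ℂ) :
    bv φ w v = bv φ v w := by
  unfold bv
  rw [Finset.sum_comm]
  refine Finset.sum_congr rfl fun i _ => Finset.sum_congr rfl fun j _ => ?_
  rw [hφ j i]
  ring

private lemma ka_qv_add (φ : ν → ν → ℂ) (hφ : ∀ i j, φ i j = φ j i) (p e : ν → ℂ) (t : ℂ) :
    qv φ (fun a => p a + t * e a) = qv φ p + 2 * t * bv φ p e + t ^ 2 * qv φ e := by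
  have h1 : qv φ (fun a => p a + t * e a) =
      qv φ p + t * bv φ p e + t * bv φ e p + t ^ 2 * qv φ e := by
    unfold qv bv
    rw [Finset.mul_sum, Finset.mul_sum, Finset.mul_sum, ← Finset.sum_add_distrib,
      ← Finset.sum_add_distrib, ← Finset.sum_add_distrib]
    refine Finset.sum_congr rfl fun i _ => ?_
    rw [Finset.mul_sum, Finset.mul_sum, Finset.mul_sum, ← Finset.sum_add_distrib,
      ← Finset.sum_add_distrib, ← Finset.sum_add_distrib]
    refine Finset.sum_congr rfl fun j _ => ?_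
    ring
  rw [h1, ka_bv_symm φ hφ p e]
  ring

variable [DecidableEq ν]

private lemma ka_bv_e (φ : ν → ν → ℂ) (j k : ν) :
    bv φ (fun a => if a = j then 1 else 0) (fun a => if a = k then 1 else 0) = φ j k := by
  simp [bv]

private lemma ka_qv_e (φ : ν → ν → ℂ) (j : ν) :
    qv φ (fun a => if a = j then 1 else 0) = φ j j := by
  simp [qv]

/-- index of the vector `e_j` -/
private def ka_d (j : ν) : GI ν := (j, (j, j, 0), (j, j, 0), 0, 0)

/-- index of the vector `e_j + e_k` -/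
private def ka_m (j k : ν) : GI ν := (j, (k, k, 0), (k, k, 0), 1, 0)

private lemma ka_gv_d (j : ν) : gv ℂ (ka_d j) = fun a => if a = j then 1 else 0 := by
  funext a
  by_cases h : a = j
  · simp [gv, ka_d, h]
  · simp [gv, ka_d, h]

private lemma ka_gv_m (j k : ν) : gv ℂ (ka_m j k) = fun a => (if a = j then 1 else 0) +
    1 * (if a = k then 1 else 0) := by
  funext a
  by_cases h : a = j <;> by_cases h' : a = k <;> simp [gv, ka_m, ev, h, h']

end

section

variable {ν I : Type} [Fintype ν] [DecidableEq ν]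

/-- the matrix given by the coordinates -/
private noncomputable def kaA (l : GI ν → I) (x : I → ℂ) (j k : ν) : ℂ :=
  (x (l (ka_m j k)) ^ 2 - x (l (ka_d j)) ^ 2 - x (l (ka_d k)) ^ 2) / 2

private lemma kaA_eq (l : GI ν → I) {lam : I → ν → ℂ} (hl : ∀ g, lam (l g) = gv ℂ g)
    (φ : ν → ν → ℂ) (hφ : ∀ i j, φ i j = φ j i) (x : I → ℂ)
    (hx : ∀ i, x i ^ 2 = qv φ (lam i)) : kaA l x = φ := by
  funext j k
  unfold kaA
  rw [hx, hx, hx, hl, hl, hl, ka_gv_d, ka_gv_d, ka_gv_m, ka_qv_add φ hφ, ka_qv_e, ka_qv_e,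
    ka_bv_e]
  ring

private lemma kaA_smul (l : GI ν → I) (t : ℂ) (x : I → ℂ) (j k : ν) :
    kaA l (t • x) j k = t ^ 2 * kaA l x j k := by
  unfold kaA
  simp only [Pi.smul_apply, smul_eq_mul]
  ring

private lemma ka_diag (l : GI ν → I) {lam : I → ν → ℂ} (hl : ∀ g, lam (l g) = gv ℂ g)
    (φ : ν → ν → ℂ) (x : I → ℂ) (hx : ∀ i, x i ^ 2 = qv φ (lam i)) (j : ν) :
    φ j j = x (l (ka_d j)) ^ 2 := by
  rw [hx, hl, ka_gv_d, ka_qv_e]

end

private lemma ka_sq_smul {ν : Type} (t : ℂ) (x : ν → ℂ) : sq (t • x) = t ^ 2 • sq x := by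
  funext i j
  simp only [sq, Pi.smul_apply, smul_eq_mul]
  ring

/-- a product of two analytic functions which vanishes near a point: one factor vanishes -/
private lemma ka_mul_zero {a b : ℂ → ℂ} {z : ℂ} (ha : AnalyticAt ℂ a z)
    (h : ∀ᶠ w in 𝓝[≠] z, a w * b w = 0) :
    (∀ᶠ w in 𝓝[≠] z, a w = 0) ∨ (∀ᶠ w in 𝓝[≠] z, b w = 0) := by
  rcases ha.eventually_eq_zero_or_eventually_ne_zero with h1 | h1
  · exact Or.inl (h1.filter_mono nhdsWithin_le_nhds)
  · right
    filter_upwards [h, h1] with w h2 h3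
    exact (mul_eq_zero.1 h2).resolve_left h3

/-- KEYA -/
theorem piece_KEYA (hCONST : S_CONST) : S_KEYA := by
  intro ν I _ _ _ Φ hΦ lam hlam hB ψ hψ hval z₀ hrk
  choose l hl using hlam
  obtain ⟨f, hf, hw⟩ := hψ z₀
  have hfa : ∀ a, AnalyticAt ℂ (fun w => f w a) z₀ := fun a =>
    ((ContinuousLinearMap.proj (R := ℂ) (φ := fun _ : I => ℂ) a).analyticAt (f z₀)).comp hf
  -- the matrix of the local lift
  have hmat : ∀ᶠ w in 𝓝[≠] z₀, f w ≠ 0 ∧ (∃ t : ℂ, t ≠ 0 ∧ (ψ w).rep = t • f w) ∧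
      (∀ i, f w i ^ 2 = qv (kaA l (f w)) (lam i)) ∧
      ∀ i j k, kaA l (f w) i i * kaA l (f w) j k = kaA l (f w) i j * kaA l (f w) i k := by
    filter_upwards [hw.filter_mono nhdsWithin_le_nhds, hrk] with w h1 h2
    obtain ⟨h3, h4⟩ := h1
    obtain ⟨t, ht, hrep⟩ := exists_rep_eq h4
    obtain ⟨φ, hφ, hq⟩ := hval w
    have h5 := kaA_eq l hl φ (hΦ φ hφ) _ hq
    have h6 : ∀ j k, φ j k = t ^ 2 * kaA l (f w) j k := by
      intro j k
      rw [← h5, hrep, kaA_smul]
    have h7 : φ = t ^ 2 • kaA l (f w) := by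
      funext j k
      exact h6 j k
    have ht2 : t ^ 2 ≠ 0 := pow_ne_zero _ ht
    refine ⟨h3, ⟨t, ht, hrep⟩, ?_, ?_⟩
    · intro i
      have h8 := hq i
      rw [hrep, h7, ka_qv_smul, Pi.smul_apply, smul_eq_mul, mul_pow] at h8
      exact mul_left_cancel₀ ht2 h8
    · intro i j k
      have h8 := h2 φ hφ hq i j k
      rw [h6, h6, h6, h6] at h8
      apply mul_left_cancel₀ (mul_ne_zero ht2 ht2)
      linear_combination h8
  -- the coordinate functions
  obtain ⟨x, hx⟩ : ∃ x : ν → ℂ → ℂ, x = fun j w => f w (l (ka_d j)) := ⟨_, rfl⟩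
  have hxan : ∀ j, AnalyticAt ℂ (x j) z₀ := by
    intro j
    rw [hx]
    exact hfa _
  obtain ⟨F, hF⟩ : ∃ F : ν → ν → ℂ → ℂ, F = fun j k w => kaA l (f w) j k := ⟨_, rfl⟩
  have hFan : ∀ j k, AnalyticAt ℂ (F j k) z₀ := by
    intro j k
    rw [hF]
    unfold kaA
    exact ((((hfa _).pow 2).sub ((hfa _).pow 2)).sub ((hfa _).pow 2)).div analyticAt_const
      two_ne_zero
  have hFx : ∀ᶠ w in 𝓝[≠] z₀, ∀ j, F j j w = x j w ^ 2 := by
    filter_upwards [hmat] with w h1 j
    rw [hF, hx]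
    exact ka_diag l hl _ _ h1.2.2.1 j
  have hFF : ∀ᶠ w in 𝓝[≠] z₀, ∀ i j k, F i i w * F j k w = F i j w * F i k w := by
    filter_upwards [hmat] with w h1 i j k
    rw [hF]
    exact h1.2.2.2 i j k
  -- a nonzero diagonal entry
  obtain ⟨i, hi⟩ : ∃ i, ∀ᶠ w in 𝓝[≠] z₀, x i w ≠ 0 := by
    by_contra hcon
    push Not at hcon
    have h1 : ∀ j, ∀ᶠ w in 𝓝[≠] z₀, x j w = 0 := by
      intro j
      rcases (hxan j).eventually_eq_zero_or_eventually_ne_zero with h2 | h2
      · exact h2.filter_mono nhdsWithin_le_nhds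
      · exact absurd h2 (hcon j)
    have h2 : ∀ᶠ w in 𝓝[≠] z₀, ∀ j, x j w = 0 := Filter.eventually_all.2 h1
    obtain ⟨w, h3, h4, h5, h6⟩ := (hmat.and (h2.and (hFx.and hFF))).exists
    have h7 : kaA l (f w) = 0 := by
      funext j k
      have h8 := h6 j k k
      rw [h5 j, h5 k, h4 j, h4 k] at h8
      have h9 : F j k w = 0 := by
        have : F j k w * F j k w = 0 := by rw [← h8]; ring
        exact mul_self_eq_zero.1 this
      rw [hF] at h9
      exact h9
    apply h3.1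
    funext a
    have h8 := h3.2.2.1 a
    rw [h7] at h8
    have h9 : qv (0 : ν → ν → ℂ) (lam a) = 0 := by simp [qv]
    rw [h9] at h8
    exact pow_eq_zero_iff (two_ne_zero) |>.1 h8
  -- the signs
  have hsign : ∀ j, ∃ e : ℂ, e ^ 2 = 1 ∧ ∀ᶠ w in 𝓝[≠] z₀, F i j w = e * (x i w * x j w) := by
    intro j
    have h1 : ∀ᶠ w in 𝓝[≠] z₀, (F i j w - x i w * x j w) * (F i j w + x i w * x j w) = 0 := by
      filter_upwards [hFx, hFF] with w h2 h3
      have h4 := h3 i j j
      rw [h2 i, h2 j] at h4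
      linear_combination -h4
    rcases ka_mul_zero (b := fun w => F i j w + x i w * x j w)
      ((hFan i j).sub ((hxan i).mul (hxan j))) h1 with h2 | h2
    · refine ⟨1, by norm_num, ?_⟩
      filter_upwards [h2] with w h3
      have h4 : F i j w - x i w * x j w = 0 := h3
      linear_combination h4
    · refine ⟨-1, by norm_num, ?_⟩
      filter_upwards [h2] with w h3
      have h4 : F i j w + x i w * x j w = 0 := h3
      linear_combination h4
  choose e he hFe using hsign
  -- the matrix is a square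
  have hsq : ∀ᶠ w in 𝓝[≠] z₀, ∀ j k, F j k w = (e j * x j w) * (e k * x k w) := by
    have h1 : ∀ᶠ w in 𝓝[≠] z₀, ∀ j, F i j w = e j * (x i w * x j w) :=
      Filter.eventually_all.2 hFe
    filter_upwards [h1, hi, hFx, hFF] with w h2 h3 h4 h5 j k
    have h6 := h5 i j k
    rw [h4 i, h2 j, h2 k] at h6
    apply mul_left_cancel₀ (pow_ne_zero 2 h3)
    linear_combination h6
  -- the map to `sqSet Φ`
  obtain ⟨G, hG⟩ : ∃ G : (I → ℂ) → (ν → ℂ), G = fun y j => e j * y (l (ka_d j)) := ⟨_, rfl⟩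
  have hGan : ∀ y, AnalyticAt ℂ G y := by
    intro y
    have : G = fun y j =>
      e j * (ContinuousLinearMap.proj (R := ℂ) (φ := fun _ : I => ℂ) (l (ka_d j))) y := by
      rw [hG]; rfl
    rw [this]
    exact AnalyticAt.pi fun j => analyticAt_const.mul (ContinuousLinearMap.analyticAt _ y)
  have hGhom : ∀ (t : ℂ) y, G (t • y) = t • G y := by
    intro t y
    rw [hG]
    funext j
    simp only [Pi.smul_apply, smul_eq_mul]
    ring
  -- the difference of the two matrices vanishes on the whole curve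
  have hH : ∀ z j k, G (ψ z).rep j * G (ψ z).rep k = kaA l (ψ z).rep j k := by
    by_contra hcon
    push Not at hcon
    obtain ⟨z₁, j, k, h1⟩ := hcon
    have h2 := exists_division (κ := Unit) hψ
      (fun y _ => G y j * G y k - kaA l y j k) (fun y => by
        apply AnalyticAt.pi
        intro _
        have hj : ∀ j, AnalyticAt ℂ (fun y => G y j) y := fun j =>
          ((ContinuousLinearMap.proj (R := ℂ) (φ := fun _ : ν => ℂ) j).analyticAt (G y)).comp
            (hGan y)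
        have hp : ∀ a, AnalyticAt ℂ (fun y : I → ℂ => y a) y := fun a =>
          (ContinuousLinearMap.proj (R := ℂ) (φ := fun _ : I => ℂ) a).analyticAt y
        unfold kaA
        exact ((hj j).mul (hj k)).sub (((((hp _).pow 2).sub ((hp _).pow 2)).sub
          ((hp _).pow 2)).div analyticAt_const two_ne_zero)) 2 (fun t y => by
        funext _
        simp only [hGhom, kaA_smul, Pi.smul_apply, smul_eq_mul]
        ring) (z₀ := z₁) (fun h => h1 (sub_eq_zero.1 (congrFun h ())))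
    obtain ⟨-, -, -, h3⟩ := h2
    obtain ⟨w, h4, h5, h6⟩ := ((h3 z₀).and (hmat.and hsq)).exists
    apply h4
    funext _
    obtain ⟨t, ht, hrep⟩ := h5.2.1
    have h7 := h6 j k
    rw [hF, hx] at h7
    simp only [hrep, kaA_smul, Pi.smul_apply, smul_eq_mul, Pi.zero_apply, hG]
    linear_combination (-t ^ 2) * h7
  have hsqG : ∀ z, sq (G (ψ z).rep) ∈ Φ := by
    intro z
    obtain ⟨φ, hφ, hq⟩ := hval z
    have h1 : sq (G (ψ z).rep) = φ := by
      rw [← kaA_eq l hl φ (hΦ φ hφ) _ hq]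
      funext j k
      exact hH z j k
    rw [h1]
    exact hφ
  -- a point where the map is defined
  have hne : ∀ᶠ w in 𝓝[≠] z₀, G (ψ w).rep ≠ 0 := by
    filter_upwards [hi, hmat] with w h1 h2 h3
    obtain ⟨t, ht, hrep⟩ := h2.2.1
    have h4 := congrFun h3 i
    rw [hrep, hGhom, Pi.smul_apply, smul_eq_mul, Pi.zero_apply, hG] at h4
    rcases mul_eq_zero.1 h4 with h5 | h5
    · exact ht h5
    · rcases mul_eq_zero.1 h5 with h6 | h6
      · have := he i
        rw [h6] at this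
        norm_num at this
      · apply h1
        rw [hx]
        exact h6
  obtain ⟨z₁, hz₁⟩ := hne.exists
  obtain ⟨χ, hχ, hχval, hχne⟩ := exists_division hψ G hGan 1 (fun t y => by
    rw [pow_one]; exact hGhom t y) hz₁
  have hχsq : ∀ z, χ z ∈ sqSet Φ := by
    intro z
    show sq (χ z).rep ∈ Φ
    rw [← Subspace.forall_mem_dualAnnihilator_apply_eq_zero_iff]
    intro L hL
    refine HolomorphicAt.zero_of_punctured (hχ z) (fun y => L (sq y)) ?_ ?_ ?_
    · have h1 : Continuous L := LinearMap.continuous_of_finiteDimensional L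
      apply h1.comp
      unfold sq
      fun_prop
    · intro t y ht
      show L (sq (t • y)) = 0 ↔ L (sq y) = 0
      rw [ka_sq_smul, map_smul, smul_eq_mul]
      constructor
      · intro h
        exact (mul_eq_zero.1 h).resolve_left (pow_ne_zero _ ht)
      · intro h
        rw [h, mul_zero]
    · filter_upwards [hχne z] with w h1
      obtain ⟨t, ht, hrep⟩ := exists_rep_eq (hχval w h1)
      show L (sq (χ w).rep) = 0
      rw [hrep, ka_sq_smul, map_smul, (Submodule.mem_dualAnnihilator L).1 hL _ (hsqG w),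
        smul_zero]
  have hconst := hB χ hχ hχsq
  -- conclusion
  refine hCONST I ψ hψ z₀ (fun a => qv (sq (χ z₀).rep) (lam a)) ?_
  apply Filter.Eventually.frequently
  filter_upwards [hne] with w h1
  obtain ⟨t, ht, hrep⟩ := exists_rep_eq (hχval w h1)
  rw [hconst w z₀] at hrep
  have h2 : G (ψ w).rep = t⁻¹ • (χ z₀).rep := by
    rw [hrep, smul_smul, inv_mul_cancel₀ ht, one_smul]
  obtain ⟨φ, hφ, hq⟩ := hval w
  have h3 : φ = t⁻¹ ^ 2 • sq (χ z₀).rep := by
    rw [← ka_sq_smul, ← h2, ← kaA_eq l hl φ (hΦ φ hφ) _ hq]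
    funext j k
    exact (hH w j k).symm
  refine ⟨t⁻¹ ^ 2, fun a => ?_⟩
  rw [hq a, h3, ka_qv_smul]
  ring

end Pool.Agent.Lib.MP_627a61_nt
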