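import Pool.Agent.Lib.MP_627a61_nt.Sq.Stm

/-!
# Piece KEYALG of SQUARES
-/

open scoped LinearAlgebra.Projectivization Topology
open Filter MvPolynomial

namespace Pool.Agent.Lib.MP_627a61_nt

section KEYALG

variable {ν K : Type} [Fintype ν] [Field K]

private theorem ka_add_left (φ : ν → ν → K) (x y w : ν → K) (s : K) :
    bv φ (fun a => x a + s * y a) w = bv φ x w + s * bv φ y w := by
  simp only [bv, Finset.mul_sum, ← Finset.sum_add_distrib]
  refine Finset.sum_congr rfl fun i _ => Finset.sum_congr rfl fun j _ => ?_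
  ring

private theorem ka_add_right (φ : ν → ν → K) (x y w : ν → K) (s : K) :
    bv φ w (fun a => x a + s * y a) = bv φ w x + s * bv φ w y := by
  simp only [bv, Finset.mul_sum, ← Finset.sum_add_distrib]
  refine Finset.sum_congr rfl fun i _ => Finset.sum_congr rfl fun j _ => ?_
  ring

private theorem ka_symm (φ : ν → ν → K) (hφ : ∀ i j, φ i j = φ j i) (x y : ν → K) :
    bv φ x y = bv φ y x := by
  unfold bv
  rw [Finset.sum_comm]
  refine Finset.sum_congr rfl fun i _ => Finset.sum_congr rfl fun j _ => ?_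
  rw [hφ j i]
  ring

private theorem ka_qv (φ : ν → ν → K) (x : ν → K) : qv φ x = bv φ x x := rfl

private theorem ka_qv_add (φ : ν → ν → K) (hφ : ∀ i j, φ i j = φ j i) (x y : ν → K) (s : K) :
    qv φ (fun a => x a + s * y a) = qv φ x + 2 * s * bv φ x y + s ^ 2 * qv φ y := by
  rw [ka_qv, ka_add_left, ka_add_right, ka_add_right, ka_symm φ hφ y x, ka_qv, ka_qv]
  ring

variable [DecidableEq ν]

/-- the basis vector -/
private def ke (K : Type) [Field K] (i : ν) : ν → K := fun a => if a = i then 1 else 0

private theorem ka_ee (φ : ν → ν → K) (i j : ν) : bv φ (ke K i) (ke K j) = φ i j := by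
  unfold bv ke
  rw [Finset.sum_eq_single i]
  · rw [Finset.sum_eq_single j]
    · simp
    · intro b _ hb
      simp [hb]
    · intro h
      exact absurd (Finset.mem_univ _) h
  · intro b _ hb
    simp [hb]
  · intro h
    exact absurd (Finset.mem_univ _) h

private theorem ka_ev (v : EI ν) :
    ev K v = fun a => ke K v.1 a + ((v.2.2 : ℕ) : K) * ke K v.2.1 a := rfl

private theorem ka_pv (i : ν) (v : EI ν) (s : Fin 5) :
    pv K i v s = fun a => ke K i a + ((s : ℕ) : K) * ev K v a := rfl

/-- a quadratic polynomial -/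
private noncomputable def kq (a b c : K) : Polynomial K :=
  Polynomial.C a + Polynomial.C b * Polynomial.X + Polynomial.C c * Polynomial.X ^ 2

private theorem kq_eval (a b c x : K) : (kq a b c).eval x = a + b * x + c * x ^ 2 := by
  simp [kq]

private theorem kq_deg (a b c : K) : (kq a b c).natDegree ≤ 2 := by
  unfold kq
  compute_degree

private theorem kq_zero {a b c : K} (h : kq a b c = 0) : a = 0 ∧ b = 0 ∧ c = 0 := by
  refine ⟨?_, ?_, ?_⟩
  · have := congrArg (fun p => Polynomial.coeff p 0) h
    simpa [kq] using this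
  · have := congrArg (fun p => Polynomial.coeff p 1) h
    simpa [kq, Polynomial.coeff_X, Polynomial.coeff_C] using this
  · have := congrArg (fun p => Polynomial.coeff p 2) h
    simpa [kq, Polynomial.coeff_X, Polynomial.coeff_C] using this

/-- two quadratic polynomials whose product vanishes at `0, ..., 4` -/
private theorem kq_prod [CharZero K] {a b c a' b' c' : K}
    (h : ∀ s : Fin 5, (a + b * ((s : ℕ) : K) + c * ((s : ℕ) : K) ^ 2) *
      (a' + b' * ((s : ℕ) : K) + c' * ((s : ℕ) : K) ^ 2) = 0) :
    (a = 0 ∧ b = 0 ∧ c = 0) ∨ (a' = 0 ∧ b' = 0 ∧ c' = 0) := by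
  have hinj : Function.Injective (fun s : Fin 5 => ((s : ℕ) : K)) := by
    intro s t hst
    exact Fin.ext (Nat.cast_injective hst)
  have h1 : kq a b c * kq a' b' c' = 0 := by
    refine Polynomial.eq_zero_of_natDegree_lt_card_of_eval_eq_zero _ hinj (fun s => ?_) ?_
    · rw [Polynomial.eval_mul, kq_eval, kq_eval]
      exact h s
    · rw [Fintype.card_fin]
      calc (kq a b c * kq a' b' c').natDegree ≤ (kq a b c).natDegree + (kq a' b' c').natDegree :=
            Polynomial.natDegree_mul_le
        _ ≤ 2 + 2 := Nat.add_le_add (kq_deg _ _ _) (kq_deg _ _ _)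
        _ < 5 := by norm_num
  rcases mul_eq_zero.1 h1 with h2 | h2
  · exact Or.inl (kq_zero h2)
  · exact Or.inr (kq_zero h2)

end KEYALG

/-- **Piece KEYALG.** -/
theorem piece_KEYALG : S_KEYALG := by
  intro C K _ _ _ ι ν _ _ φ hφ H
  have hK : CharZero K := charZero_of_injective_ringHom ι.injective
  have h2 : (2 : K) ≠ 0 := two_ne_zero
  by_cases hdeg : ∀ (i : ν) (v : EI ν), bv φ (ke K i) (ev K v) ^ 2 = φ i i * qv φ (ev K v)
  · left
    intro i j k
    have e1 := hdeg i (j, j, 0)
    have e2 := hdeg i (k, k, 0)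
    have e3 := hdeg i (j, k, 1)
    have x0 : ∀ j : ν, ev K (j, j, (0 : Fin 2)) = fun a => ke K j a + 0 * ke K j a := by
      intro j
      rw [ka_ev]
      simp
    have x1 : ev K (j, k, (1 : Fin 2)) = fun a => ke K j a + 1 * ke K k a := by
      rw [ka_ev]
      simp
    rw [x0, ka_add_right, ka_qv_add φ hφ, ka_qv, ka_ee, ka_ee] at e1 e2
    rw [x1, ka_add_right, ka_qv_add φ hφ, ka_qv, ka_qv, ka_ee, ka_ee, ka_ee, ka_ee, ka_ee] at e3
    apply mul_left_cancel₀ h2
    linear_combination e1 + e2 - e3
  · right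
    push Not at hdeg
    obtain ⟨i, v, hiv⟩ := hdeg
    have hp0 : ∀ v : EI ν, pv K i v 0 = ke K i := by
      intro v
      rw [ka_pv]
      funext a
      simp
    obtain h0 | ⟨h, α, β, γ, hα, hβ, hγ⟩ := H i v v 0
    · rw [hp0, ka_qv φ (ke K i), ka_ee] at h0
      exact absurd h0 hiv
    rw [hp0, ka_qv, ka_ee] at hα
    rw [hp0] at hβ
    rw [hβ, hα, hγ] at hiv
    have hh : h ≠ 0 := by
      intro h0
      apply hiv
      rw [h0]
      ring
    have hdisc : β ^ 2 - α * γ ≠ 0 := by
      intro h0
      apply hiv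
      have : ι (β ^ 2 - α * γ) = 0 := by rw [h0, map_zero]
      rw [map_sub, map_pow, map_mul] at this
      linear_combination h ^ 2 * this
    have hQ : ∀ s : Fin 5, qv φ (pv K i v s) =
        ι (α + 2 * β * ((s : ℕ) : C) + γ * ((s : ℕ) : C) ^ 2) * h := by
      intro s
      rw [ka_pv, ka_qv_add φ hφ, ka_qv φ (ke K i), ka_ee, hα, hβ, hγ]
      simp only [map_add, map_mul, map_pow, map_natCast, map_ofNat]
      ring
    have hmain : ∀ w : EI ν, ∃ c : C, qv φ (ev K w) = ι c * h := by
      intro w
      by_cases hcon : ∃ (s : Fin 5) (κ : K) (α' β' γ' : C),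
          α + 2 * β * ((s : ℕ) : C) + γ * ((s : ℕ) : C) ^ 2 ≠ 0 ∧
          qv φ (pv K i v s) = ι α' * κ ∧ bv φ (pv K i v s) (ev K w) = ι β' * κ ∧
          qv φ (ev K w) = ι γ' * κ
      · obtain ⟨s, κ, α', β', γ', hs, e1, -, e3⟩ := hcon
        rw [hQ] at e1
        have hα' : α' ≠ 0 := by
          intro h0
          rw [h0, map_zero, zero_mul] at e1
          rcases mul_eq_zero.1 e1 with h3 | h3
          · exact hs ((map_eq_zero ι).1 h3)
          · exact hh h3
        have hια : ι α' ≠ 0 := (map_ne_zero ι).2 hα'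
        generalize α + 2 * β * ((s : ℕ) : C) + γ * ((s : ℕ) : C) ^ 2 = q at hs e1
        refine ⟨γ' * q / α', ?_⟩
        have hκ : κ = ι q * h / ι α' := by
          rw [eq_div_iff hια, e1]
          ring
        rw [e3, hκ, map_div₀, map_mul]
        ring
      · have hR : ∀ s : Fin 5, (ι α + 2 * ι β * ((s : ℕ) : K) + ι γ * ((s : ℕ) : K) ^ 2) *
            ((bv φ (ke K i) (ev K w) ^ 2 - ι α * h * qv φ (ev K w)) +
              (2 * (bv φ (ke K i) (ev K w) * bv φ (ev K v) (ev K w)) -
                2 * ι β * h * qv φ (ev K w)) * ((s : ℕ) : K) +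
              (bv φ (ev K v) (ev K w) ^ 2 - ι γ * h * qv φ (ev K w)) * ((s : ℕ) : K) ^ 2) = 0 := by
          intro s
          by_cases hs : α + 2 * β * ((s : ℕ) : C) + γ * ((s : ℕ) : C) ^ 2 = 0
          · have h3 : ι (α + 2 * β * ((s : ℕ) : C) + γ * ((s : ℕ) : C) ^ 2) = 0 := by
              rw [hs, map_zero]
            simp only [map_add, map_mul, map_pow, map_natCast, map_ofNat] at h3
            rw [h3, zero_mul]
          · rcases H i v w s with h4 | ⟨κ, α', β', γ', g1, g2, g3⟩
            · rw [hQ] at h4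
              rw [ka_pv, ka_add_left] at h4
              simp only [map_add, map_mul, map_pow, map_natCast, map_ofNat] at h4
              have h5 : ((bv φ (ke K i) (ev K w) ^ 2 - ι α * h * qv φ (ev K w)) +
                (2 * (bv φ (ke K i) (ev K w) * bv φ (ev K v) (ev K w)) -
                  2 * ι β * h * qv φ (ev K w)) * ((s : ℕ) : K) +
                (bv φ (ev K v) (ev K w) ^ 2 - ι γ * h * qv φ (ev K w)) *
                  ((s : ℕ) : K) ^ 2) = 0 := by
                linear_combination h4
              rw [h5, mul_zero]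
            · exact absurd ⟨s, κ, α', β', γ', hs, g1, g2, g3⟩ hcon
        rcases kq_prod hR with ⟨a1, a2, a3⟩ | ⟨a1, a2, a3⟩
        · exfalso
          apply hdisc
          have b1 : α = 0 := (map_eq_zero ι).1 a1
          have b2 : β = 0 := (map_eq_zero ι).1 ((mul_eq_zero.1 a2).resolve_left h2)
          rw [b1, b2]
          ring
        · refine ⟨0, ?_⟩
          have c2 : bv φ (ke K i) (ev K w) * bv φ (ev K v) (ev K w) =
              ι β * h * qv φ (ev K w) := by
            apply mul_left_cancel₀ h2
            linear_combination a2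
          have c4 : (ι β ^ 2 - ι α * ι γ) * (h * qv φ (ev K w)) ^ 2 = 0 := by
            have c1 : bv φ (ke K i) (ev K w) ^ 2 = ι α * h * qv φ (ev K w) := by
              linear_combination a1
            have c3 : bv φ (ev K v) (ev K w) ^ 2 = ι γ * h * qv φ (ev K w) := by
              linear_combination a3
            have c5 : (bv φ (ke K i) (ev K w) * bv φ (ev K v) (ev K w)) ^ 2 =
                (ι α * h * qv φ (ev K w)) * (ι γ * h * qv φ (ev K w)) := by
              rw [mul_pow, c1, c3]
            rw [c2] at c5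
            linear_combination c5
          have c6 : ι β ^ 2 - ι α * ι γ ≠ 0 := by
            have : ι (β ^ 2 - α * γ) ≠ 0 := (map_ne_zero ι).2 hdisc
            rwa [map_sub, map_pow, map_mul] at this
          have c7 : h * qv φ (ev K w) = 0 := by
            rcases mul_eq_zero.1 c4 with h5 | h5
            · exact absurd h5 c6
            · exact pow_eq_zero_iff (two_ne_zero) |>.1 h5
          rw [(mul_eq_zero.1 c7).resolve_left hh, map_zero, zero_mul]
    choose cc hcc using hmain
    refine ⟨h, fun j k => (cc (j, k, 1) - cc (j, j, 0) - cc (k, k, 0)) / 2, fun j k => ?_⟩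
    have x0 : ∀ j : ν, φ j j = ι (cc (j, j, 0)) * h := by
      intro j
      have := hcc (j, j, 0)
      have x : ev K (j, j, (0 : Fin 2)) = fun a => ke K j a + 0 * ke K j a := by
        rw [ka_ev]
        simp
      rw [x, ka_qv_add φ hφ, ka_qv, ka_ee] at this
      linear_combination this
    have x1 : φ j j + 2 * φ j k + φ k k = ι (cc (j, k, 1)) * h := by
      have := hcc (j, k, 1)
      have x : ev K (j, k, (1 : Fin 2)) = fun a => ke K j a + 1 * ke K k a := by
        rw [ka_ev]
        simp
      rw [x, ka_qv_add φ hφ, ka_qv, ka_qv, ka_ee, ka_ee, ka_ee] at this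
      linear_combination this
    rw [map_div₀, map_sub, map_sub, map_ofNat, div_mul_eq_mul_div, eq_div_iff h2]
    linear_combination x1 - x0 j - x0 k

end Pool.Agent.Lib.MP_627a61_nt
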