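import Pool.Agent.Lib.MP_627a61_nt.Sq.Stm

/-!
# SQUARES, piece KEYDICH: the dichotomy for the matrices along an entire curve
-/

open scoped LinearAlgebra.Projectivization Topology
open Filter MvPolynomial

namespace Pool.Agent.Lib.MP_627a61_nt

section

variable {ν : Type} [Fintype ν] {R S : Type} [CommRing R] [CommRing S]

private lemma kd_qv_map (g : R →+* S) (φ : ν → ν → R) (v : ν → R) :
    qv (fun i j => g (φ i j)) (fun i => g (v i)) = g (qv φ v) := by
  simp only [qv, map_sum, map_mul]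

private lemma kd_bv_map (g : R →+* S) (φ : ν → ν → R) (v w : ν → R) :
    bv (fun i j => g (φ i j)) (fun i => g (v i)) (fun i => g (w i)) = g (bv φ v w) := by
  simp only [bv, map_sum, map_mul]

private lemma kd_qv_smul (t : R) (φ : ν → ν → R) (v : ν → R) :
    qv (fun i j => t * φ i j) v = t * qv φ v := by
  unfold qv
  rw [Finset.mul_sum]
  refine Finset.sum_congr rfl fun i _ => ?_
  rw [Finset.mul_sum]
  refine Finset.sum_congr rfl fun j _ => ?_
  ring

private lemma kd_bv_smul (t : R) (φ : ν → ν → R) (v w : ν → R) :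
    bv (fun i j => t * φ i j) v w = t * bv φ v w := by
  unfold bv
  rw [Finset.mul_sum]
  refine Finset.sum_congr rfl fun i _ => ?_
  rw [Finset.mul_sum]
  refine Finset.sum_congr rfl fun j _ => ?_
  ring

private lemma kd_bv_symm (φ : ν → ν → R) (hφ : ∀ i j, φ i j = φ j i) (v w : ν → R) :
    bv φ w v = bv φ v w := by
  unfold bv
  rw [Finset.sum_comm]
  refine Finset.sum_congr rfl fun i _ => Finset.sum_congr rfl fun j _ => ?_
  rw [hφ j i]
  ring

private lemma kd_qv_add (φ : ν → ν → R) (hφ : ∀ i j, φ i j = φ j i) (p e : ν → R) (t : R) :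
    qv φ (fun a => p a + t * e a) = qv φ p + 2 * t * bv φ p e + t ^ 2 * qv φ e := by
  have h1 : qv φ (fun a => p a + t * e a) =
      qv φ p + t * bv φ p e + t * bv φ e p + t ^ 2 * qv φ e := by
    unfold qv bv
    rw [Finset.mul_sum, Finset.mul_sum, Finset.mul_sum, ← Finset.sum_add_distrib,
      ← Finset.sum_add_distrib, ← Finset.sum_add_distrib]
    refine Finset.sum_congr rfl fun i _ => ?_
    rw [Finset.mul_sum, Finset.mul_sum, Finset.mul_sum, ← Finset.sum_add_distrib,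
      ← Finset.sum_add_distrib, ← Finset.sum_add_distrib]
    refine Finset.sum_congr rfl fun j _ => ?_
    ring
  rw [h1, kd_bv_symm φ hφ p e]
  ring

variable [DecidableEq ν]

private lemma kd_bv_e (φ : ν → ν → R) (j k : ν) :
    bv φ (fun a => if a = j then 1 else 0) (fun a => if a = k then 1 else 0) = φ j k := by
  simp [bv]

private lemma kd_qv_e (φ : ν → ν → R) (j : ν) :
    qv φ (fun a => if a = j then 1 else 0) = φ j j := by
  simp [qv]

private lemma kd_ev_map (g : R →+* S) (v : EI ν) : ev S v = fun a => g (ev R v a) := by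
  funext a
  unfold ev
  rw [map_add, map_mul, map_natCast, apply_ite g, apply_ite g, map_one, map_zero]

private lemma kd_pv_map (g : R →+* S) (i : ν) (v : EI ν) (s : Fin 5) :
    pv S i v s = fun a => g (pv R i v s a) := by
  funext a
  unfold pv
  rw [map_add, map_mul, map_natCast, apply_ite g, map_one, map_zero, kd_ev_map g]

/-- index of the vector `e_j` -/
private def kd_d (j : ν) : GI ν := (j, (j, j, 0), (j, j, 0), 0, 0)

/-- index of the vector `e_j + e_k` -/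
private def kd_m (j k : ν) : GI ν := (j, (k, k, 0), (k, k, 0), 1, 0)

private lemma kd_gv_d (j : ν) : gv R (kd_d j) = fun a => if a = j then 1 else 0 := by
  funext a
  simp [gv, kd_d]

private lemma kd_gv_m (j k : ν) : gv R (kd_m j k) = fun a => (if a = j then 1 else 0) +
    1 * (if a = k then 1 else 0) := by
  funext a
  simp [gv, kd_m, ev]

end

section

variable {ν I : Type} [Fintype ν] [DecidableEq ν]

/-- the matrix given by the coordinates -/
private noncomputable def kdA (l : GI ν → I) (x : I → ℂ) (j k : ν) : ℂ :=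
  (x (l (kd_m j k)) ^ 2 - x (l (kd_d j)) ^ 2 - x (l (kd_d k)) ^ 2) / 2

private lemma kdA_eq (l : GI ν → I) {lam : I → ν → ℂ} (hl : ∀ g, lam (l g) = gv ℂ g)
    (φ : ν → ν → ℂ) (hφ : ∀ i j, φ i j = φ j i) (x : I → ℂ)
    (hx : ∀ i, x i ^ 2 = qv φ (lam i)) (j k : ν) : kdA l x j k = φ j k := by
  unfold kdA
  rw [hx, hx, hx, hl, hl, hl, kd_gv_d, kd_gv_d, kd_gv_m, kd_qv_add φ hφ, kd_qv_e, kd_qv_e,
    kd_bv_e]
  ring

private lemma kdA_smul (l : GI ν → I) (t : ℂ) (x : I → ℂ) (j k : ν) :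
    kdA l (t • x) j k = t ^ 2 * kdA l x j k := by
  unfold kdA
  simp only [Pi.smul_apply, smul_eq_mul]
  ring

end

theorem piece_KEYDICH (hPLANE : S_PLANE) (hKEYALG : S_KEYALG) : S_KEYDICH := by
  intro ν I _ _ _ Φ hΦ lam hlam ψ hψ hval z₀
  choose l hl using hlam
  obtain ⟨f, hf, hw⟩ := hψ z₀
  have hfa : ∀ a, AnalyticAt ℂ (fun w => f w a) z₀ := fun a =>
    ((ContinuousLinearMap.proj (R := ℂ) (φ := fun _ : I => ℂ) a).analyticAt (f z₀)).comp hf
  -- the matrix in terms of the lift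
  obtain ⟨F, hF⟩ : ∃ F : ν → ν → (ℂ → ℂ), F = fun j k w => kdA l (f w) j k := ⟨_, rfl⟩
  have hFan : ∀ j k, AnalyticAt ℂ (F j k) z₀ := by
    intro j k
    rw [hF]
    unfold kdA
    exact ((((hfa _).pow 2).sub ((hfa _).pow 2)).sub ((hfa _).pow 2)).div analyticAt_const
      two_ne_zero
  have hrel : ∀ᶠ w in 𝓝 z₀, ∃ τ : ℂ, τ ≠ 0 ∧ ∀ φ ∈ Φ, (∀ i, (ψ w).rep i ^ 2 = qv φ (lam i)) →
      ∀ j k, φ j k = τ * F j k w := by
    filter_upwards [hw] with w h1
    obtain ⟨h2, h3⟩ := h1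
    obtain ⟨t, ht, hrep⟩ := exists_rep_eq h3
    refine ⟨t ^ 2, pow_ne_zero _ ht, ?_⟩
    intro φ hφ hq j k
    rw [← kdA_eq l hl φ (hΦ φ hφ) _ hq j k, hrep, kdA_smul, hF]
  have hrel' : ∀ᶠ w in 𝓝[≠] z₀, ∃ τ : ℂ, τ ≠ 0 ∧ ∀ φ ∈ Φ,
      (∀ i, (ψ w).rep i ^ 2 = qv φ (lam i)) → ∀ j k, φ j k = τ * F j k w :=
    hrel.filter_mono nhdsWithin_le_nhds
  -- the field
  obtain ⟨U, hU⟩ : ∃ U : Ultrafilter ℂ, (U : Filter ℂ) ≤ 𝓝[≠] z₀ :=
    ⟨Ultrafilter.of (𝓝[≠] z₀), Ultrafilter.of_le _⟩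
  let g : (ℂ → ℂ) →+* Filter.Germ (U : Filter ℂ) ℂ := Filter.Germ.coeRingHom _
  let ι : ℂ →+* Filter.Germ (U : Filter ℂ) ℂ := g.comp (Pi.constRingHom ℂ ℂ)
  have hg : ∀ a b : ℂ → ℂ, g a = g b ↔ ∀ᶠ w in (U : Filter ℂ), a w = b w := fun a b =>
    Filter.Germ.coe_eq
  -- values
  have hev : ∀ v : EI ν, ev (Filter.Germ (U : Filter ℂ) ℂ) v = fun a => g (ev (ℂ → ℂ) v a) :=
    fun v => kd_ev_map g v
  have hpv : ∀ (i : ν) (v : EI ν) (s : Fin 5), pv (Filter.Germ (U : Filter ℂ) ℂ) i v s =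
      fun a => g (pv (ℂ → ℂ) i v s a) := fun i v s => kd_pv_map g i v s
  have hqF : ∀ (p : ν → (ℂ → ℂ)) (w : ℂ), (qv F p) w = qv (fun i j => F i j w) (fun i => p i w) :=
    fun p w => (kd_qv_map (Pi.evalRingHom (fun _ : ℂ => ℂ) w) F p).symm
  have hbF : ∀ (p q : ν → (ℂ → ℂ)) (w : ℂ), (bv F p q) w =
      bv (fun i j => F i j w) (fun i => p i w) (fun i => q i w) :=
    fun p q w => (kd_bv_map (Pi.evalRingHom (fun _ : ℂ => ℂ) w) F p q).symm
  have hevw : ∀ (v : EI ν) (w : ℂ), (fun a => ev (ℂ → ℂ) v a w) = ev ℂ v := fun v w =>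
    (kd_ev_map (Pi.evalRingHom (fun _ : ℂ => ℂ) w) v).symm
  have hpvw : ∀ (i : ν) (v : EI ν) (s : Fin 5) (w : ℂ), (fun a => pv (ℂ → ℂ) i v s a w) =
      pv ℂ i v s := fun i v s w => (kd_pv_map (Pi.evalRingHom (fun _ : ℂ => ℂ) w) i v s).symm
  -- the values of the quadratic forms at the nine points
  have h9 : ∀ (i : ν) (v w : EI ν) (s : Fin 5) (φ : ν → ν → ℂ), φ ∈ Φ → ∀ z,
      (∀ i, (ψ z).rep i ^ 2 = qv φ (lam i)) → ∀ t : Fin 9,
      (ψ z).rep (l (i, v, w, s, t)) ^ 2 = qv φ (pv ℂ i v s) +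
        2 * ((t : ℕ) : ℂ) * bv φ (pv ℂ i v s) (ev ℂ w) +
        ((t : ℕ) : ℂ) ^ 2 * qv φ (ev ℂ w) := by
    intro i v w s φ hφ z hq t
    rw [hq, hl, ← kd_qv_add φ (hΦ φ hφ)]
    rfl
  have hsym : ∀ i j, g (F i j) = g (F j i) := by
    intro i j
    rw [hg]
    apply Filter.Eventually.filter_mono hU
    filter_upwards [hrel'] with w h2
    obtain ⟨τ, hτ, h3⟩ := h2
    obtain ⟨φ, hφ, hq⟩ := hval w
    have h4 := hΦ φ hφ i j
    rw [h3 φ hφ hq, h3 φ hφ hq] at h4
    exact mul_left_cancel₀ hτ h4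
  have hplane : ∀ (i : ν) (v w : EI ν) (s : Fin 5),
      bv (fun j k => g (F j k)) (pv (Filter.Germ (U : Filter ℂ) ℂ) i v s)
        (ev (Filter.Germ (U : Filter ℂ) ℂ) w) ^ 2 =
        qv (fun j k => g (F j k)) (pv (Filter.Germ (U : Filter ℂ) ℂ) i v s) *
        qv (fun j k => g (F j k)) (ev (Filter.Germ (U : Filter ℂ) ℂ) w) ∨
      ∃ (κ : Filter.Germ (U : Filter ℂ) ℂ) (α β γ : ℂ),
        qv (fun j k => g (F j k)) (pv (Filter.Germ (U : Filter ℂ) ℂ) i v s) = ι α * κ ∧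
        bv (fun j k => g (F j k)) (pv (Filter.Germ (U : Filter ℂ) ℂ) i v s)
          (ev (Filter.Germ (U : Filter ℂ) ℂ) w) = ι β * κ ∧
        qv (fun j k => g (F j k)) (ev (Filter.Germ (U : Filter ℂ) ℂ) w) = ι γ * κ := by
    intro i v w s
    have e1 : qv (fun j k => g (F j k)) (pv (Filter.Germ (U : Filter ℂ) ℂ) i v s) =
        g (qv F (pv (ℂ → ℂ) i v s)) := by rw [hpv, kd_qv_map]
    have e2 : bv (fun j k => g (F j k)) (pv (Filter.Germ (U : Filter ℂ) ℂ) i v s)
        (ev (Filter.Germ (U : Filter ℂ) ℂ) w) = g (bv F (pv (ℂ → ℂ) i v s) (ev (ℂ → ℂ) w)) := by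
      rw [hpv, hev, kd_bv_map]
    have e3 : qv (fun j k => g (F j k)) (ev (Filter.Germ (U : Filter ℂ) ℂ) w) =
        g (qv F (ev (ℂ → ℂ) w)) := by rw [hev, kd_qv_map]
    rw [e1, e2, e3]
    have h1 := hPLANE I ψ hψ (fun t => l (i, v, w, s, t)) (by
      intro z
      obtain ⟨φ, hφ, hq⟩ := hval z
      exact ⟨_, _, _, h9 i v w s φ hφ z hq⟩)
    rcases h1 with h1 | h1
    · left
      rw [← map_pow, ← map_mul, hg]
      apply Filter.Eventually.filter_mono hU
      filter_upwards [hrel'] with z h2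
      obtain ⟨τ, hτ, h3⟩ := h2
      obtain ⟨φ, hφ, hq⟩ := hval z
      have h4 := h1 z _ _ _ (h9 i v w s φ hφ z hq)
      have h5 : φ = fun j k => τ * F j k z := by
        funext j k
        exact h3 φ hφ hq j k
      rw [h5, kd_qv_smul, kd_qv_smul, kd_bv_smul] at h4
      rw [Pi.pow_apply, Pi.mul_apply, hqF, hqF, hbF, hpvw, hevw]
      apply mul_left_cancel₀ (pow_ne_zero 2 hτ)
      linear_combination h4
    · right
      obtain ⟨p, hp⟩ := h1
      have h2 : ∀ᶠ z in (U : Filter ℂ), ∃ κ : ℂ,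
          qv (fun j k => F j k z) (pv ℂ i v s) = p 0 ^ 2 * κ ∧
          bv (fun j k => F j k z) (pv ℂ i v s) (ev ℂ w) =
            ((p 1 ^ 2 - p 0 ^ 2) - (p 2 ^ 2 - p 0 ^ 2) / 4) * κ ∧
          qv (fun j k => F j k z) (ev ℂ w) =
            ((p 2 ^ 2 - p 0 ^ 2) / 2 - (p 1 ^ 2 - p 0 ^ 2)) * κ := by
        apply Filter.Eventually.filter_mono hU
        filter_upwards [hrel', hp z₀] with z h2 h3
        obtain ⟨τ, hτ, h4⟩ := h2
        obtain ⟨r, hr⟩ := h3
        obtain ⟨φ, hφ, hq⟩ := hval z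
        have h5 : φ = fun j k => τ * F j k z := by
          funext j k
          exact h4 φ hφ hq j k
        have h6 := h9 i v w s φ hφ z hq
        have k0 := h6 0
        have k1 := h6 1
        have k2 := h6 2
        rw [hr, h5, kd_qv_smul, kd_qv_smul, kd_bv_smul] at k0 k1 k2
        obtain ⟨a, ha⟩ : ∃ a, a = qv (fun j k => F j k z) (pv ℂ i v s) := ⟨_, rfl⟩
        obtain ⟨b, hb⟩ : ∃ b, b = bv (fun j k => F j k z) (pv ℂ i v s) (ev ℂ w) := ⟨_, rfl⟩
        obtain ⟨c, hc⟩ : ∃ c, c = qv (fun j k => F j k z) (ev ℂ w) := ⟨_, rfl⟩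
        rw [← ha, ← hb, ← hc] at k0 k1 k2 ⊢
        have n0 : (((0 : Fin 9) : ℕ) : ℂ) = 0 := by norm_num
        have n1 : (((1 : Fin 9) : ℕ) : ℂ) = 1 := by norm_num
        have n2 : (((2 : Fin 9) : ℕ) : ℂ) = 2 := by norm_num
        rw [n0] at k0
        rw [n1] at k1
        rw [n2] at k2
        refine ⟨r ^ 2 / τ, ?_, ?_, ?_⟩
        · field_simp
          linear_combination -k0
        · field_simp
          linear_combination (3 : ℂ) * k0 - 4 * k1 + k2
        · field_simp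
          linear_combination (-1 : ℂ) * k0 + 2 * k1 - k2
      obtain ⟨κ, hκ⟩ := h2.choice
      refine ⟨g κ, p 0 ^ 2, (p 1 ^ 2 - p 0 ^ 2) - (p 2 ^ 2 - p 0 ^ 2) / 4,
        (p 2 ^ 2 - p 0 ^ 2) / 2 - (p 1 ^ 2 - p 0 ^ 2), ?_, ?_, ?_⟩
      · show _ = g (Pi.constRingHom ℂ ℂ _) * g κ
        rw [← map_mul, hg]
        filter_upwards [hκ] with z hz
        rw [hqF, hpvw]
        exact hz.1
      · show _ = g (Pi.constRingHom ℂ ℂ _) * g κ
        rw [← map_mul, hg]
        filter_upwards [hκ] with z hz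
        rw [hbF, hpvw, hevw]
        exact hz.2.1
      · show _ = g (Pi.constRingHom ℂ ℂ _) * g κ
        rw [← map_mul, hg]
        filter_upwards [hκ] with z hz
        rw [hqF, hevw]
        exact hz.2.2
  rcases hKEYALG ℂ (Filter.Germ (U : Filter ℂ) ℂ) ι ν (fun j k => g (F j k)) hsym
      hplane with h | h
  · left
    have key : ∀ i j k, ∀ᶠ w in 𝓝[≠] z₀, F i i w * F j k w = F i j w * F i k w := by
      intro i j k
      have h1 : g (F i i * F j k) = g (F i j * F i k) := by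
        rw [map_mul, map_mul]
        exact h i j k
      rw [hg] at h1
      have h2 : ∃ᶠ w in 𝓝[≠] z₀, F i i w * F j k w - F i j w * F i k w = 0 := by
        refine (Filter.Eventually.frequently h1).filter_mono hU |>.mono ?_
        intro w hw
        exact sub_eq_zero.2 hw
      have han : AnalyticAt ℂ (fun w => F i i w * F j k w - F i j w * F i k w) z₀ :=
        ((hFan _ _).mul (hFan _ _)).sub ((hFan _ _).mul (hFan _ _))
      have h3 := han.frequently_zero_iff_eventually_zero.1 h2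
      filter_upwards [h3.filter_mono nhdsWithin_le_nhds] with w hw
      exact sub_eq_zero.1 hw
    have key' : ∀ᶠ w in 𝓝[≠] z₀, ∀ i j k, F i i w * F j k w = F i j w * F i k w := by
      rw [Filter.eventually_all]
      intro i
      rw [Filter.eventually_all]
      intro j
      rw [Filter.eventually_all]
      exact key i j
    filter_upwards [key', hrel'] with w h1 h2
    obtain ⟨τ, -, h3⟩ := h2
    intro φ hφ hq i j k
    rw [h3 φ hφ hq, h3 φ hφ hq, h3 φ hφ hq, h3 φ hφ hq]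
    linear_combination τ ^ 2 * h1 i j k
  · right
    obtain ⟨h, c, hc⟩ := h
    obtain ⟨h', rfl⟩ : ∃ h' : ℂ → ℂ, g h' = h := by
      obtain ⟨h', hh'⟩ := Quotient.exists_rep h
      exact ⟨h', hh'⟩
    refine ⟨c, ?_⟩
    have key : ∀ᶠ w in (U : Filter ℂ), ∀ i j, F i j w = c i j * h' w := by
      rw [Filter.eventually_all]
      intro i
      rw [Filter.eventually_all]
      intro j
      have h1 : g (F i j) = g ((Pi.constRingHom ℂ ℂ (c i j)) * h') := by
        rw [map_mul]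
        exact hc i j
      rw [hg] at h1
      exact h1
    have key' : ∃ᶠ w in 𝓝[≠] z₀, ∀ i j, F i j w = c i j * h' w :=
      (Filter.Eventually.frequently key).filter_mono hU
    refine (key'.and_eventually hrel').mono ?_
    rintro w ⟨h1, τ, -, h3⟩ φ hφ hq
    refine ⟨τ * h' w, fun i j => ?_⟩
    rw [h3 φ hφ hq, h1]
    ring

end Pool.Agent.Lib.MP_627a61_nt
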