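import Pool.Agent.Lib.MP_627a61_nt.Sq.Stm

/-!
# SQUARES, LIM: hyperbolicity of the covers `z_l ^ 2 = L_l(u)` is an open condition on `L`
-/

open scoped LinearAlgebra.Projectivization Topology
open Filter MvPolynomial

namespace Pool.Agent.Lib.MP_627a61_nt

private lemma lim_mem_iff {I J : Type*} [Fintype I] [Fintype J] (L : I → J → ℂ)
    (q : ℙ ℂ (I → ℂ)) {j : I} (hj : pm q j j ≠ 0) :
    q ∈ sqCover (RingHom.id ℂ) L ↔
      ∃ u : J → ℂ, ∀ l, col j (pm q) l ^ 2 = ∑ i, L l i * u i := by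
  obtain ⟨t, ht, hrep⟩ := exists_rep_eq (p := q) (v := col j (pm q)) (hv := col_ne_zero hj)
    (mk_col_pm q hj)
  constructor
  · rintro ⟨u, hu⟩
    refine ⟨fun i => t⁻¹ ^ 2 * u i, fun l => ?_⟩
    have h1 := hu l
    rw [hrep, Pi.smul_apply, smul_eq_mul, mul_pow] at h1
    have h2 : col j (pm q) l ^ 2 = t⁻¹ ^ 2 * (t ^ 2 * col j (pm q) l ^ 2) := by
      rw [← mul_assoc, ← mul_pow, inv_mul_cancel₀ ht, one_pow, one_mul]
    rw [h2, h1, Finset.mul_sum]
    refine Finset.sum_congr rfl fun i _ => ?_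
    rw [RingHom.id_apply]
    ring
  · rintro ⟨u, hu⟩
    refine ⟨fun i => t ^ 2 * u i, fun l => ?_⟩
    rw [hrep, Pi.smul_apply, smul_eq_mul, mul_pow, hu l, Finset.mul_sum]
    refine Finset.sum_congr rfl fun i _ => ?_
    rw [RingHom.id_apply]
    ring

/-- if `x = A u` then `det (P A) x = A (adj (P A) (P x))` -/
private lemma lim_adj {I J : Type*} [Fintype I] [Fintype J] [DecidableEq J]
    (P : Matrix J I ℂ) (A : Matrix I J ℂ) (u : J → ℂ) :
    A.mulVec ((P * A).adjugate.mulVec (P.mulVec (A.mulVec u))) = (P * A).det • A.mulVec u := by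
  have h1 : (P * A).adjugate.mulVec (P.mulVec (A.mulVec u)) = (P * A).det • u := by
    rw [Matrix.mulVec_mulVec u P A, Matrix.mulVec_mulVec u _ (P * A), Matrix.adjugate_mul,
      Matrix.smul_mulVec, Matrix.one_mulVec]
  rw [h1, Matrix.mulVec_smul]

private lemma lim_leftInv {I J : Type*} [Fintype I] [Fintype J] [DecidableEq J] [DecidableEq I]
    (A : Matrix I J ℂ) (h : ∀ u : J → ℂ, A.mulVec u = 0 → u = 0) :
    ∃ P : Matrix J I ℂ, P * A = 1 := by
  have hinj : Function.Injective (Matrix.toLin' A) := by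
    rw [← LinearMap.ker_eq_bot, LinearMap.ker_eq_bot']
    intro u hu
    rw [Matrix.toLin'_apply] at hu
    exact h u hu
  obtain ⟨g, hg⟩ := LinearMap.exists_leftInverse_of_injective _ (LinearMap.ker_eq_bot.2 hinj)
  refine ⟨LinearMap.toMatrix' g, ?_⟩
  have h1 : Matrix.toLin' (LinearMap.toMatrix' g * A) = Matrix.toLin' 1 := by
    rw [Matrix.toLin'_mul, Matrix.toLin'_toMatrix', hg, Matrix.toLin'_one]
  exact Matrix.toLin'.injective h1

theorem piece_LIM : S_LIM := by
  classical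
  intro I J _ _ L L₀ hL hinj hY
  refine eventually_brodyHyperbolic hY (fun n => sqCover (RingHom.id ℂ) (L n)) ?_
  intro l n hn q p hq hlim
  obtain ⟨j, hj⟩ := exists_diag_pm p
  have hj0 := diag_ne_zero_of_le hj
  obtain ⟨h1, h2⟩ := tendsto_col hlim hj0
  rw [lim_mem_iff L₀ p hj0]
  obtain ⟨P, hP⟩ := lim_leftInv (Matrix.of L₀) (by
    intro u hu
    refine hinj u fun i => ?_
    exact congrFun hu i)
  obtain ⟨x, hx⟩ : ∃ x : ℕ → I → ℂ, ∀ k i, x k i = col j (pm (q k)) i ^ 2 :=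
    ⟨fun k i => col j (pm (q k)) i ^ 2, fun k i => rfl⟩
  obtain ⟨x₀, hx₀⟩ : ∃ x₀ : I → ℂ, ∀ i, x₀ i = col j (pm p) i ^ 2 :=
    ⟨fun i => col j (pm p) i ^ 2, fun i => rfl⟩
  have hxl : Tendsto x l (𝓝 x₀) := by
    rw [tendsto_pi_nhds]
    intro i
    rw [hx₀ i]
    have h3 := ((tendsto_pi_nhds.1 h1) i).pow 2
    refine h3.congr fun k => ?_
    rw [hx k i]
  have hAl : Tendsto (fun k => Matrix.of (L (n k))) l (𝓝 (Matrix.of L₀)) := by
    refine tendsto_pi_nhds.2 fun i => tendsto_pi_nhds.2 fun a => ?_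
    exact (hL i a).comp hn
  obtain ⟨G, hG⟩ : ∃ G : Matrix I J ℂ × (I → ℂ) → (I → ℂ), ∀ A y, G (A, y) =
      A.mulVec ((P * A).adjugate.mulVec (P.mulVec y)) - (P * A).det • y :=
    ⟨fun z => z.1.mulVec ((P * z.1).adjugate.mulVec (P.mulVec z.2)) - (P * z.1).det • z.2,
      fun _ _ => rfl⟩
  have hGc : Continuous G := by
    have hG' : G = fun z => z.1.mulVec ((P * z.1).adjugate.mulVec (P.mulVec z.2)) -
        (P * z.1).det • z.2 := by
      funext z
      exact hG z.1 z.2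
    rw [hG']
    have c1 : Continuous fun z : Matrix I J ℂ × (I → ℂ) => P * z.1 :=
      continuous_const.matrix_mul continuous_fst
    refine Continuous.sub ?_ ?_
    · refine continuous_fst.matrix_mulVec ?_
      refine c1.matrix_adjugate.matrix_mulVec ?_
      exact continuous_const.matrix_mulVec continuous_snd
    · exact c1.matrix_det.smul continuous_snd
  have hlimG : Tendsto (fun k => G (Matrix.of (L (n k)), x k)) l (𝓝 (G (Matrix.of L₀, x₀))) :=
    (hGc.tendsto _).comp (hAl.prodMk_nhds hxl)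
  have hzero : ∀ᶠ k in (l : Filter ℕ), G (Matrix.of (L (n k)), x k) = 0 := by
    filter_upwards [h2] with k hk
    obtain ⟨u, hu⟩ := (lim_mem_iff (L (n k)) (q k) hk).1 (hq k)
    have hxu : x k = (Matrix.of (L (n k))).mulVec u := by
      funext i
      rw [hx k i, hu i]
      rfl
    rw [hG, hxu, lim_adj, sub_self]
  have h0 : G (Matrix.of L₀, x₀) = 0 := by
    refine tendsto_nhds_unique hlimG ?_
    exact tendsto_const_nhds.congr' (hzero.mono fun k hk => hk.symm)
  rw [hG, hP, Matrix.adjugate_one, Matrix.one_mulVec, Matrix.det_one, one_smul, sub_eq_zero] at h0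
  refine ⟨P.mulVec x₀, fun i => ?_⟩
  rw [← hx₀ i]
  exact (congrFun h0 i).symm

end Pool.Agent.Lib.MP_627a61_nt
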