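import Pool.Agent.Lib.MP_627a61_nt.Sq.Stm

/-!
# SQUARES: piece MAT, from linear forms in general position to diagonal quadrics
-/

open scoped LinearAlgebra.Projectivization Topology
open Filter MvPolynomial

namespace Pool.Agent.Lib.MP_627a61_nt

/-- the splitting of the index set -/
private def MAT_e (D r : ℕ) : Fin (D + 1) ⊕ Fin r ≃ Fin (D + r + 1) :=
  finSumFinEquiv.trans (finCongr (by omega))

private theorem MAT_sum {D r : ℕ} {K : Type} [AddCommMonoid K] (f : Fin (D + r + 1) → K) :
    ∑ l, f l = ∑ i, f (MAT_e D r (Sum.inl i)) + ∑ c, f (MAT_e D r (Sum.inr c)) := by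
  rw [← (MAT_e D r).sum_comp f, Fintype.sum_sum_type]

/-- the matrix of relations -/
private def MAT_a {D r : ℕ} {k : Type} [Field k] (N : Matrix (Fin r) (Fin (D + 1)) k) :
    Fin r → Fin (D + r + 1) → k := fun c l =>
  Sum.elim (fun i => -N c i) (fun c' => if c = c' then 1 else 0) ((MAT_e D r).symm l)

private theorem MAT_a_inl {D r : ℕ} {k : Type} [Field k] (N : Matrix (Fin r) (Fin (D + 1)) k)
    (c : Fin r) (i : Fin (D + 1)) : MAT_a N c (MAT_e D r (Sum.inl i)) = -N c i := by
  unfold MAT_a
  rw [Equiv.symm_apply_apply]; rfl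

private theorem MAT_a_inr {D r : ℕ} {k : Type} [Field k] (N : Matrix (Fin r) (Fin (D + 1)) k)
    (c c' : Fin r) : MAT_a N c (MAT_e D r (Sum.inr c')) = if c = c' then 1 else 0 := by
  unfold MAT_a
  rw [Equiv.symm_apply_apply]; rfl

private theorem MAT_mem_points {D r : ℕ} {k K : Type} [Field k] [Field K] (τ : k →+* K)
    (a : Fin r → Fin (D + r + 1) → k) (x : ℙ K (Fin (D + r + 1) → K)) :
    x ∈ points τ (diagQuad a) ↔ ∀ c, ∑ l, τ (a c l) * x.rep l ^ 2 = 0 := by
  unfold points diagQuad
  simp only [Set.mem_ofPred_eq, Set.mem_range, forall_exists_index, forall_apply_eq_imp_iff]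
  refine forall_congr' fun c => ?_
  have h : MvPolynomial.eval₂ τ x.rep (∑ l, C (a c l) * X l ^ 2) =
      ∑ l, τ (a c l) * x.rep l ^ 2 := by
    rw [MvPolynomial.eval₂_sum]
    refine Finset.sum_congr rfl fun l _ => ?_
    rw [MvPolynomial.eval₂_mul, MvPolynomial.eval₂_C, MvPolynomial.eval₂_pow,
      MvPolynomial.eval₂_X]
  rw [h]

theorem piece_MAT : S_MAT := by
  intro k _ D r L hL
  set L₁ : Matrix (Fin (D + 1)) (Fin (D + 1)) k :=
    Matrix.of fun i j => L (MAT_e D r (Sum.inl i)) j with hL₁
  set L₂ : Matrix (Fin r) (Fin (D + 1)) k :=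
    Matrix.of fun i j => L (MAT_e D r (Sum.inr i)) j with hL₂
  have hdet : L₁.det ≠ 0 := hL (fun i => MAT_e D r (Sum.inl i))
    ((MAT_e D r).injective.comp Sum.inl_injective)
  have hu : IsUnit L₁.det := isUnit_iff_ne_zero.2 hdet
  have hB : L₁⁻¹ * L₁ = 1 := Matrix.nonsing_inv_mul _ hu
  have hB' : L₁ * L₁⁻¹ = 1 := Matrix.mul_nonsing_inv _ hu
  set N : Matrix (Fin r) (Fin (D + 1)) k := L₂ * L₁⁻¹ with hN
  have hNL : N * L₁ = L₂ := by rw [hN, Matrix.mul_assoc, hB, Matrix.mul_one]
  have haL : ∀ c j, ∑ l, MAT_a N c l * L l j = 0 := by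
    intro c j
    rw [MAT_sum]
    have h1 : ∑ i, MAT_a N c (MAT_e D r (Sum.inl i)) * L (MAT_e D r (Sum.inl i)) j =
        -(N * L₁) c j := by
      rw [Matrix.mul_apply, ← Finset.sum_neg_distrib]
      refine Finset.sum_congr rfl fun i _ => ?_
      rw [MAT_a_inl, neg_mul]
      rfl
    have h2 : ∑ c', MAT_a N c (MAT_e D r (Sum.inr c')) * L (MAT_e D r (Sum.inr c')) j =
        L₂ c j := by
      rw [Finset.sum_eq_single c]
      · rw [MAT_a_inr, if_pos rfl, one_mul]
        rfl
      · intro c' _ hc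
        rw [MAT_a_inr, if_neg (Ne.symm hc), zero_mul]
      · intro h
        exact absurd (Finset.mem_univ c) h
    rw [h1, h2, hNL, neg_add_cancel]
  refine ⟨MAT_a N, ?_, ?_⟩
  · intro c hc hdet0
    obtain ⟨v, hv0, hv⟩ := Matrix.exists_vecMul_eq_zero_iff.2 hdet0
    set w : Fin (D + r + 1) → k := fun l => ∑ i, v i * MAT_a N i l with hw
    have hwc : ∀ j, w (c j) = 0 := by
      intro j
      have h1 := congrFun hv j
      exact h1
    have hwL : ∀ j, ∑ l, w l * L l j = 0 := by
      intro j
      have h1 : ∑ l, w l * L l j = ∑ i, v i * ∑ l, MAT_a N i l * L l j := by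
        rw [hw]
        simp only [Finset.sum_mul, Finset.mul_sum]
        rw [Finset.sum_comm]
        refine Finset.sum_congr rfl fun i _ => Finset.sum_congr rfl fun l _ => ?_
        ring
      rw [h1]
      refine Finset.sum_eq_zero fun i _ => ?_
      rw [haL, mul_zero]
    have hcard : ((Finset.univ.image c)ᶜ : Finset (Fin (D + r + 1))).card = D + 1 := by
      rw [Finset.card_compl, Finset.card_image_of_injective _ hc, Finset.card_univ,
        Fintype.card_fin, Fintype.card_fin]
      omega
    set s : Finset (Fin (D + r + 1)) := (Finset.univ.image c)ᶜ with hs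
    have hc' := hL (s.orderEmbOfFin hcard) (s.orderEmbOfFin hcard).injective
    have hw2 : Matrix.vecMul (fun j => w (s.orderEmbOfFin hcard j))
        (Matrix.of fun i j => L (s.orderEmbOfFin hcard i) j) = 0 := by
      funext j
      show ∑ i, w (s.orderEmbOfFin hcard i) * L (s.orderEmbOfFin hcard i) j = 0
      have h1 : ∑ l ∈ s, w l * L l j = 0 := by
        rw [← hwL j]
        refine Finset.sum_subset (Finset.subset_univ _) fun l _ hl => ?_
        rw [hs, Finset.mem_compl, not_not, Finset.mem_image] at hl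
        obtain ⟨j', _, rfl⟩ := hl
        rw [hwc, zero_mul]
      rw [← h1]
      conv_rhs => rw [← Finset.image_orderEmbOfFin_univ s hcard]
      rw [Finset.sum_image (fun x _ y _ h => (s.orderEmbOfFin hcard).injective h)]
    have hw3 : (fun j => w (s.orderEmbOfFin hcard j)) = 0 := by
      by_contra hne
      exact hc' (Matrix.exists_vecMul_eq_zero_iff.1 ⟨_, hne, hw2⟩)
    have hw0 : ∀ l, w l = 0 := by
      intro l
      by_cases hl : l ∈ s
      · have h1 : l ∈ Finset.univ.image (s.orderEmbOfFin hcard) := by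
          rw [Finset.image_orderEmbOfFin_univ]
          exact hl
        obtain ⟨j, _, rfl⟩ := Finset.mem_image.1 h1
        exact congrFun hw3 j
      · rw [hs, Finset.mem_compl, not_not, Finset.mem_image] at hl
        obtain ⟨j', _, rfl⟩ := hl
        exact hwc j'
    apply hv0
    funext c'
    have h1 := hw0 (MAT_e D r (Sum.inr c'))
    rw [hw] at h1
    simp only [MAT_a_inr] at h1
    rw [Finset.sum_eq_single c'] at h1
    · rw [if_pos rfl, mul_one] at h1
      exact h1
    · intro i _ hi
      rw [if_neg hi, mul_zero]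
    · intro h
      exact absurd (Finset.mem_univ c') h
  · intro K _ τ
    ext z
    rw [MAT_mem_points]
    constructor
    · intro h
      refine ⟨fun j => ∑ i, τ (L₁⁻¹ j i) * z.rep (MAT_e D r (Sum.inl i)) ^ 2, fun l => ?_⟩
      have hkey : ∀ (R : Type) [Fintype R] (P : Matrix R (Fin (D + 1)) k) (x : R),
          ∑ j, τ (P x j) * ∑ i, τ (L₁⁻¹ j i) * z.rep (MAT_e D r (Sum.inl i)) ^ 2 =
          ∑ i, τ ((P * L₁⁻¹) x i) * z.rep (MAT_e D r (Sum.inl i)) ^ 2 := by
        intro R _ P x
        simp only [Matrix.mul_apply, map_sum, map_mul, Finset.sum_mul, Finset.mul_sum]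
        rw [Finset.sum_comm]
        refine Finset.sum_congr rfl fun i _ => Finset.sum_congr rfl fun j _ => ?_
        ring
      obtain ⟨x, rfl⟩ := (MAT_e D r).surjective l
      rcases x with i | c
      · have h1 := hkey _ L₁ i
        rw [hB'] at h1
        have h2 : ∑ j, τ (L (MAT_e D r (Sum.inl i)) j) *
            ∑ i, τ (L₁⁻¹ j i) * z.rep (MAT_e D r (Sum.inl i)) ^ 2 =
            ∑ i', τ ((1 : Matrix (Fin (D + 1)) (Fin (D + 1)) k) i i') *
              z.rep (MAT_e D r (Sum.inl i')) ^ 2 := h1
        rw [h2, Finset.sum_eq_single i]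
        · rw [Matrix.one_apply_eq, map_one, one_mul]
        · intro i' _ hi
          rw [Matrix.one_apply_ne (Ne.symm hi), map_zero, zero_mul]
        · intro h'
          exact absurd (Finset.mem_univ i) h'
      · have h1 := hkey _ L₂ c
        have h2 : ∑ j, τ (L (MAT_e D r (Sum.inr c)) j) *
            ∑ i, τ (L₁⁻¹ j i) * z.rep (MAT_e D r (Sum.inl i)) ^ 2 =
            ∑ i', τ (N c i') * z.rep (MAT_e D r (Sum.inl i')) ^ 2 := h1
        rw [h2]
        have h3 := h c
        rw [MAT_sum] at h3
        simp only [MAT_a_inl, MAT_a_inr] at h3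
        rw [Finset.sum_eq_single (s := Finset.univ) (a := c)
          (f := fun c' => τ (if c = c' then 1 else 0) * z.rep (MAT_e D r (Sum.inr c')) ^ 2)] at h3
        · rw [if_pos rfl, map_one, one_mul] at h3
          simp only [map_neg, neg_mul, Finset.sum_neg_distrib] at h3
          linear_combination h3
        · intro c' _ hc
          rw [if_neg (Ne.symm hc), map_zero, zero_mul]
        · intro h'
          exact absurd (Finset.mem_univ c) h'
    · rintro ⟨u, hu⟩ c
      have h1 : ∑ l, τ (MAT_a N c l) * z.rep l ^ 2 =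
          ∑ j, τ (∑ l, MAT_a N c l * L l j) * u j := by
        simp only [hu, map_sum, map_mul, Finset.sum_mul, Finset.mul_sum]
        rw [Finset.sum_comm]
        refine Finset.sum_congr rfl fun i _ => Finset.sum_congr rfl fun j _ => ?_
        ring
      rw [h1]
      refine Finset.sum_eq_zero fun j _ => ?_
      rw [haL, map_zero, zero_mul]

end Pool.Agent.Lib.MP_627a61_nt
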