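import Pool.Agent.Lib.MP_627a61_nt.Sq.Stm

/-! Piece NUM of the project SQUARES. -/

namespace Pool.Agent.Lib.MP_627a61_nt

theorem piece_NUM : S_NUM := by
  intro N
  refine ⟨(43740 + N + 2) ^ 2, fun D hD => ?_⟩
  have hs : 43740 + N + 2 ≤ Nat.sqrt D := by
    rw [Nat.le_sqrt']; exact hD
  have h1 : Nat.sqrt D ^ 2 ≤ D := Nat.sqrt_le' D
  have h2 : D < (Nat.sqrt D + 1) ^ 2 := Nat.lt_succ_sqrt' D
  generalize Nat.sqrt D = s at *
  refine ⟨le_trans (Nat.pow_le_pow_left (by omega) 2) h1, h2, ?_⟩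
  calc 180 * (N + 2 * (s + 1)) ^ 5 ≤ 180 * (3 * s) ^ 5 :=
        Nat.mul_le_mul_left _ (Nat.pow_le_pow_left (by omega) 5)
    _ = 43740 * s ^ 5 := by ring
    _ ≤ s * s ^ 5 := Nat.mul_le_mul_right _ (by omega)
    _ = (s ^ 2) ^ 3 := by ring
    _ ≤ D ^ 3 := Nat.pow_le_pow_left h1 3

end Pool.Agent.Lib.MP_627a61_nt
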