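import Pool.Agent.Lib.MP_627a61_nt.Sq.Stm

/-!
# Piece PERT: general position for small perturbations

For each choice `c` of rows the determinant of `Lmat b (path lam₀ lam₁ m)` is the value of a
polynomial at `1 / (m + 1)`, and this polynomial does not vanish at `1`.
-/

open Filter

namespace Pool.Agent.Lib.MP_627a61_nt

/-- A nonzero polynomial does not vanish at `1 / (m + 1)` for large `m`. -/
private theorem pert_eventually {k : Type} [Field k] [CharZero k] (p : Polynomial k)
    (hp : p ≠ 0) : ∀ᶠ m : ℕ in atTop, p.eval (1 / ((m : k) + 1)) ≠ 0 := by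
  have hinj : Function.Injective (fun m : ℕ => (1 : k) / ((m : k) + 1)) := by
    intro a b hab
    have h1 : (1 : k) / ((a : k) + 1) = 1 / ((b : k) + 1) := hab
    rw [one_div, one_div] at h1
    have h2 : (a : k) + 1 = (b : k) + 1 := inv_injective h1
    exact_mod_cast add_right_cancel h2
  have hroots : {x : k | p.IsRoot x}.Finite := Polynomial.finite_setOfPred_isRoot hp
  have hpre : {m : ℕ | p.eval (1 / ((m : k) + 1)) = 0}.Finite :=
    hroots.preimage (f := fun m : ℕ => (1 : k) / ((m : k) + 1)) hinj.injOn
  have h := hpre.compl_mem_cofinite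
  rw [Nat.cofinite_eq_atTop] at h
  exact h

/-- The matrix of polynomials in `ε`. -/
private noncomputable def pertMat {k : Type} [Field k] {ν : Type} [Fintype ν] {D M : ℕ}
    (b : Fin (D + 1) → ν → ν → k) (lam₀ lam₁ : Fin M → ν → k) (c : Fin (D + 1) → Fin M) :
    Matrix (Fin (D + 1)) (Fin (D + 1)) (Polynomial k) :=
  Matrix.of fun i j => Lmat (fun t p q => Polynomial.C (b t p q))
    (fun l a => Polynomial.C (lam₀ l a) + Polynomial.X * Polynomial.C (lam₁ l a - lam₀ l a))
    (c i) j

private theorem pert_eval {k : Type} [Field k] {ν : Type} [Fintype ν] {D M : ℕ}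
    (b : Fin (D + 1) → ν → ν → k) (lam₀ lam₁ : Fin M → ν → k) (c : Fin (D + 1) → Fin M) (x : k) :
    (pertMat b lam₀ lam₁ c).det.eval x = Matrix.det (Matrix.of fun i j =>
      Lmat b (fun l a => lam₀ l a + x * (lam₁ l a - lam₀ l a)) (c i) j) := by
  have h := RingHom.map_det (Polynomial.evalRingHom x) (pertMat b lam₀ lam₁ c)
  rw [Polynomial.coe_evalRingHom] at h
  rw [h]
  apply congrArg Matrix.det
  ext i j
  simp [pertMat, Lmat, qv, Polynomial.eval_finsetSum]

/-- PERT. General position for the perturbed forms. -/
theorem piece_PERT : S_PERT := by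
  intro k _ _ ν _ D M b lam₀ lam₁ hgen
  unfold GenPos
  rw [Filter.eventually_all]
  intro c
  by_cases hc : Function.Injective c
  · have hp : (pertMat b lam₀ lam₁ c).det ≠ 0 := by
      intro h0
      have h1 := pert_eval b lam₀ lam₁ c 1
      rw [h0, Polynomial.eval_zero] at h1
      apply hgen c hc
      rw [h1]
      apply congrArg Matrix.det
      ext i j
      simp [Lmat]
    filter_upwards [pert_eventually _ hp] with m hm
    intro _
    rw [pert_eval] at hm
    exact hm
  · exact Filter.Eventually.of_forall fun m hm => absurd hm hc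

end Pool.Agent.Lib.MP_627a61_nt
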