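import Pool.Agent.Lib.MP_627a61_nt.Sq.Stm
import Pool.Agent.Lib.MP_627a61_nt.Sq.Buchi

/-!
# Piece PLANE of SQUARES
-/

open scoped LinearAlgebra.Projectivization Topology
open Filter MvPolynomial

namespace Pool.Agent.Lib.MP_627a61_nt

private lemma plane_smul {w v : Fin 9 → ℂ} {r a b c : ℂ} (hw : w = r • v)
    (h : ∀ t : Fin 9, v t ^ 2 = a + 2 * ((t : ℕ) : ℂ) * b + ((t : ℕ) : ℂ) ^ 2 * c) :
    ∀ t : Fin 9, w t ^ 2 = r ^ 2 * a + 2 * ((t : ℕ) : ℂ) * (r ^ 2 * b) +
      ((t : ℕ) : ℂ) ^ 2 * (r ^ 2 * c) := by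
  intro t
  rw [hw, Pi.smul_apply, smul_eq_mul]
  linear_combination r ^ 2 * h t

/-- the condition that the square of the coordinate `t` is the value at `t` of the quadratic
polynomial through the first three squares -/
private noncomputable def planeP (t : Fin 9) (w : Fin 9 → ℂ) : ℂ :=
  Sq.sqv w t - (Sq.ca (Sq.sqv w) + 2 * ((t : ℕ) : ℂ) * Sq.cb (Sq.sqv w) +
    ((t : ℕ) : ℂ) ^ 2 * Sq.cc (Sq.sqv w))

private lemma planeP_cont (t : Fin 9) : Continuous (planeP t) := by
  unfold planeP Sq.cb Sq.cc Sq.ca Sq.sqv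
  fun_prop

private lemma planeP_smul (t : Fin 9) (r : ℂ) (w : Fin 9 → ℂ) :
    planeP t (r • w) = r ^ 2 * planeP t w := by
  unfold planeP Sq.cb Sq.cc Sq.ca Sq.sqv
  simp only [Pi.smul_apply, smul_eq_mul]
  ring

/-- PLANE -/
theorem piece_PLANE : S_PLANE := by
  intro I _ ψ hψ l hsq
  set G : (I → ℂ) → (Fin 9 → ℂ) := fun x t => x (l t) with hG
  by_cases hz : ∀ z, G (ψ z).rep = 0
  · right
    refine ⟨0, fun z => Filter.Eventually.of_forall fun w => ⟨0, fun t => ?_⟩⟩
    have := congrFun (hz w) t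
    simpa using this
  push Not at hz
  obtain ⟨z₀, hz₀⟩ := hz
  have hGan : ∀ x, AnalyticAt ℂ G x := by
    intro x
    have : G = fun x t => (ContinuousLinearMap.proj (R := ℂ) (φ := fun _ : I => ℂ) (l t)) x := rfl
    rw [this]
    exact AnalyticAt.pi fun t => ContinuousLinearMap.analyticAt _ x
  obtain ⟨χ, hχ, hval, hne⟩ := exists_division hψ G hGan 1 (fun t x => by
    rw [pow_one]; rfl) hz₀
  have hrel : ∀ z (h : G (ψ z).rep ≠ 0), ∃ r : ℂ, r ≠ 0 ∧ (χ z).rep = r • G (ψ z).rep :=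
    fun z h => exists_rep_eq (hval z h)
  have hQ : ∀ z, ∃ a b c : ℂ, ∀ t : Fin 9,
      (χ z).rep t ^ 2 = a + 2 * ((t : ℕ) : ℂ) * b + ((t : ℕ) : ℂ) ^ 2 * c := by
    intro z
    have hp : ∀ t, planeP t (χ z).rep = 0 := by
      intro t
      refine HolomorphicAt.zero_of_punctured (hχ z) (planeP t) (planeP_cont t) ?_ ?_
      · intro r x hr
        rw [planeP_smul]
        constructor
        · intro h
          exact (mul_eq_zero.1 h).resolve_left (pow_ne_zero _ hr)
        · intro h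
          rw [h, mul_zero]
      · filter_upwards [hne z] with w hw
        obtain ⟨r, hr, hrep⟩ := hrel w hw
        obtain ⟨a, b, c, habc⟩ := hsq w
        have h1 := plane_smul (v := G (ψ w).rep) hrep habc
        have h2 := Sq.isQ_of (s := Sq.sqv (χ w).rep) ⟨_, _, _, h1⟩ t
        unfold planeP
        rw [← h2, sub_self]
    refine ⟨Sq.ca (Sq.sqv (χ z).rep), Sq.cb (Sq.sqv (χ z).rep), Sq.cc (Sq.sqv (χ z).rep),
      fun t => ?_⟩
    have := hp t
    unfold planeP at this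
    exact sub_eq_zero.1 this
  rcases buchi χ hχ hQ with h | h
  · right
    refine ⟨(χ 0).rep, fun z => ?_⟩
    filter_upwards [hne z] with w hw
    obtain ⟨r, hr, hrep⟩ := hrel w hw
    refine ⟨r⁻¹, fun t => ?_⟩
    rw [h 0 w, hrep, Pi.smul_apply, smul_eq_mul, ← mul_assoc, inv_mul_cancel₀ hr, one_mul]
  · left
    intro z a b c habc
    by_cases h0 : G (ψ z).rep = 0
    · have h1 : disc9 (G (ψ z).rep) = b ^ 2 - a * c := disc9_of habc
      rw [h0] at h1
      have h2 : disc9 (0 : Fin 9 → ℂ) = 0 := by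
        unfold disc9 Sq.cb Sq.cc Sq.ca Sq.sqv
        simp
      rw [h2] at h1
      exact (sub_eq_zero.1 h1.symm)
    · obtain ⟨r, hr, hrep⟩ := hrel z h0
      have h1 := disc9_of (plane_smul (v := G (ψ z).rep) hrep habc)
      rw [h z] at h1
      have h2 : r ^ 4 * (b ^ 2 - a * c) = 0 := by
        rw [h1]; ring
      exact sub_eq_zero.1 ((mul_eq_zero.1 h2).resolve_left (pow_ne_zero _ hr))

end Pool.Agent.Lib.MP_627a61_nt
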