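import Pool.Agent.Lib.MP_627a61_nt.Sq.Stm

/-!
# Piece SQFIN: square points and points of the square cover
-/

open scoped LinearAlgebra.Projectivization Topology
open Filter MvPolynomial

namespace Pool.Agent.Lib.MP_627a61_nt

private lemma sqfin_rep_mk {ι k : Type*} [Field k] (v : ι → k) (hv : v ≠ 0) :
    ∃ t : k, t ≠ 0 ∧ (Projectivization.mk k v hv).rep = t • v := by
  obtain ⟨a, ha⟩ := Projectivization.exists_smul_eq_mk_rep k v hv
  exact ⟨(a : k), a.ne_zero, ha.symm⟩

private lemma sqfin_eq_of_rep {ι k : Type*} [Field k] (x y : ℙ k (ι → k)) (t : k)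
    (h : x.rep = t • y.rep) : x = y := by
  rw [← Projectivization.mk_rep x, ← Projectivization.mk_rep y,
    Projectivization.mk_eq_mk_iff']
  exact ⟨t, h.symm⟩

private lemma sqfin_lin {ι κ k : Type*} [Fintype κ] [Field k] (L : ι → κ → k) (t : k)
    (u : κ → k) (l : ι) : ∑ i, L l i * (t • u) i = t * ∑ i, L l i * u i := by
  rw [Finset.mul_sum]
  refine Finset.sum_congr rfl fun i _ => ?_
  rw [Pi.smul_apply, smul_eq_mul]
  ring

/-- square roots at a square point -/
private lemma sqfin_roots {D M : ℕ} {k : Type} [Field k] {L : Fin M → Fin (D + 1) → k}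
    {x : ℙ k (Fin (D + 1) → k)} (hx : x ∈ squarePoints L) :
    ∃ (c : k) (w : Fin M → k), c ≠ 0 ∧ ∀ l, w l ^ 2 = c * ∑ i, L l i * x.rep i := by
  obtain ⟨c, hc, h⟩ := hx
  choose w hw using h
  exact ⟨c, w, hc, fun l => by rw [hw l]; ring⟩

theorem piece_SQFIN : S_SQFIN := by
  classical
  intro k _ _ D M L hinj
  constructor
  · intro hfin
    -- choose the roots
    have hroots : ∀ x : ℙ k (Fin (D + 1) → k), ∃ w : Fin M → k, x ∈ squarePoints L →
        ∃ c : k, c ≠ 0 ∧ ∀ l, w l ^ 2 = c * ∑ i, L l i * x.rep i := by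
      intro x
      by_cases hx : x ∈ squarePoints L
      · obtain ⟨c, w, hc, hw⟩ := sqfin_roots hx
        exact ⟨w, fun _ => ⟨c, hc, hw⟩⟩
      · exact ⟨0, fun h => absurd h hx⟩
    choose w hw using hroots
    refine Set.Finite.subset (s := ⋃ x ∈ squarePoints L, ⋃ e : Fin M → Bool,
      {z : ℙ k (Fin M → k) | ∃ s : k, z.rep = s • fun l => (if e l then (1 : k) else -1) * w x l})
      ?_ ?_
    · refine hfin.biUnion fun x _ => Set.finite_iUnion fun e => Set.Subsingleton.finite ?_
      rintro z ⟨s, hs⟩ z' ⟨s', hs'⟩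
      have hs0 : s ≠ 0 := by
        rintro rfl
        rw [zero_smul] at hs
        exact z.rep_nonzero hs
      have hs0' : s' ≠ 0 := by
        rintro rfl
        rw [zero_smul] at hs'
        exact z'.rep_nonzero hs'
      refine sqfin_eq_of_rep z z' (s * s'⁻¹) ?_
      rw [hs, hs', smul_smul, mul_assoc, inv_mul_cancel₀ hs0', mul_one]
    · rintro z ⟨u, hu⟩
      simp only [RingHom.id_apply] at hu
      obtain ⟨l0, hl0⟩ : ∃ l, z.rep l ≠ 0 := by
        by_contra hcon
        push Not at hcon
        exact z.rep_nonzero (funext hcon)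
      have hu0 : u ≠ 0 := by
        rintro rfl
        have := hu l0
        simp only [Pi.zero_apply, mul_zero, Finset.sum_const_zero] at this
        exact hl0 (pow_eq_zero_iff (two_ne_zero) |>.mp this)
      obtain ⟨t, ht, hrep⟩ := sqfin_rep_mk u hu0
      set x := Projectivization.mk k u hu0 with hxdef
      have hxmem : x ∈ squarePoints L := by
        refine ⟨t⁻¹, inv_ne_zero ht, fun l => ⟨z.rep l, ?_⟩⟩
        rw [hrep, sqfin_lin, ← mul_assoc, inv_mul_cancel₀ ht, one_mul, ← hu l]
        ring
      obtain ⟨c, hc, hcw⟩ := hw x hxmem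
      have hrel : ∀ l, w x l ^ 2 = c * t * z.rep l ^ 2 := by
        intro l
        rw [hcw l, hrep, sqfin_lin, hu l]
        ring
      have hwl0 : w x l0 ≠ 0 := by
        intro h0
        have := hrel l0
        rw [h0] at this
        have h1 : c * t * z.rep l0 ^ 2 ≠ 0 := mul_ne_zero (mul_ne_zero hc ht) (pow_ne_zero 2 hl0)
        apply h1
        rw [← this]
        ring
      set b := w x l0 / z.rep l0 with hb
      have hb0 : b ≠ 0 := div_ne_zero hwl0 hl0
      have hct : c * t = b ^ 2 := by
        have := hrel l0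
        rw [hb, div_pow, this]
        field_simp
      have hpm : ∀ l, w x l = b * z.rep l ∨ w x l = -(b * z.rep l) := by
        intro l
        apply sq_eq_sq_iff_eq_or_eq_neg.mp
        rw [hrel l, hct]
        ring
      rw [Set.mem_iUnion₂]
      refine ⟨x, hxmem, ?_⟩
      rw [Set.mem_iUnion]
      refine ⟨fun l => decide (w x l = b * z.rep l), ?_⟩
      refine ⟨b⁻¹, funext fun l => ?_⟩
      rw [Pi.smul_apply, smul_eq_mul]
      by_cases h : w x l = b * z.rep l
      · simp only [h, decide_true, if_true]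
        field_simp
      · have h2 := (hpm l).resolve_left h
        simp only [h, decide_false, Bool.false_eq_true, if_false]
        rw [h2]
        field_simp
  · intro hfin
    have hroots : ∀ x : ℙ k (Fin (D + 1) → k), ∃ z : ℙ k (Fin M → k), x ∈ squarePoints L →
        ∃ (c : k) (w : Fin M → k), c ≠ 0 ∧ (∀ l, w l ^ 2 = c * ∑ i, L l i * x.rep i) ∧
          ∃ t : k, t ≠ 0 ∧ z.rep = t • w := by
      intro x
      by_cases hx : x ∈ squarePoints L
      · obtain ⟨c, w, hc, hw⟩ := sqfin_roots hx
        have hw0 : w ≠ 0 := by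
          rintro rfl
          apply x.rep_nonzero
          apply hinj
          intro l
          have := hw l
          simp only [Pi.zero_apply, ne_eq, OfNat.ofNat_ne_zero, not_false_eq_true, zero_pow] at this
          exact (mul_eq_zero.mp this.symm).resolve_left hc
        obtain ⟨t, ht, hrep⟩ := sqfin_rep_mk w hw0
        exact ⟨Projectivization.mk k w hw0, fun _ => ⟨c, w, hc, hw, t, ht, hrep⟩⟩
      · have hM : Nonempty (ℙ k (Fin M → k)) := by
          have hMpos : 0 < M := by
            rcases Nat.eq_zero_or_pos M with h0 | h0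
            · subst h0
              have h1 := hinj (fun _ => 1) (fun l => l.elim0)
              exact absurd (congrFun h1 0) one_ne_zero
            · exact h0
          exact ⟨Projectivization.mk k (fun _ => 1) (fun h => one_ne_zero (congrFun h ⟨0, hMpos⟩))⟩
        exact ⟨hM.some, fun h => absurd h hx⟩
    choose f hf using hroots
    refine Set.Finite.of_injOn (f := f) (t := sqCover (RingHom.id k) L) ?_ ?_ hfin
    · intro x hx
      obtain ⟨c, w, hc, hw, t, ht, hrep⟩ := hf x hx
      refine ⟨(t ^ 2 * c) • x.rep, fun l => ?_⟩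
      simp only [RingHom.id_apply]
      rw [sqfin_lin, hrep, Pi.smul_apply, smul_eq_mul, mul_pow, hw l]
      ring
    · intro x hx x' hx' hxx
      obtain ⟨c, w, hc, hw, t, ht, hrep⟩ := hf x hx
      obtain ⟨c', w', hc', hw', t', ht', hrep'⟩ := hf x' hx'
      rw [hxx] at hrep
      have hww : ∀ l, t * w l = t' * w' l := by
        intro l
        have h1 := congrFun hrep l
        have h2 := congrFun hrep' l
        rw [Pi.smul_apply, smul_eq_mul] at h1 h2
        rw [← h1, ← h2]
      have hL : ∀ l, ∑ i, L l i * ((t ^ 2 * c) • x.rep - (t' ^ 2 * c') • x'.rep) i = 0 := by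
        intro l
        have e1 : ∑ i, L l i * ((t ^ 2 * c) • x.rep - (t' ^ 2 * c') • x'.rep) i
            = ∑ i, L l i * ((t ^ 2 * c) • x.rep) i - ∑ i, L l i * ((t' ^ 2 * c') • x'.rep) i := by
          rw [← Finset.sum_sub_distrib]
          refine Finset.sum_congr rfl fun i _ => ?_
          rw [Pi.sub_apply]
          ring
        rw [e1, sqfin_lin, sqfin_lin]
        have e2 : t ^ 2 * c * ∑ i, L l i * x.rep i = (t * w l) ^ 2 := by
          rw [mul_pow, hw l]; ring
        have e3 : t' ^ 2 * c' * ∑ i, L l i * x'.rep i = (t' * w' l) ^ 2 := by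
          rw [mul_pow, hw' l]; ring
        rw [e2, e3, hww l, sub_self]
      have h0 := sub_eq_zero.mp (hinj _ hL)
      refine sqfin_eq_of_rep x x' ((t ^ 2 * c)⁻¹ * (t' ^ 2 * c')) ?_
      have hne : t ^ 2 * c ≠ 0 := mul_ne_zero (pow_ne_zero 2 ht) hc
      rw [mul_smul, ← h0, smul_smul, inv_mul_cancel₀ hne, one_smul]

end Pool.Agent.Lib.MP_627a61_nt
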