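import Pool.Agent.Lib.MP_627a61_nt.Sq.Stm

/-!
# Piece VER: the Veronese step, from the case of one even degree
-/

open MvPolynomial

namespace Pool.Agent.Lib.MP_627a61_nt

theorem piece_VER (hVERDEG : S_VERDEG) (hVER1 : S_VER1) : S_VER := by
  intro k _ n S hS
  obtain ⟨e, he, S', hS', hz⟩ := hVERDEG k n S hS
  obtain ⟨ν, i1, i2, Φ, ver, h1, h2, h3, h4, h5⟩ := hVER1 k n e he S' hS'
  refine ⟨ν, i1, i2, Φ, ver, h1, h2, h3, ?_, ?_⟩
  · intro x hx hP
    exact h4 x hx ((hz k (RingHom.id k) x hx).1 hP)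
  · intro σ hB
    apply h5 σ
    have hE : points σ S' = points σ S := by
      apply Set.ext
      intro x
      exact (hz ℂ σ x.rep x.rep_nonzero).symm
    rw [hE]
    exact hB

end Pool.Agent.Lib.MP_627a61_nt
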