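import Pool.Agent.Lib.MP_627a61_nt.Sq.Stm

/-!
# Piece VERDEG: equations all of the same even degree
-/

open MvPolynomial

namespace Pool.Agent.Lib.MP_627a61_nt

theorem piece_VERDEG : S_VERDEG := by
  classical
  intro k _ n S hS
  obtain ⟨S', hS', hS'2⟩ := exists_finite_equations S
  have hP : ∀ c : {F // F ∈ S'}, ∃ m, (c.1).IsHomogeneous m := fun c => hS _ (hS' c.2)
  choose δ hδ using hP
  obtain ⟨B, hB⟩ := (Set.finite_range δ).bddAbove
  refine ⟨B + 1, Nat.succ_pos _, Set.range fun q : {F // F ∈ S'} × Fin (n + 1) =>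
    q.1.1 * X q.2 ^ (2 * (B + 1) - δ q.1), ?_, ?_⟩
  · rintro _ ⟨⟨c, i⟩, rfl⟩
    have h0 := (hδ c).mul (isHomogeneous_X_pow (R := k) i (2 * (B + 1) - δ c))
    have h1 : δ c ≤ B := hB ⟨c, rfl⟩
    rwa [show δ c + (2 * (B + 1) - δ c) = 2 * (B + 1) by omega] at h0
  · intro L _ τ x hx
    constructor
    · rintro h _ ⟨⟨c, i⟩, rfl⟩
      have h2 : eval₂ τ x c.1 = 0 := h c.1 (hS' c.2)
      show eval₂ τ x (c.1 * X i ^ (2 * (B + 1) - δ c)) = 0
      rw [eval₂_mul, h2, zero_mul]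
    · intro h
      apply hS'2 L τ x
      intro F hF
      obtain ⟨i, hi⟩ := Function.ne_iff.1 hx
      have h2 : eval₂ τ x (F * X i ^ (2 * (B + 1) - δ ⟨F, hF⟩)) = 0 :=
        h _ ⟨(⟨F, hF⟩, i), rfl⟩
      rw [eval₂_mul, eval₂_pow, eval₂_X] at h2
      exact (mul_eq_zero.1 h2).resolve_right (pow_ne_zero _ hi)

end Pool.Agent.Lib.MP_627a61_nt
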