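import Pool.Agent.Lib.MP_627a61_nt.Sq.Emb
import Pool.Agent.Lib.MP_627a61_nt.Sq.Final
import Pool.Agent.Lib.MP_627a61_nt.Sq.P_CONST
import Pool.Agent.Lib.MP_627a61_nt.Sq.P_KEYALG
import Pool.Agent.Lib.MP_627a61_nt.Sq.P_KEYA
import Pool.Agent.Lib.MP_627a61_nt.Sq.P_PLANE
import Pool.Agent.Lib.MP_627a61_nt.Sq.P_KEYDICH
import Pool.Agent.Lib.MP_627a61_nt.Sq.P_KEY
import Pool.Agent.Lib.MP_627a61_nt.Sq.P_VERDEG
import Pool.Agent.Lib.MP_627a61_nt.Sq.P_VER1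
import Pool.Agent.Lib.MP_627a61_nt.Sq.P_VER
import Pool.Agent.Lib.MP_627a61_nt.Sq.P_DUM
import Pool.Agent.Lib.MP_627a61_nt.Sq.P_GOOD
import Pool.Agent.Lib.MP_627a61_nt.Sq.P_PERT
import Pool.Agent.Lib.MP_627a61_nt.Sq.P_LIM
import Pool.Agent.Lib.MP_627a61_nt.Sq.P_INJ
import Pool.Agent.Lib.MP_627a61_nt.Sq.P_MAT
import Pool.Agent.Lib.MP_627a61_nt.Sq.P_SQFIN
import Pool.Agent.Lib.MP_627a61_nt.Sq.P_NUM

/-!
# Assembly of SQUARES
-/

namespace Pool.Agent.Lib.MP_627a61_nt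

theorem squares_key : S_KEY :=
  piece_KEY (piece_KEYA piece_CONST) (piece_KEYDICH piece_PLANE piece_KEYALG) piece_CONST

theorem squares_same : S_SAME :=
  piece_SAME (piece_EMB (piece_VER piece_VERDEG piece_VER1) piece_DUM squares_key piece_GOOD
    piece_PERT piece_LIM piece_INJ piece_NUM) piece_MAT piece_SQFIN

theorem squares_rat : S_RAT := piece_RAT squares_same

end Pool.Agent.Lib.MP_627a61_nt
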