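import Pool.Agent.Lib.MP_627a61_nt.Sq.Glue

/-!
# Base change of subspaces of matrices
-/

namespace Pool.Agent.Lib.MP_627a61_nt

/-- additive maps `K → k` which are linear over `k` (through `τ`) -/
def Fnl {k K : Type} [Field k] [Field K] (τ : k →+* K) (f : K → k) : Prop :=
  (∀ x y, f (x + y) = f x + f y) ∧ ∀ c x, f (τ c * x) = c * f x

lemma Fnl.map_sum {k K : Type} [Field k] [Field K] {τ : k →+* K} {f : K → k} (h : Fnl τ f)
    {I : Type*} (s : Finset I) (g : I → K) : f (∑ i ∈ s, g i) = ∑ i ∈ s, f (g i) := by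
  classical
  have h0 : f 0 = 0 := by
    have h1 := h.2 0 0
    rwa [map_zero, zero_mul, zero_mul] at h1
  induction s using Finset.induction_on with
  | empty => simpa using h0
  | insert j s hj ih => rw [Finset.sum_insert hj, Finset.sum_insert hj, h.1, ih]

/-- If all linear functionals `K → k` map a matrix over `K` into a subspace over `k`, then it
belongs to the base change of the subspace. -/
lemma mem_ext_of_fnl {k K ν : Type} [Field k] [Field K] [Fintype ν] (τ : k →+* K)
    (Φ : Submodule k (ν → ν → k)) (φ : ν → ν → K)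
    (h : ∀ f : K → k, Fnl τ f → (fun i j => f (φ i j)) ∈ Φ) : φ ∈ ext τ Φ := by
  classical
  letI : Algebra k K := τ.toAlgebra
  let B := Module.Basis.ofVectorSpace k K
  let s := Finset.univ.biUnion fun i : ν => Finset.univ.biUnion fun j : ν =>
    (B.repr (φ i j)).support
  have hs : ∀ i j, (B.repr (φ i j)).support ⊆ s := by
    intro i j β hβ
    exact Finset.mem_biUnion.2 ⟨i, Finset.mem_univ _, Finset.mem_biUnion.2
      ⟨j, Finset.mem_univ _, hβ⟩⟩
  have hφ : φ = ∑ β ∈ s, (B β) • fun i j => τ (B.repr (φ i j) β) := by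
    funext i j
    have h1 : φ i j = ∑ β ∈ s, (B.repr (φ i j) β) • B β := by
      conv_lhs => rw [← B.linearCombination_repr (φ i j)]
      rw [Finsupp.linearCombination_apply, Finsupp.sum]
      refine Finset.sum_subset (hs i j) fun β _ hβ => ?_
      rw [Finsupp.notMem_support_iff] at hβ
      rw [hβ, zero_smul]
    rw [Finset.sum_apply, Finset.sum_apply]
    conv_lhs => rw [h1]
    refine Finset.sum_congr rfl fun β _ => ?_
    rw [Pi.smul_apply, Pi.smul_apply, smul_eq_mul, Algebra.smul_def, mul_comm]
    rfl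
  rw [hφ]
  refine Submodule.sum_mem _ fun β _ => Submodule.smul_mem _ _ (Submodule.subset_span ?_)
  refine ⟨fun i j => B.repr (φ i j) β, ?_, rfl⟩
  refine h (fun x => B.repr x β) ⟨fun x y => ?_, fun c x => ?_⟩
  · show B.repr (x + y) β = B.repr x β + B.repr y β
    rw [map_add, Finsupp.add_apply]
  · have h2 : τ c * x = c • x := by rw [Algebra.smul_def]; rfl
    show B.repr (τ c * x) β = c * B.repr x β
    rw [h2, map_smul, Finsupp.smul_apply, smul_eq_mul]

/-- Linear functionals separate the elements of `K`. -/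
lemma eq_zero_of_fnl {k K : Type} [Field k] [Field K] (τ : k →+* K) (x : K)
    (h : ∀ f : K → k, Fnl τ f → f x = 0) : x = 0 := by
  classical
  letI : Algebra k K := τ.toAlgebra
  let B := Module.Basis.ofVectorSpace k K
  have h1 : B.repr x = 0 := by
    ext β
    rw [Finsupp.zero_apply]
    refine h (fun x => B.repr x β) ⟨fun x y => ?_, fun c x => ?_⟩
    · show B.repr (x + y) β = B.repr x β + B.repr y β
      rw [map_add, Finsupp.add_apply]
    · have h2 : τ c * x = c • x := by rw [Algebra.smul_def]; rfl
      show B.repr (τ c * x) β = c * B.repr x β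
      rw [h2, map_smul, Finsupp.smul_apply, smul_eq_mul]
  exact (LinearEquiv.map_eq_zero_iff B.repr).1 h1

end Pool.Agent.Lib.MP_627a61_nt
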