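import Pool.Agent.Lib.MP_627a61_nt.BrodyCor

/-!
# Algebra of the Buechi surface

Vectors `w : Fin 9 → ℂ` whose squares `w t ^ 2` are the values `q t`, `t = 0, ..., 8`, of a
polynomial `q` of degree at most two.
-/

open scoped LinearAlgebra.Projectivization Topology
open Filter

namespace Pool.Agent.Lib.MP_627a61_nt.Sq

/-- components of the Wronskian -/
def om (w v : Fin 9 → ℂ) (j l : Fin 9) : ℂ := w j * v l - w l * v j

/-- the squares -/
def sqv (w : Fin 9 → ℂ) : Fin 9 → ℂ := fun t => w t ^ 2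

/-- derivative of the squares -/
def dsq (w v : Fin 9 → ℂ) : Fin 9 → ℂ := fun t => 2 * w t * v t

/-- constant coefficient of the quadratic polynomial through the first three values -/
def ca (s : Fin 9 → ℂ) : ℂ := s 0

/-- leading coefficient of the quadratic polynomial through the first three values -/
noncomputable def cc (s : Fin 9 → ℂ) : ℂ := (s 2 - 2 * s 1 + s 0) / 2

/-- half of the middle coefficient of the quadratic polynomial through the first three values -/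
noncomputable def cb (s : Fin 9 → ℂ) : ℂ := (s 1 - ca s - cc s) / 2

/-- the values of a polynomial of degree at most two -/
def IsQ (s : Fin 9 → ℂ) : Prop :=
  ∀ t : Fin 9, s t = ca s + 2 * ((t : ℕ) : ℂ) * cb s + ((t : ℕ) : ℂ) ^ 2 * cc s

lemma isQ_of {s : Fin 9 → ℂ}
    (h : ∃ a b c : ℂ, ∀ t : Fin 9, s t = a + 2 * ((t : ℕ) : ℂ) * b + ((t : ℕ) : ℂ) ^ 2 * c) :
    IsQ s := by
  obtain ⟨a, b, c, h⟩ := h
  have h0 := h 0
  have h1 := h 1
  have h2 := h 2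
  have e2 : ((2 : Fin 9) : ℕ) = 2 := rfl
  have e1 : ((1 : Fin 9) : ℕ) = 1 := rfl
  have e0 : ((0 : Fin 9) : ℕ) = 0 := rfl
  rw [e0] at h0
  rw [e1] at h1
  rw [e2] at h2
  push_cast at h0 h1 h2
  have ha : ca s = a := by
    simp only [ca]
    linear_combination h0
  have hc : cc s = c := by
    simp only [cc]
    linear_combination h2 / 2 - h1 + h0 / 2
  have hb : cb s = b := by
    simp only [cb, ha, hc]
    linear_combination h1 / 2
  intro t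
  rw [ha, hb, hc]
  exact h t

/-- the resultant of the two polynomials with values `s`, `s'` -/
noncomputable def Wr (s s' : Fin 9 → ℂ) : ℂ :=
  (ca s * cc s' - ca s' * cc s) ^ 2
    - 4 * (ca s * cb s' - ca s' * cb s) * (cb s * cc s' - cb s' * cc s)

/-- the quotient of the resultant by `w j * w l * w m` -/
noncomputable def Uf (w v : Fin 9 → ℂ) (j l m : Fin 9) : ℂ :=
  4 * (w j * om w v j l * om w v j m
        / ((((l : ℕ) : ℂ) - ((j : ℕ) : ℂ)) ^ 2 * (((m : ℕ) : ℂ) - ((j : ℕ) : ℂ)) ^ 2)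
      - w l * om w v j l * om w v l m
        / ((((l : ℕ) : ℂ) - ((j : ℕ) : ℂ)) ^ 2 * (((m : ℕ) : ℂ) - ((l : ℕ) : ℂ)) ^ 2)
      + w m * om w v j m * om w v l m
        / ((((m : ℕ) : ℂ) - ((j : ℕ) : ℂ)) ^ 2 * (((m : ℕ) : ℂ) - ((l : ℕ) : ℂ)) ^ 2))

lemma W_ident {J L M : ℂ} (hJL : L - J ≠ 0) (hJM : M - J ≠ 0) (hLM : M - L ≠ 0)
    (a b c a' b' c' : ℂ) {E1 E2 E3 : ℂ}
    (h1 : E1 = ((a + 2 * J * b + J ^ 2 * c) * (a' + 2 * L * b' + L ^ 2 * c')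
      - (a + 2 * L * b + L ^ 2 * c) * (a' + 2 * J * b' + J ^ 2 * c')) / 2)
    (h2 : E2 = ((a + 2 * J * b + J ^ 2 * c) * (a' + 2 * M * b' + M ^ 2 * c')
      - (a + 2 * M * b + M ^ 2 * c) * (a' + 2 * J * b' + J ^ 2 * c')) / 2)
    (h3 : E3 = ((a + 2 * L * b + L ^ 2 * c) * (a' + 2 * M * b' + M ^ 2 * c')
      - (a + 2 * M * b + M ^ 2 * c) * (a' + 2 * L * b' + L ^ 2 * c')) / 2) :
    4 * (E1 * E2 / ((L - J) ^ 2 * (M - J) ^ 2) - E1 * E3 / ((L - J) ^ 2 * (M - L) ^ 2)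
      + E2 * E3 / ((M - J) ^ 2 * (M - L) ^ 2)) =
    (a * c' - a' * c) ^ 2 - 4 * (a * b' - a' * b) * (b * c' - b' * c) := by
  have k1 : E1 = (L - J) * ((a * b' - a' * b) + (J + L) / 2 * (a * c' - a' * c)
      + J * L * (b * c' - b' * c)) := by rw [h1]; ring
  have k2 : E2 = (M - J) * ((a * b' - a' * b) + (J + M) / 2 * (a * c' - a' * c)
      + J * M * (b * c' - b' * c)) := by rw [h2]; ring
  have k3 : E3 = (M - L) * ((a * b' - a' * b) + (L + M) / 2 * (a * c' - a' * c)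
      + L * M * (b * c' - b' * c)) := by rw [h3]; ring
  rw [k1, k2, k3]
  generalize a * b' - a' * b = P
  generalize a * c' - a' * c = Q
  generalize b * c' - b' * c = R
  field_simp
  ring

lemma cast_sub_ne {j l : Fin 9} (h : j ≠ l) : ((l : ℕ) : ℂ) - ((j : ℕ) : ℂ) ≠ 0 := by
  rw [sub_ne_zero]
  intro h1
  exact h (Fin.ext (Nat.cast_injective h1.symm))

lemma W_eq {w v : Fin 9 → ℂ} (hq : IsQ (sqv w)) (hq' : IsQ (dsq w v)) {j l m : Fin 9}
    (hjl : j ≠ l) (hjm : j ≠ m) (hlm : l ≠ m) :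
    Wr (sqv w) (dsq w v) = w j * w l * w m * Uf w v j l m := by
  have key : ∀ x y : Fin 9, w x * w y * om w v x y =
      ((ca (sqv w) + 2 * ((x : ℕ) : ℂ) * cb (sqv w) + ((x : ℕ) : ℂ) ^ 2 * cc (sqv w))
        * (ca (dsq w v) + 2 * ((y : ℕ) : ℂ) * cb (dsq w v) + ((y : ℕ) : ℂ) ^ 2 * cc (dsq w v))
      - (ca (sqv w) + 2 * ((y : ℕ) : ℂ) * cb (sqv w) + ((y : ℕ) : ℂ) ^ 2 * cc (sqv w))
        * (ca (dsq w v) + 2 * ((x : ℕ) : ℂ) * cb (dsq w v)
          + ((x : ℕ) : ℂ) ^ 2 * cc (dsq w v))) / 2 := by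
    intro x y
    rw [← hq x, ← hq y, ← hq' x, ← hq' y]
    simp only [sqv, dsq, om]
    ring
  have h := W_ident (cast_sub_ne hjl) (cast_sub_ne hjm) (cast_sub_ne hlm) _ _ _ _ _ _
    (key j l) (key j m) (key l m)
  unfold Wr
  rw [← h]
  unfold Uf
  ring

lemma om_scale (w v : Fin 9 → ℂ) (μ ν : ℂ) (j l : Fin 9) :
    om (μ • w) (μ • v + ν • w) j l = μ ^ 2 * om w v j l := by
  simp only [om, Pi.smul_apply, Pi.add_apply, smul_eq_mul]
  ring

lemma Uf_scale (w v : Fin 9 → ℂ) (μ ν : ℂ) (j l m : Fin 9) :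
    Uf (μ • w) (μ • v + ν • w) j l m = μ ^ 5 * Uf w v j l m := by
  simp only [Uf, om_scale, Pi.smul_apply, smul_eq_mul]
  ring

/-- Euclidean norm -/
noncomputable def nrm (w : Fin 9 → ℂ) : ℝ := ‖(WithLp.toLp 2 w : EuclideanSpace ℂ (Fin 9))‖

lemma nrm_nonneg (w : Fin 9 → ℂ) : 0 ≤ nrm w := norm_nonneg _

lemma nrm_sq (w : Fin 9 → ℂ) : nrm w ^ 2 = ∑ t, ‖w t‖ ^ 2 := by
  rw [nrm, EuclideanSpace.norm_sq_eq]

lemma norm_le_nrm (w : Fin 9 → ℂ) (t : Fin 9) : ‖w t‖ ≤ nrm w := by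
  have := PiLp.norm_apply_le (WithLp.toLp 2 w : EuclideanSpace ℂ (Fin 9)) t
  exact this

lemma nrm_smul (μ : ℂ) (w : Fin 9 → ℂ) : nrm (μ • w) = ‖μ‖ * nrm w := by
  unfold nrm
  rw [WithLp.toLp_smul, norm_smul]

lemma nrm_pos {w : Fin 9 → ℂ} (h : w ≠ 0) : 0 < nrm w := by
  unfold nrm
  rw [norm_pos_iff]
  intro h1
  apply h
  have := congrArg (WithLp.ofLp) h1
  simpa using this

lemma norm_om_le (w v : Fin 9 → ℂ) (t : ℂ) (j l : Fin 9) :
    ‖om w v j l‖ ≤ 2 * nrm w * nrm (v - t • w) := by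
  have h : om w v j l = w j * (v - t • w) l - w l * (v - t • w) j := by
    simp only [om, Pi.sub_apply, Pi.smul_apply, smul_eq_mul]
    ring
  rw [h]
  calc _ ≤ ‖w j * (v - t • w) l‖ + ‖w l * (v - t • w) j‖ := norm_sub_le _ _
    _ ≤ nrm w * nrm (v - t • w) + nrm w * nrm (v - t • w) := by
        rw [norm_mul, norm_mul]
        gcongr
        · exact nrm_nonneg _
        · exact norm_le_nrm _ _
        · exact norm_le_nrm _ _
        · exact nrm_nonneg _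
        · exact norm_le_nrm _ _
        · exact norm_le_nrm _ _
    _ = _ := by ring

lemma one_le_norm_cast_sub {j l : Fin 9} (h : j ≠ l) :
    1 ≤ ‖((l : ℕ) : ℂ) - ((j : ℕ) : ℂ)‖ := by
  have h1 : ((l : ℕ) : ℂ) - ((j : ℕ) : ℂ) = (((l : ℕ) : ℤ) - ((j : ℕ) : ℤ) : ℤ) := by push_cast; ring
  rw [h1, Complex.norm_intCast]
  have h2 : (((l : ℕ) : ℤ) - ((j : ℕ) : ℤ)) ≠ 0 := by
    intro h3
    apply h
    apply Fin.ext
    omega
  have h3 : 1 ≤ |((l : ℕ) : ℤ) - ((j : ℕ) : ℤ)| := Int.one_le_abs h2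
  exact_mod_cast h3

lemma norm_cast_sub_le (j l : Fin 9) : ‖((l : ℕ) : ℂ) - ((j : ℕ) : ℂ)‖ ≤ 8 := by
  have h1 : ((l : ℕ) : ℂ) - ((j : ℕ) : ℂ) = (((l : ℕ) : ℤ) - ((j : ℕ) : ℤ) : ℤ) := by push_cast; ring
  rw [h1, Complex.norm_intCast]
  have h3 : |((l : ℕ) : ℤ) - ((j : ℕ) : ℤ)| ≤ 8 := by
    rw [abs_le]
    have := l.2
    have := j.2
    constructor <;> omega
  exact_mod_cast h3

lemma norm_Uf_le (w v : Fin 9 → ℂ) (t : ℂ) {j l m : Fin 9}
    (hjl : j ≠ l) (hjm : j ≠ m) (hlm : l ≠ m) :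
    ‖Uf w v j l m‖ ≤ 48 * nrm w ^ 3 * nrm (v - t • w) ^ 2 := by
  have hden : ∀ {x y : ℂ}, 1 ≤ ‖x‖ → 1 ≤ ‖y‖ → 1 ≤ ‖x ^ 2 * y ^ 2‖ := by
    intro x y hx hy
    rw [norm_mul, norm_pow, norm_pow]
    nlinarith [sq_nonneg (‖x‖ * ‖y‖), one_le_pow₀ hx (n := 2), one_le_pow₀ hy (n := 2)]
  have hterm : ∀ (x y z u s : Fin 9) (d : ℂ), 1 ≤ ‖d‖ →
      ‖w x * om w v y z * om w v u s / d‖ ≤ nrm w * (2 * nrm w * nrm (v - t • w)) ^ 2 := by
    intro x y z u s d hd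
    rw [norm_div, norm_mul, norm_mul]
    have h0 : 0 ≤ 2 * nrm w * nrm (v - t • w) :=
      mul_nonneg (mul_nonneg (by norm_num) (nrm_nonneg _)) (nrm_nonneg _)
    have h1 : ‖w x‖ * ‖om w v y z‖ * ‖om w v u s‖ ≤
        nrm w * (2 * nrm w * nrm (v - t • w)) * (2 * nrm w * nrm (v - t • w)) := by
      gcongr
      · exact mul_nonneg (nrm_nonneg _) h0
      · exact nrm_nonneg _
      · exact norm_le_nrm _ _
      · exact norm_om_le _ _ _ _ _
      · exact norm_om_le _ _ _ _ _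
    have h2 : 0 ≤ ‖w x‖ * ‖om w v y z‖ * ‖om w v u s‖ := by positivity
    calc _ ≤ ‖w x‖ * ‖om w v y z‖ * ‖om w v u s‖ / 1 := by gcongr
      _ ≤ _ := by rw [div_one]; exact h1.trans_eq (by ring)
  unfold Uf
  rw [norm_mul]
  have e4 : ‖(4 : ℂ)‖ = 4 := by norm_num
  rw [e4]
  have b1 := one_le_norm_cast_sub hjl
  have b2 := one_le_norm_cast_sub hjm
  have b3 := one_le_norm_cast_sub hlm
  have t1 := hterm j j l j m _ (hden b1 b2)
  have t2 := hterm l j l l m _ (hden b1 b3)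
  have t3 := hterm m j m l m _ (hden b2 b3)
  refine (mul_le_mul_of_nonneg_left ((norm_add_le _ _).trans
    (add_le_add ((norm_sub_le _ _).trans (add_le_add t1 t2)) t3)) (by norm_num)).trans_eq ?_
  ring

/-! ### Lower bound -/

lemma interp {J L M : ℂ} (hJL : L - J ≠ 0) (hJM : M - J ≠ 0) (hLM : M - L ≠ 0) (a b c T : ℂ) :
    a + 2 * T * b + T ^ 2 * c =
      (a + 2 * J * b + J ^ 2 * c) * ((T - L) * (T - M) / ((L - J) * (M - J)))
      - (a + 2 * L * b + L ^ 2 * c) * ((T - J) * (T - M) / ((L - J) * (M - L)))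
      + (a + 2 * M * b + M ^ 2 * c) * ((T - J) * (T - L) / ((M - J) * (M - L))) := by
  field_simp
  ring

/-- six of the nine components are not small -/
lemma exists_triple {w : Fin 9 → ℂ} (hw : w ≠ 0) (hq : IsQ (sqv w)) :
    ∃ j l m : Fin 9, j ≠ l ∧ j ≠ m ∧ l ≠ m ∧
      ∀ t, t ≠ j → t ≠ l → t ≠ m → nrm w ≤ 50 * ‖w t‖ := by
  classical
  have hn := nrm_pos hw
  set S : Finset (Fin 9) := Finset.univ.filter (fun t => 50 * ‖w t‖ < nrm w) with hS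
  have hcard : S.card ≤ 2 := by
    by_contra hcon
    push Not at hcon
    obtain ⟨j, hj, l, hl, m, hm, hjl, hjm, hlm⟩ := Finset.two_lt_card.1 hcon
    rw [hS, Finset.mem_filter] at hj hl hm
    have hfrac : ∀ {x y u v : ℂ}, ‖x‖ ≤ 8 → ‖y‖ ≤ 8 → 1 ≤ ‖u‖ → 1 ≤ ‖v‖ →
        ‖x * y / (u * v)‖ ≤ 64 := by
      intro x y u v hx hy hu hv
      rw [norm_div, norm_mul, norm_mul]
      have h1 : 1 ≤ ‖u‖ * ‖v‖ := one_le_mul_of_one_le_of_one_le hu hv
      rw [div_le_iff₀ (by linarith)]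
      have h2 : ‖x‖ * ‖y‖ ≤ 8 * 8 := by gcongr
      nlinarith
    have hsm : ∀ {t : Fin 9}, 50 * ‖w t‖ < nrm w → ‖sqv w t‖ ≤ nrm w ^ 2 / 2500 := by
      intro t ht
      simp only [sqv, norm_pow]
      have h1 : ‖w t‖ ≤ nrm w / 50 := by linarith
      calc ‖w t‖ ^ 2 ≤ (nrm w / 50) ^ 2 := by gcongr
        _ = _ := by ring
    have hall : ∀ s : Fin 9, ‖w s‖ ^ 2 ≤ 192 * (nrm w ^ 2 / 2500) := by
      intro s
      have h1 : sqv w s =
          sqv w j * ((((s : ℕ) : ℂ) - ((l : ℕ) : ℂ)) * (((s : ℕ) : ℂ) - ((m : ℕ) : ℂ))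
            / ((((l : ℕ) : ℂ) - ((j : ℕ) : ℂ)) * (((m : ℕ) : ℂ) - ((j : ℕ) : ℂ))))
          - sqv w l * ((((s : ℕ) : ℂ) - ((j : ℕ) : ℂ)) * (((s : ℕ) : ℂ) - ((m : ℕ) : ℂ))
            / ((((l : ℕ) : ℂ) - ((j : ℕ) : ℂ)) * (((m : ℕ) : ℂ) - ((l : ℕ) : ℂ))))
          + sqv w m * ((((s : ℕ) : ℂ) - ((j : ℕ) : ℂ)) * (((s : ℕ) : ℂ) - ((l : ℕ) : ℂ))
            / ((((m : ℕ) : ℂ) - ((j : ℕ) : ℂ)) * (((m : ℕ) : ℂ) - ((l : ℕ) : ℂ)))) := by
        rw [hq s, hq j, hq l, hq m]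
        exact interp (cast_sub_ne hjl) (cast_sub_ne hjm) (cast_sub_ne hlm) _ _ _ _
      have h2 : ‖w s‖ ^ 2 = ‖sqv w s‖ := by simp only [sqv, norm_pow]
      rw [h2, h1]
      have f1 := hfrac (norm_cast_sub_le l s) (norm_cast_sub_le m s)
        (one_le_norm_cast_sub hjl) (one_le_norm_cast_sub hjm)
      have f2 := hfrac (norm_cast_sub_le j s) (norm_cast_sub_le m s)
        (one_le_norm_cast_sub hjl) (one_le_norm_cast_sub hlm)
      have f3 := hfrac (norm_cast_sub_le j s) (norm_cast_sub_le l s)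
        (one_le_norm_cast_sub hjm) (one_le_norm_cast_sub hlm)
      have g1 := hsm hj.2
      have g2 := hsm hl.2
      have g3 := hsm hm.2
      have h3 : ∀ {x y : ℂ}, ‖x‖ ≤ nrm w ^ 2 / 2500 → ‖y‖ ≤ 64 →
          ‖x * y‖ ≤ nrm w ^ 2 / 2500 * 64 := by
        intro x y hx hy
        rw [norm_mul]
        gcongr
      refine ((norm_add_le _ _).trans
        (add_le_add ((norm_sub_le _ _).trans (add_le_add (h3 g1 f1) (h3 g2 f2)))
          (h3 g3 f3))).trans_eq ?_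
      ring
    have h4 : nrm w ^ 2 ≤ 9 * (192 * (nrm w ^ 2 / 2500)) := by
      rw [nrm_sq]
      calc ∑ t, ‖w t‖ ^ 2 ≤ ∑ _t : Fin 9, 192 * (nrm w ^ 2 / 2500) :=
            Finset.sum_le_sum fun t _ => hall t
        _ = 9 * (192 * ((∑ t, ‖w t‖ ^ 2) / 2500)) := by
            rw [Finset.sum_const, Finset.card_univ, Fintype.card_fin, nrm_sq]
            simp
    nlinarith [sq_pos_of_pos hn]
  obtain ⟨T, hST, hT⟩ := Finset.exists_superset_card_eq (n := 3) (s := S) (by omega)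
    (by simp)
  obtain ⟨j, l, m, hjl, hjm, hlm, rfl⟩ := Finset.card_eq_three.1 hT
  refine ⟨j, l, m, hjl, hjm, hlm, fun t h1 h2 h3 => ?_⟩
  by_contra h4
  push Not at h4
  have h5 : t ∈ S := by
    rw [hS, Finset.mem_filter]
    exact ⟨Finset.mem_univ _, h4⟩
  have h6 := hST h5
  simp only [Finset.mem_insert, Finset.mem_singleton] at h6
  tauto

/-- the product of the components with index different from `j`, `l`, `m` -/
def PP (w : Fin 9 → ℂ) (j l m : Fin 9) : ℂ := ∏ t ∈ ({j, l, m} : Finset (Fin 9))ᶜ, w t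

lemma card_compl {j l m : Fin 9} (hjl : j ≠ l) (hjm : j ≠ m) (hlm : l ≠ m) :
    (({j, l, m} : Finset (Fin 9))ᶜ).card = 6 := by
  rw [Finset.card_compl, Finset.card_eq_three.2 ⟨j, l, m, hjl, hjm, hlm, rfl⟩]
  simp

lemma prod_eq (w : Fin 9 → ℂ) {j l m : Fin 9} (hjl : j ≠ l) (hjm : j ≠ m) (hlm : l ≠ m) :
    ∏ t, w t = w j * w l * w m * PP w j l m := by
  unfold PP
  rw [← Finset.prod_mul_prod_compl ({j, l, m} : Finset (Fin 9)) w]
  congr 1
  rw [Finset.prod_insert (by simp [hjl, hjm]), Finset.prod_insert (by simp [hlm]),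
    Finset.prod_singleton, mul_assoc]

lemma PP_smul (w : Fin 9 → ℂ) (μ : ℂ) {j l m : Fin 9} (hjl : j ≠ l) (hjm : j ≠ m)
    (hlm : l ≠ m) : PP (μ • w) j l m = μ ^ 6 * PP w j l m := by
  unfold PP
  simp only [Pi.smul_apply, smul_eq_mul]
  rw [Finset.prod_mul_distrib, Finset.prod_const, card_compl hjl hjm hlm]

lemma PP_lower {w : Fin 9 → ℂ} {j l m : Fin 9} (hjl : j ≠ l) (hjm : j ≠ m) (hlm : l ≠ m)
    (h : ∀ t, t ≠ j → t ≠ l → t ≠ m → nrm w ≤ 50 * ‖w t‖) :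
    (nrm w / 50) ^ 6 ≤ ‖PP w j l m‖ := by
  unfold PP
  rw [norm_prod]
  calc (nrm w / 50) ^ 6 = ∏ _t ∈ ({j, l, m} : Finset (Fin 9))ᶜ, (nrm w / 50) := by
        rw [Finset.prod_const, card_compl hjl hjm hlm]
    _ ≤ _ := by
        refine Finset.prod_le_prod (fun t _ => by have := nrm_nonneg w; positivity) ?_
        intro t ht
        simp only [Finset.mem_compl, Finset.mem_insert, Finset.mem_singleton, not_or] at ht
        have := h t ht.1 ht.2.1 ht.2.2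
        linarith

/-- the function `W / ∏ w t` in the form which is regular when only `w j`, `w l`, `w m` vanish -/
noncomputable def Gf (w v : Fin 9 → ℂ) (j l m : Fin 9) : ℂ := Uf w v j l m / PP w j l m

lemma Gf_scale (w v : Fin 9 → ℂ) {μ : ℂ} (hμ : μ ≠ 0) (ν : ℂ) {j l m : Fin 9} (hjl : j ≠ l)
    (hjm : j ≠ m) (hlm : l ≠ m) : Gf (μ • w) (μ • v + ν • w) j l m * μ ^ 1 = Gf w v j l m := by
  unfold Gf
  rw [Uf_scale, PP_smul w μ hjl hjm hlm]
  by_cases hP : PP w j l m = 0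
  · rw [hP]
    simp
  · field_simp

lemma Gf_bound {w : Fin 9 → ℂ} (hw : w ≠ 0) (v : Fin 9 → ℂ) (t : ℂ) {j l m : Fin 9}
    (hjl : j ≠ l) (hjm : j ≠ m) (hlm : l ≠ m)
    (h : ∀ t, t ≠ j → t ≠ l → t ≠ m → nrm w ≤ 50 * ‖w t‖) :
    ‖Gf w v j l m‖ * nrm w ^ 1 ≤ (48 * 50 ^ 6) * (nrm (v - t • w) / nrm w) ^ 2 := by
  have hn := nrm_pos hw
  have h1 := norm_Uf_le w v t hjl hjm hlm
  have h2 := PP_lower hjl hjm hlm h
  have h3 : 0 < (nrm w / 50) ^ 6 := by positivity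
  unfold Gf
  rw [norm_div, pow_one]
  calc ‖Uf w v j l m‖ / ‖PP w j l m‖ * nrm w
      ≤ (48 * nrm w ^ 3 * nrm (v - t • w) ^ 2) / (nrm w / 50) ^ 6 * nrm w := by
        gcongr
    _ = _ := by
        field_simp

lemma Gf_eq {w v : Fin 9 → ℂ} (hq : IsQ (sqv w)) (hq' : IsQ (dsq w v)) (h0 : ∀ t, w t ≠ 0)
    {j l m : Fin 9} (hjl : j ≠ l) (hjm : j ≠ m) (hlm : l ≠ m) :
    Gf w v j l m = Wr (sqv w) (dsq w v) / ∏ t, w t := by
  have hP : PP w j l m ≠ 0 := by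
    unfold PP
    exact Finset.prod_ne_zero_iff.2 fun t _ => h0 t
  rw [W_eq hq hq' hjl hjm hlm, prod_eq w hjl hjm hlm]
  unfold Gf
  have := h0 j
  have := h0 l
  have := h0 m
  field_simp

end Pool.Agent.Lib.MP_627a61_nt.Sq
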