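import Pool.Agent.Lib.MP_627a61_nt.Sq.Stm

/-!
# Dummy variables, over all extension fields
(the auxiliary lemmas are those of `P_DUM`)
-/

open scoped LinearAlgebra.Projectivization Topology
open Filter MvPolynomial

namespace Pool.Agent.Lib.MP_627a61_nt

/-- a subspace of given dimension between two subspaces -/
private lemma dum_mid {k V : Type*} [Field k] [AddCommGroup V] [Module k V] [Module.Finite k V]
    (A B : Submodule k V) (hAB : A ≤ B) (n : ℕ) (h1 : Module.finrank k A ≤ n)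
    (h2 : n ≤ Module.finrank k B) :
    ∃ C : Submodule k V, A ≤ C ∧ C ≤ B ∧ Module.finrank k C = n := by
  induction n, h1 using Nat.le_induction with
  | base => exact ⟨A, le_rfl, hAB, rfl⟩
  | succ n hn ih =>
    obtain ⟨C, hAC, hCB, hC⟩ := ih (by omega)
    have hlt : ¬ B ≤ C := by
      intro h
      have := Submodule.finrank_mono h
      omega
    obtain ⟨v, hvB, hvC⟩ := SetLike.not_le_iff_exists.1 hlt
    refine ⟨C ⊔ Submodule.span k {v}, hAC.trans le_sup_left,
      sup_le hCB ((Submodule.span_singleton_le_iff_mem v B).2 hvB), ?_⟩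
    rw [Submodule.finrank_sup_span_singleton hvC, hC]

section defs

variable {ν I K : Type} [Field K]

/-- extension by zero -/
private def dumEmb (ν I K : Type) [Field K] :
    (ν → ν → K) →ₗ[K] (ν ⊕ I → ν ⊕ I → K) where
  toFun φ := fun i j => match i, j with
    | Sum.inl p, Sum.inl q => φ p q
    | _, _ => 0
  map_add' φ φ' := by
    funext i j
    rcases i with p | p <;> rcases j with q | q <;> simp
  map_smul' c φ := by
    funext i j
    rcases i with p | p <;> rcases j with q | q <;> simp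

/-- the largest space -/
private def dumMax (Φ : Submodule K (ν → ν → K)) (I : Type) :
    Submodule K (ν ⊕ I → ν ⊕ I → K) where
  carrier := {φ | (∀ i j, φ i j = φ j i) ∧ (fun p q => φ (Sum.inl p) (Sum.inl q)) ∈ Φ ∧
    ∀ y : I, φ (Sum.inr y) (Sum.inr y) = 0}
  add_mem' := by
    rintro φ φ' ⟨a1, a2, a3⟩ ⟨b1, b2, b3⟩
    refine ⟨fun i j => ?_, Φ.add_mem a2 b2, fun y => ?_⟩
    · show φ i j + φ' i j = φ j i + φ' j i
      rw [a1, b1]
    · show φ _ _ + φ' _ _ = 0
      rw [a3, b3, add_zero]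
  zero_mem' := ⟨fun _ _ => rfl, Φ.zero_mem, fun _ => rfl⟩
  smul_mem' := by
    rintro c φ ⟨a1, a2, a3⟩
    refine ⟨fun i j => ?_, Φ.smul_mem c a2, fun y => ?_⟩
    · show c * φ i j = c * φ j i
      rw [a1]
    · show c * φ _ _ = 0
      rw [a3, mul_zero]

/-- matrices on the new variables -/
private def dumT (ν K : Type) [Field K] (a : ℕ) : (Fin a → Fin a → K) →ₗ[K]
    (ν ⊕ (Fin a ⊕ Fin a) → ν ⊕ (Fin a ⊕ Fin a) → K) where
  toFun m := fun i j => match i, j with
    | Sum.inr (Sum.inl p), Sum.inr (Sum.inr q) => m p q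
    | Sum.inr (Sum.inr q), Sum.inr (Sum.inl p) => m p q
    | _, _ => 0
  map_add' φ φ' := by
    funext i j
    rcases i with p | p | p <;> rcases j with q | q | q <;> simp
  map_smul' c φ := by
    funext i j
    rcases i with p | p | p <;> rcases j with q | q | q <;> simp

end defs

private lemma dum_min_le {ν K : Type} [Field K] (Φ : Submodule K (ν → ν → K)) (hΦ : Symm Φ)
    (I : Type) : Φ.map (dumEmb ν I K) ≤ dumMax Φ I := by
  rintro _ ⟨φ, hφ, rfl⟩
  refine ⟨?_, hφ, fun y => rfl⟩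
  intro i j
  rcases i with p | p <;> rcases j with q | q
  · exact hΦ φ hφ p q
  · rfl
  · rfl
  · rfl

private lemma dum_T_le {ν K : Type} [Field K] (Φ : Submodule K (ν → ν → K)) (a : ℕ) :
    LinearMap.range (dumT ν K a) ≤ dumMax Φ (Fin a ⊕ Fin a) := by
  rintro _ ⟨m, rfl⟩
  refine ⟨?_, Φ.zero_mem, ?_⟩
  · intro i j
    rcases i with p | p | p <;> rcases j with q | q | q <;> rfl
  · rintro (y | y) <;> rfl

private lemma dum_T_inj (ν K : Type) [Field K] (a : ℕ) : Function.Injective (dumT ν K a) := by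
  intro m m' h
  funext p q
  exact congrFun (congrFun h (Sum.inr (Sum.inl p))) (Sum.inr (Sum.inr q))

private lemma dum_fr (K ν : Type) [Field K] [Fintype ν] :
    Module.finrank K (ν → ν → K) = Fintype.card ν ^ 2 := by
  rw [Module.finrank_pi_fintype]
  simp [pow_two]

/-- elements of the base change -/
private lemma dum_ext {k K ν I : Type} [Field k] [Field K] (σ : k →+* K)
    (Φ : Submodule k (ν → ν → k)) (C : Submodule k (ν ⊕ I → ν ⊕ I → k)) (hC : C ≤ dumMax Φ I)
    (φ : ν ⊕ I → ν ⊕ I → K) (hφ : φ ∈ ext σ C) :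
    (fun p q => φ (Sum.inl p) (Sum.inl q)) ∈ ext σ Φ ∧
      ∀ y : I, φ (Sum.inr y) (Sum.inr y) = 0 := by
  unfold ext at hφ
  induction hφ using Submodule.span_induction with
  | mem x hx =>
    obtain ⟨φ₀, h0, rfl⟩ := hx
    obtain ⟨-, h2, h3⟩ := hC h0
    refine ⟨Submodule.subset_span ⟨_, h2, rfl⟩, fun y => ?_⟩
    show σ (φ₀ _ _) = 0
    rw [h3, map_zero]
  | zero => exact ⟨Submodule.zero_mem _, fun _ => rfl⟩
  | add x y _ _ hx hy =>
    refine ⟨Submodule.add_mem _ hx.1 hy.1, fun i => ?_⟩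
    show x _ _ + y _ _ = 0
    rw [hx.2, hy.2, add_zero]
  | smul c x _ hx =>
    refine ⟨Submodule.smul_mem _ c hx.1, fun i => ?_⟩
    show c * x _ _ = 0
    rw [hx.2, mul_zero]

private lemma dum_brody {k ν I : Type} [Field k] [Fintype ν] [Fintype I] (σ : k →+* ℂ)
    (Φ : Submodule k (ν → ν → k)) (C : Submodule k (ν ⊕ I → ν ⊕ I → k)) (hC : C ≤ dumMax Φ I)
    (hB : BrodyHyperbolic (sqSet (ext σ Φ))) : BrodyHyperbolic (sqSet (ext σ C)) := by
  intro ψ hψ hmem
  have h0 : ∀ z (y : I), (ψ z).rep (Sum.inr y) = 0 := by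
    intro z y
    have h1 := (dum_ext σ Φ C hC _ (hmem z)).2 y
    exact mul_self_eq_zero.1 h1
  have hne : ∀ z, (fun p : ν => (ψ z).rep (Sum.inl p)) ≠ 0 := by
    intro z h
    apply (ψ z).rep_nonzero
    funext i
    rcases i with p | p
    · exact congrFun h p
    · exact h0 z p
  let L : (ν ⊕ I → ℂ) →L[ℂ] (ν → ℂ) :=
    ContinuousLinearMap.pi fun p => ContinuousLinearMap.proj (Sum.inl p)
  obtain ⟨χ, hχ, hval, -⟩ := exists_division hψ (fun x => L x) (fun x => L.analyticAt x) 1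
    (by intro t x; rw [pow_one, map_smul]) (z₀ := 0) (hne 0)
  have hχm : ∀ z, χ z ∈ sqSet (ext σ Φ) := by
    intro z
    obtain ⟨t, ht, hrep⟩ := exists_rep_eq (hval z (hne z))
    show sq (χ z).rep ∈ ext σ Φ
    have h1 : sq (χ z).rep = (t * t) • fun (p q : ν) =>
        sq (ψ z).rep (Sum.inl p) (Sum.inl q) := by
      rw [hrep]
      funext p q
      show (t * (ψ z).rep (Sum.inl p)) * (t * (ψ z).rep (Sum.inl q)) =
        (t * t) * ((ψ z).rep (Sum.inl p) * (ψ z).rep (Sum.inl q))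
      ring
    rw [h1]
    exact Submodule.smul_mem _ _ (dum_ext σ Φ C hC _ (hmem z)).1
  intro z w
  have h1 := hB χ hχ hχm z w
  rw [hval z (hne z), hval w (hne w), Projectivization.mk_eq_mk_iff'] at h1
  obtain ⟨t, ht⟩ := h1
  rw [← (ψ z).mk_rep, ← (ψ w).mk_rep, Projectivization.mk_eq_mk_iff']
  refine ⟨t, ?_⟩
  funext i
  rcases i with p | p
  · exact congrFun ht p
  · show t * (ψ w).rep (Sum.inr p) = (ψ z).rep (Sum.inr p)
    rw [h0, h0, mul_zero]

/-- extension by zero and base change -/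
private lemma dum_emb_ext {k K ν I : Type} [Field k] [Field K] (τ : k →+* K)
    (Φ : Submodule k (ν → ν → k)) (C : Submodule k (ν ⊕ I → ν ⊕ I → k))
    (hC : Φ.map (dumEmb ν I k) ≤ C) (φ : ν → ν → K) (hφ : φ ∈ ext τ Φ) :
    dumEmb ν I K φ ∈ ext τ C := by
  unfold ext at hφ
  induction hφ using Submodule.span_induction with
  | mem x hx =>
    obtain ⟨φ₀, h0, rfl⟩ := hx
    refine Submodule.subset_span ⟨dumEmb ν I k φ₀, hC ⟨φ₀, h0, rfl⟩, ?_⟩
    funext i j
    rcases i with p | p <;> rcases j with q | q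
    · rfl
    · exact map_zero τ
    · exact map_zero τ
    · exact map_zero τ
  | zero => rw [map_zero]; exact Submodule.zero_mem _
  | add x y _ _ hx hy => rw [map_add]; exact Submodule.add_mem _ hx hy
  | smul c x _ hx => rw [map_smul]; exact Submodule.smul_mem _ c hx

/-- DUM2 -/
theorem dum2 (k : Type) [Field k] (ν : Type) [Fintype ν]
    (Φ : Submodule k (ν → ν → k)) (hΦ : Symm Φ) (a D : ℕ) (h1 : Fintype.card ν ^ 2 ≤ D)
    (h2 : D < a ^ 2) :
    ∃ Φ' : Submodule k ((ν ⊕ (Fin a ⊕ Fin a)) → (ν ⊕ (Fin a ⊕ Fin a)) → k), Symm Φ' ∧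
      Module.finrank k Φ' = D + 1 ∧
      (∀ (K : Type) [Field K] (τ : k →+* K) (x : ν → K),
        sq (Sum.elim x 0) ∈ ext τ Φ' ↔ sq x ∈ ext τ Φ) ∧
      ∀ σ : k →+* ℂ, BrodyHyperbolic (sqSet (ext σ Φ)) → BrodyHyperbolic (sqSet (ext σ Φ')) := by
  have e1 : Module.finrank k (Φ.map (dumEmb ν (Fin a ⊕ Fin a) k)) ≤ D + 1 := by
    have g1 := Submodule.finrank_map_le (dumEmb ν (Fin a ⊕ Fin a) k) Φ
    have g2 := Submodule.finrank_le Φ
    rw [dum_fr] at g2
    omega
  have e2 : D + 1 ≤ Module.finrank k (dumMax Φ (Fin a ⊕ Fin a)) := by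
    have g1 := Submodule.finrank_mono (dum_T_le Φ a)
    rw [LinearMap.finrank_range_of_inj (dum_T_inj ν k a), dum_fr, Fintype.card_fin] at g1
    omega
  obtain ⟨C, hC1, hC2, hC3⟩ := dum_mid _ _ (dum_min_le Φ hΦ (Fin a ⊕ Fin a)) (D + 1) e1 e2
  refine ⟨C, fun φ hφ => (hC2 hφ).1, hC3, ?_, fun σ hB => dum_brody σ Φ C hC2 hB⟩
  intro K _ τ x
  constructor
  · intro h
    exact (dum_ext τ Φ C hC2 _ h).1
  · intro h
    have h3 := dum_emb_ext τ Φ C hC1 _ h
    have h4 : dumEmb ν (Fin a ⊕ Fin a) K (sq x) = sq (Sum.elim x 0) := by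
      funext i j
      rcases i with p | p <;> rcases j with q | q
      · rfl
      · exact (mul_zero _).symm
      · exact (zero_mul _).symm
      · exact (zero_mul _).symm
    rw [← h4]
    exact h3

end Pool.Agent.Lib.MP_627a61_nt
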