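import Pool.Agent.Lib.MP_627a61_nt.Sq.BaseCh
import Pool.Agent.Lib.MP_627a61_nt.Sq.Stm

/-!
# Vectors which separate the quadratic forms
-/

open Filter

namespace Pool.Agent.Lib.MP_627a61_nt

/-- A quadratic form which vanishes at all vectors `lam l` is zero. -/
def Sep {ν I k : Type} [Fintype ν] [Field k] (lam : I → ν → k) : Prop :=
  ∀ ψ : ν → ν → k, (∀ i j, ψ i j = ψ j i) → (∀ l, qv ψ (lam l) = 0) → ψ = 0

lemma sep_gv {ν I k : Type} [Fintype ν] [DecidableEq ν] [Field k] [CharZero k]
    (lam : I → ν → k) (h : ∀ g : GI ν, ∃ l, lam l = gv k g) : Sep lam := by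
  intro ψ hψ h0
  have h1 : ∀ g, qv ψ (gv k g) = 0 := by
    intro g
    obtain ⟨l, hl⟩ := h g
    rw [← hl]
    exact h0 l
  have h2 : ∀ j, ψ j j = 0 := by
    intro j
    have h3 := h1 (j, (j, j, 0), (j, j, 0), 0, 0)
    have h4 : gv k (j, (j, j, 0), (j, j, 0), 0, 0) = Pi.single j 1 := by
      funext a
      simp [gv, ev, Pi.single_apply]
    rw [h4] at h3
    simpa [qv, Pi.single_apply] using h3
  funext j l
  have h3 := h1 (j, (l, l, 0), (j, j, 0), 1, 0)
  have h4 : gv k (j, (l, l, 0), (j, j, 0), 1, 0) = Pi.single j 1 + Pi.single l 1 := by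
    funext a
    simp [gv, ev, Pi.single_apply]
  rw [h4] at h3
  have h5 : qv ψ (Pi.single j 1 + Pi.single l 1) = ψ j j + ψ j l + ψ l j + ψ l l := by
    simp [qv, Pi.single_apply, add_mul, mul_add, Finset.sum_add_distrib]
    ring
  rw [h5, h2, h2, hψ l j, zero_add, add_zero, ← two_mul, mul_eq_zero] at h3
  exact h3.resolve_left two_ne_zero

/-- separation over an extension field -/
lemma Sep.map {ν I k K : Type} [Fintype ν] [Field k] [Field K] {lam : I → ν → k} (h : Sep lam)
    (τ : k →+* K) (ψ : ν → ν → K) (hψ : ∀ i j, ψ i j = ψ j i)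
    (h0 : ∀ l, qv ψ (fun a => τ (lam l a)) = 0) : ψ = 0 := by
  have key : ∀ f : K → k, Fnl τ f → ∀ i j, f (ψ i j) = 0 := by
    intro f hf i j
    have h1 := h (fun i j => f (ψ i j)) (fun i j => by rw [hψ i j]) (fun l => ?_)
    · exact congrFun (congrFun h1 i) j
    · have f0 : f 0 = 0 := by
        have h1 := hf.2 0 0
        rwa [map_zero, zero_mul, zero_mul] at h1
      have h2 := congrArg f (h0 l)
      rw [f0] at h2
      unfold qv at h2 ⊢
      rw [hf.map_sum] at h2
      rw [← h2]
      refine Finset.sum_congr rfl fun i _ => ?_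
      rw [hf.map_sum]
      refine Finset.sum_congr rfl fun j _ => ?_
      rw [← map_mul, hf.2]
  funext i j
  exact eq_zero_of_fnl τ _ fun f hf => key f hf i j

/-- A nonzero polynomial does not vanish at `1 / (m + 1)` for large `m`. -/
private theorem sep_eventually {k : Type} [Field k] [CharZero k] (p : Polynomial k)
    (hp : p ≠ 0) : ∀ᶠ m : ℕ in atTop, p.eval (1 / ((m : k) + 1)) ≠ 0 := by
  have hinj : Function.Injective (fun m : ℕ => (1 : k) / ((m : k) + 1)) := by
    intro a b hab
    have h1 : (1 : k) / ((a : k) + 1) = 1 / ((b : k) + 1) := hab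
    rw [one_div, one_div] at h1
    have h2 : (a : k) + 1 = (b : k) + 1 := inv_injective h1
    exact_mod_cast add_right_cancel h2
  have hroots : {x : k | p.IsRoot x}.Finite := Polynomial.finite_setOfPred_isRoot hp
  have hpre : {m : ℕ | p.eval (1 / ((m : k) + 1)) = 0}.Finite :=
    hroots.preimage (f := fun m : ℕ => (1 : k) / ((m : k) + 1)) hinj.injOn
  have h := hpre.compl_mem_cofinite
  rw [Nat.cofinite_eq_atTop] at h
  exact h

/-- the space of symmetric matrices -/
private def symSub (ν k : Type) [Field k] : Submodule k (ν → ν → k) where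
  carrier := {ψ | ∀ i j, ψ i j = ψ j i}
  add_mem' := by
    intro x y hx hy i j
    show x i j + y i j = x j i + y j i
    rw [hx i j, hy i j]
  zero_mem' := fun _ _ => rfl
  smul_mem' := by
    intro c x hx i j
    show c * x i j = c * x j i
    rw [hx i j]

/-- Small perturbations of separating vectors separate. -/
theorem sep_path {ν : Type} [Fintype ν] {k : Type} [Field k] [CharZero k] {M : ℕ}
    (lam₀ lam₁ : Fin M → ν → k) (h : Sep lam₀) : ∀ᶠ m : ℕ in atTop, Sep (path lam₀ lam₁ m) := by
  classical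
  set s := Module.finrank k (symSub ν k) with hs
  let b : Module.Basis (Fin s) k (symSub ν k) := Module.finBasis k (symSub ν k)
  let B : Fin s → ν → ν → k := fun i => (b i).1
  have hBsym : ∀ i p q, B i p q = B i q p := fun i => (b i).2
  have hBu : ∀ ψ : ν → ν → k, (∀ i j, ψ i j = ψ j i) → ∃ u : Fin s → k, ψ = ∑ i, u i • B i := by
    intro ψ hψ
    refine ⟨fun i => b.repr ⟨ψ, hψ⟩ i, ?_⟩
    have h0 := congrArg (symSub ν k).subtype (b.sum_repr ⟨ψ, hψ⟩)
    rw [map_sum] at h0
    simpa only [map_smul, Submodule.subtype_apply] using h0.symm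
  have hBind : ∀ u : Fin s → k, ∑ i, u i • B i = 0 → u = 0 := by
    intro u hu
    have h1 : LinearIndependent k B :=
      b.linearIndependent.map' (symSub ν k).subtype (Submodule.ker_subtype _)
    funext i
    exact Fintype.linearIndependent_iff.1 h1 u hu i
  -- the matrix of the unperturbed vectors is injective
  have hinj : ∀ u : Fin s → k, (∀ l, ∑ i, Lmat B lam₀ l i * u i = 0) → u = 0 := by
    intro u hu
    apply hBind
    apply h
    · intro i j
      simp only [Finset.sum_apply, Pi.smul_apply]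
      exact Finset.sum_congr rfl fun t _ => by rw [hBsym t i j]
    · intro l
      rw [qv_sum]
      exact hu l
  let F : (Fin s → k) →ₗ[k] (Fin M → k) := Matrix.toLin' (Matrix.of (Lmat B lam₀))
  have hF : LinearMap.ker F = ⊥ := by
    rw [LinearMap.ker_eq_bot']
    intro u hu
    apply hinj
    intro l
    have := congrFun hu l
    simpa [F, Matrix.toLin'_apply, Matrix.mulVec, dotProduct] using this
  obtain ⟨G, hG⟩ := LinearMap.exists_leftInverse_of_injective F hF
  let P : Matrix (Fin s) (Fin M) k := LinearMap.toMatrix' G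
  have hP : P * Matrix.of (Lmat B lam₀) = 1 := by
    have h1 : LinearMap.toMatrix' (G ∘ₗ F) = P * LinearMap.toMatrix' F :=
      LinearMap.toMatrix'_comp G F
    have h2 : LinearMap.toMatrix' F = Matrix.of (Lmat B lam₀) := LinearMap.toMatrix'_toLin' _
    rw [← h2, ← h1, hG, LinearMap.toMatrix'_id]
  -- the polynomial
  let Q : Matrix (Fin s) (Fin s) (Polynomial k) := (P.map Polynomial.C) * Matrix.of
    (Lmat (fun t p q => Polynomial.C (B t p q))
      (fun l a => Polynomial.C (lam₀ l a) + Polynomial.X * Polynomial.C (lam₁ l a - lam₀ l a)))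
  have hQ : ∀ x : k, Q.det.eval x =
      (P * Matrix.of (Lmat B (fun l a => lam₀ l a + x * (lam₁ l a - lam₀ l a)))).det := by
    intro x
    have h1 := RingHom.map_det (Polynomial.evalRingHom x) Q
    rw [Polynomial.coe_evalRingHom] at h1
    rw [h1]
    apply congrArg Matrix.det
    ext i j
    simp [Q, Matrix.mul_apply, Lmat, qv, Polynomial.eval_finsetSum]
  have hQ0 : Q.det ≠ 0 := by
    intro h0
    have h1 := hQ 0
    rw [h0, Polynomial.eval_zero] at h1
    have h2 : (fun (l : Fin M) (a : ν) => lam₀ l a + 0 * (lam₁ l a - lam₀ l a)) = lam₀ := by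
      funext l a
      ring
    rw [h2, hP, Matrix.det_one] at h1
    exact zero_ne_one h1
  filter_upwards [sep_eventually _ hQ0] with m hm
  rw [hQ] at hm
  intro ψ hψ hψ0
  obtain ⟨u, hu⟩ := hBu ψ hψ
  have h1 : u = 0 := by
    refine Matrix.eq_zero_of_mulVec_eq_zero hm ?_
    have h2 : Matrix.mulVec (Matrix.of (Lmat B (path lam₀ lam₁ m))) u = 0 := by
      funext l
      have h3 := hψ0 l
      rw [hu, qv_sum] at h3
      simpa [Matrix.mulVec, dotProduct, Lmat] using h3
    rw [← Matrix.mulVec_mulVec]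
    have h4 : (fun (l : Fin M) (a : ν) => lam₀ l a + 1 / ((m : k) + 1) * (lam₁ l a - lam₀ l a)) =
        path lam₀ lam₁ m := rfl
    rw [h4, h2, Matrix.mulVec_zero]
  rw [hu, h1]
  simp

/-- Separating vectors span. -/
lemma Sep.span {ν I k : Type} [Fintype ν] [Field k] {lam : I → ν → k} (h : Sep lam) :
    Submodule.span k (Set.range lam) = ⊤ := by
  classical
  by_contra hne
  obtain ⟨f, hf0, hf⟩ := Submodule.exists_le_ker_of_lt_top _ (lt_top_iff_ne_top.2 hne)
  let y : ν → k := fun i => f (Pi.single i 1)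
  have hy : ∀ v : ν → k, f v = ∑ i, v i * y i := by
    intro v
    conv_lhs => rw [← Finset.univ_sum_single v]
    rw [map_sum]
    refine Finset.sum_congr rfl fun i _ => ?_
    have : (Pi.single i (v i) : ν → k) = v i • Pi.single i 1 := by
      rw [← Pi.single_smul, smul_eq_mul, mul_one]
    rw [this, map_smul, smul_eq_mul]
  have h1 : sq y = 0 := by
    apply h
    · intro i j
      exact mul_comm _ _
    · intro l
      rw [qv_sq, ← hy]
      have h2 : f (lam l) = 0 := hf (Submodule.subset_span ⟨l, rfl⟩)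
      rw [h2]
      ring
  have h2 := sq_eq_zero h1
  apply hf0
  ext v
  simp [y] at h2 ⊢
  have h3 := congrFun h2 v
  simpa using h3

end Pool.Agent.Lib.MP_627a61_nt
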