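import Pool.Agent.Lib.MP_627a61_nt.Sq.All
import Pool.Agent.Lib.MP_627a61_nt.Sq.Dum2
import Pool.Agent.Lib.MP_627a61_nt.Sq.Sep

/-!
# The embedding theorem for rank one matrices in a linear space
-/

open scoped LinearAlgebra.Projectivization Topology
open Filter MvPolynomial

namespace Pool.Agent.Lib.MP_627a61_nt

lemma qv_sub {ν R : Type*} [Fintype ν] [CommRing R] (φ ψ : ν → ν → R) (v : ν → R) :
    qv (φ - ψ) v = qv φ v - qv ψ v := by
  unfold qv
  simp only [Pi.sub_apply, mul_sub, Finset.sum_sub_distrib]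

/-- The embedding theorem for the set of all `y` with `y ⊗ y` in a given subspace. -/
theorem emb_core (k : Type) [Field k] [CharZero k] (ν : Type) [Fintype ν] [DecidableEq ν]
    (Φ₀ : Submodule k (ν → ν → k)) (hsym₀ : Symm Φ₀) (D r : ℕ)
    (h1 : Fintype.card ν ^ 2 ≤ D) (h2 : D < (Nat.sqrt D + 1) ^ 2)
    (h3 : 180 * (Fintype.card ν + 2 * (Nat.sqrt D + 1)) ^ 5 ≤ D ^ 3) (hr : D ^ 3 ≤ r)
    (T : Set (k →+* ℂ)) (hT : T.Finite) :
    ∃ (L : Fin (D + r + 1) → Fin (D + 1) → k) (mu : Fin (D + r + 1) → ν → k), GenPos L ∧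
      Submodule.span k (Set.range mu) = ⊤ ∧
      (∀ (K : Type) [Field K] (τ : k →+* K) (y : ν → K),
        (sq y ∈ ext τ Φ₀ ↔
          ∃ u : Fin (D + 1) → K, ∀ l, (∑ p, τ (mu l p) * y p) ^ 2 = ∑ i, τ (L l i) * u i)) ∧
      (∀ y y' : ν → k, ∀ s : k, (∀ l, (∑ p, mu l p * y p) ^ 2 = s * (∑ p, mu l p * y' p) ^ 2) →
        ∀ p q, y p * y q = s * (y' p * y' q)) ∧
      ∀ σ ∈ T, BrodyHyperbolic (sqSet (ext σ Φ₀)) → BrodyHyperbolic (sqCover σ L) := by
  classical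
  set a := Nat.sqrt D + 1 with ha
  obtain ⟨Φ, hsym, hrank, hmem, hhyp⟩ := dum2 k ν Φ₀ hsym₀ a D h1 h2
  let b : Module.Basis (Fin (D + 1)) k Φ := Module.finBasisOfFinrankEq k Φ hrank
  let B : Fin (D + 1) → (ν ⊕ (Fin a ⊕ Fin a)) → (ν ⊕ (Fin a ⊕ Fin a)) → k := fun i => (b i).1
  have hB : LinearIndependent k B := b.linearIndependent.map' Φ.subtype (Submodule.ker_subtype _)
  have hBsym : ∀ i p q, B i p q = B i q p := fun i p q => hsym _ (b i).2 p q
  -- the unperturbed family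
  have hcard : Fintype.card (GI (ν ⊕ (Fin a ⊕ Fin a))) ≤ D + r + 1 := by
    rw [card_GI]
    simp only [Fintype.card_sum, Fintype.card_fin]
    have : Fintype.card ν + (a + a) = Fintype.card ν + 2 * a := by ring
    rw [this]
    omega
  have hne : Nonempty (GI (ν ⊕ (Fin a ⊕ Fin a))) := by
    let y : ν ⊕ (Fin a ⊕ Fin a) := Sum.inr (Sum.inl ⟨0, by omega⟩)
    exact ⟨(y, (y, y, 0), (y, y, 0), 0, 0)⟩
  obtain ⟨g, hg⟩ : ∃ g : Fin (D + r + 1) → GI (ν ⊕ (Fin a ⊕ Fin a)), Function.Surjective g := by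
    have h4 : Nonempty (GI (ν ⊕ (Fin a ⊕ Fin a)) ↪ Fin (D + r + 1)) := by
      rw [Function.Embedding.nonempty_iff_card_le, Fintype.card_fin]
      exact hcard
    obtain ⟨f⟩ := h4
    exact ⟨Function.invFun f, Function.invFun_surjective f.injective⟩
  let lam₀ : Fin (D + r + 1) → (ν ⊕ (Fin a ⊕ Fin a)) → k := fun l => gv k (g l)
  have hlam₀ : ∀ g, ∃ l, lam₀ l = gv k g := fun g => (hg g).imp fun l hl => by
    simp only [lam₀, hl]
  obtain ⟨lam₁, hlam₁⟩ := piece_GOOD k _ D (D + r + 1) B hB hBsym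
  have hgen := piece_PERT k _ D (D + r + 1) B lam₀ lam₁ hlam₁
  have hsep := sep_path lam₀ lam₁ (sep_gv lam₀ hlam₀)
  have hlim : ∀ σ ∈ {σ ∈ T | BrodyHyperbolic (sqSet (ext σ Φ₀))},
      ∀ᶠ m in atTop, BrodyHyperbolic (sqCover σ (Lmat B (path lam₀ lam₁ m))) := by
    rintro σ ⟨-, hσ⟩
    refine piece_LIM (Fin (D + r + 1)) (Fin (D + 1)) (fun m l i => σ (Lmat B (path lam₀ lam₁ m) l i))
      (fun l i => σ (Lmat B lam₀ l i)) (fun l i => tendsto_Lmat σ B lam₀ lam₁ l i) ?_ ?_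
    · exact piece_INJ k _ (Fin (D + r + 1)) D B hB hBsym lam₀ hlam₀ ℂ σ
    · rw [sqCover_id_map, ← valSet_ext σ Φ b lam₀]
      refine squares_key _ _ (ext σ Φ) (ext_symm σ hsym) _ ?_ (hhyp σ hσ)
      intro g
      obtain ⟨l, hl⟩ := hlam₀ g
      exact ⟨l, by rw [hl, gv_map]⟩
  have hT' : {σ ∈ T | BrodyHyperbolic (sqSet (ext σ Φ₀))}.Finite :=
    hT.subset (Set.sep_subset _ _)
  obtain ⟨m, ⟨hm1, hm2⟩, hm3⟩ := ((hgen.and hsep).and ((hT'.eventually_all (l := atTop)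
    (p := fun σ m => BrodyHyperbolic (sqCover σ (Lmat B (path lam₀ lam₁ m))))).2 hlim)).exists
  refine ⟨Lmat B (path lam₀ lam₁ m), fun l p => path lam₀ lam₁ m l (Sum.inl p), hm1, ?_, ?_,
    ?_, fun σ hσ hσZ => hm3 σ ⟨hσ, hσZ⟩⟩
  · -- the span
    have h4 : Set.range (fun l p => path lam₀ lam₁ m l (Sum.inl p)) =
        (LinearMap.funLeft k k (Sum.inl : ν → ν ⊕ (Fin a ⊕ Fin a))) ''
          Set.range (path lam₀ lam₁ m) := by
      rw [← Set.range_comp]
      rfl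
    rw [h4, Submodule.span_image, hm2.span, Submodule.map_top, LinearMap.range_eq_top]
    exact LinearMap.funLeft_surjective_of_injective k k _ Sum.inl_injective
  · intro K _ τ y
    have hqv : ∀ l, (∑ p, τ (path lam₀ lam₁ m l (Sum.inl p)) * y p) ^ 2 =
        qv (sq (Sum.elim y (0 : Fin a ⊕ Fin a → K))) fun p => τ (path lam₀ lam₁ m l p) := by
      intro l
      rw [qv_sq]
      congr 1
      rw [Fintype.sum_sum_type]
      simp
    rw [← hmem K τ, mem_ext_iff τ Φ b]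
    constructor
    · rintro ⟨u, hu⟩
      refine ⟨u, fun l => ?_⟩
      rw [hqv, hu, qv_sum]
      exact Finset.sum_congr rfl fun i _ => by rw [Lmat, qv_map]
    · rintro ⟨u, hu⟩
      refine ⟨u, ?_⟩
      rw [← sub_eq_zero]
      refine hm2.map τ _ ?_ ?_
      · intro i j
        have h5 := ext_symm τ hsym _ ((mem_ext_iff τ Φ b _).2 ⟨u, rfl⟩) i j
        rw [Pi.sub_apply, Pi.sub_apply, Pi.sub_apply, Pi.sub_apply, h5]
        congr 1
        exact mul_comm _ _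
      · intro l
        rw [qv_sub, ← hqv, hu, qv_sum, sub_eq_zero]
        exact Finset.sum_congr rfl fun i _ => by rw [Lmat, qv_map]
  · intro y y' s hs
    have hqv : ∀ (y : ν → k) l, (∑ p, path lam₀ lam₁ m l (Sum.inl p) * y p) ^ 2 =
        qv (sq (Sum.elim y (0 : Fin a ⊕ Fin a → k))) (path lam₀ lam₁ m l) := by
      intro y l
      rw [qv_sq]
      congr 1
      rw [Fintype.sum_sum_type]
      simp
    have h4 : sq (Sum.elim y (0 : Fin a ⊕ Fin a → k)) -
        s • sq (Sum.elim y' (0 : Fin a ⊕ Fin a → k)) = 0 := by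
      apply hm2
      · intro i j
        simp only [Pi.sub_apply, Pi.smul_apply, smul_eq_mul, sq]
        ring
      · intro l
        rw [qv_sub, qv_smul, ← hqv, ← hqv, hs l]
        ring
    intro p q
    have h5 := congrFun (congrFun h4 (Sum.inl p)) (Sum.inl q)
    simp only [Pi.sub_apply, Pi.smul_apply, smul_eq_mul, sq, Sum.elim_inl, Pi.zero_apply] at h5
    linear_combination h5

end Pool.Agent.Lib.MP_627a61_nt
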