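import Pool.Agent.Lib.MP_627a61_nt.Reduction
import Pool.Agent.Lib.MP_627a61_nt.SquaresDefs

/-!
# Auxiliary definitions for the reduction to simultaneous squares of linear forms
-/

open scoped LinearAlgebra.Projectivization Topology
open Filter MvPolynomial

namespace Pool.Agent.Lib.MP_627a61_nt

/-- the symmetric matrix `x ⊗ x` -/
def sq {ν R : Type*} [Mul R] (x : ν → R) : ν → ν → R := fun i j => x i * x j

/-- the value `φ(v, v)` of the bilinear form with matrix `φ` -/
def qv {ν R : Type*} [Fintype ν] [CommRing R] (φ : ν → ν → R) (v : ν → R) : R :=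
  ∑ i, ∑ j, v i * v j * φ i j

/-- the value `φ(v, w)` of the bilinear form with matrix `φ` -/
def bv {ν R : Type*} [Fintype ν] [CommRing R] (φ : ν → ν → R) (v w : ν → R) : R :=
  ∑ i, ∑ j, v i * w j * φ i j

/-- The set of all `x` such that `x ⊗ x` lies in the subspace `Φ`. -/
def sqSet {ν K : Type*} [Field K] (Φ : Submodule K (ν → ν → K)) : Set (ℙ K (ν → K)) :=
  {x | sq x.rep ∈ Φ}

/-- base change of a subspace of matrices along a homomorphism of fields -/
def ext {ν k K : Type*} [Field k] [Field K] (τ : k →+* K) (Φ : Submodule k (ν → ν → k)) :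
    Submodule K (ν → ν → K) :=
  Submodule.span K ((fun (φ : ν → ν → k) i j => τ (φ i j)) '' (Φ : Set (ν → ν → k)))

/-- all matrices in `Φ` are symmetric -/
def Symm {ν K : Type*} [Field K] (Φ : Submodule K (ν → ν → K)) : Prop :=
  ∀ φ ∈ Φ, ∀ i j, φ i j = φ j i

/-- The set of all `z` such that for one `φ` in the subspace `Φ` the squares `z l ^ 2` are the
values `φ (lam l, lam l)`. -/
def valSet {ν I K : Type*} [Fintype ν] [Field K] (Φ : Submodule K (ν → ν → K))
    (lam : I → ν → K) : Set (ℙ K (I → K)) :=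
  {z | ∃ φ ∈ Φ, ∀ l, z.rep l ^ 2 = qv φ (lam l)}

/-- index set of the vectors `e_j + b e_k`, `b = 0, 1` -/
abbrev EI (ν : Type*) := ν × ν × Fin 2

/-- the vector `e_j + b e_k` -/
def ev {ν : Type*} [DecidableEq ν] (R : Type*) [Ring R] (v : EI ν) : ν → R :=
  fun a => (if a = v.1 then 1 else 0) + ((v.2.2 : ℕ) : R) * (if a = v.2.1 then 1 else 0)

/-- index set of the vectors `e_i + s v + t w` with `s ≤ 4`, `t ≤ 8` and `v, w` of the form
`e_j + b e_k` -/
abbrev GI (ν : Type*) := ν × EI ν × EI ν × Fin 5 × Fin 9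

/-- the vector `e_i + s v + t w` -/
def gv {ν : Type*} [DecidableEq ν] (R : Type*) [Ring R] (g : GI ν) : ν → R :=
  fun a => (if a = g.1 then 1 else 0) + ((g.2.2.2.1 : ℕ) : R) * ev R g.2.1 a +
    ((g.2.2.2.2 : ℕ) : R) * ev R g.2.2.1 a

/-- the vector `e_i + s v` -/
def pv {ν : Type*} [DecidableEq ν] (R : Type*) [Ring R] (i : ν) (v : EI ν) (s : Fin 5) : ν → R :=
  fun a => (if a = i then 1 else 0) + ((s : ℕ) : R) * ev R v a

/-- the path from `lam₀` to `lam₁`, at `1 / (m + 1)` -/
def path {ν I k : Type*} [Field k] (lam₀ lam₁ : I → ν → k) (m : ℕ) : I → ν → k :=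
  fun l a => lam₀ l a + 1 / ((m : k) + 1) * (lam₁ l a - lam₀ l a)

/-- the matrix of the linear forms `φ ↦ φ (lam l, lam l)` in the coordinates given by a family
`b` of matrices -/
def Lmat {ν I J R : Type*} [Fintype ν] [CommRing R] (b : J → ν → ν → R) (lam : I → ν → R) :
    I → J → R := fun l i => qv (b i) (lam l)

end Pool.Agent.Lib.MP_627a61_nt
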