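import Pool.Agent.Lib.MP_627a61_nt.Sq.Glue
import Pool.Agent.Lib.MP_627a61_nt.Sq.Stm

/-!
# The embedding theorem
-/

open scoped LinearAlgebra.Projectivization Topology
open Filter MvPolynomial

namespace Pool.Agent.Lib.MP_627a61_nt

/-- the number of vectors `gv` -/
lemma card_GI (ν : Type*) [Fintype ν] : Fintype.card (GI ν) = 180 * Fintype.card ν ^ 5 := by
  simp only [Fintype.card_prod, Fintype.card_fin]
  ring

/-- transfer of finiteness from the cover `sqCover` to the variety -/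
lemma finite_of_sqCover {k : Type*} [Field k] {n : ℕ} {S : Set (MvPolynomial (Fin (n + 1)) k)}
    {ν I J : Type*} [Fintype ν] [Fintype J] (Φ : Submodule k (ν → ν → k))
    (b : Module.Basis J k Φ) (lam : I → ν → k)
    (hinj : ∀ u : J → k, (∀ l, ∑ i, Lmat (fun i => (b i : ν → ν → k)) lam l i * u i = 0) → u = 0)
    (ver : (Fin (n + 1) → k) → (ν → k)) (hv0 : ∀ x, x ≠ 0 → ver x ≠ 0)
    (hvinj : ∀ x y, x ≠ 0 → y ≠ 0 → (∃ t : k, ver x = t • ver y) → ∃ s : k, x = s • y)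
    (hvmem : ∀ x, x ≠ 0 → (∀ P ∈ S, P.eval₂ (RingHom.id k) x = 0) → sq (ver x) ∈ Φ)
    (hfin : (sqCover (RingHom.id k) (Lmat (fun i => (b i : ν → ν → k)) lam)).Finite) :
    (points (RingHom.id k) S).Finite := by
  classical
  let B : J → ν → ν → k := fun i => (b i : ν → ν → k)
  -- the coordinates
  have hu : ∀ p : ↥(points (RingHom.id k) S), ∃ u : J → k,
      sq (ver p.1.rep) = ∑ i, u i • B i := by
    intro p
    have hp := hvmem p.1.rep p.1.rep_nonzero p.2
    refine ⟨fun i => b.repr ⟨_, hp⟩ i, ?_⟩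
    have h0 := congrArg Φ.subtype (b.sum_repr ⟨_, hp⟩)
    rw [map_sum] at h0
    simpa only [map_smul, Submodule.subtype_apply] using h0.symm
  choose u hu using hu
  let z : ↥(points (RingHom.id k) S) → (I → k) := fun p l => ∑ a, lam l a * ver p.1.rep a
  have hz : ∀ p l, z p l ^ 2 = ∑ i, Lmat B lam l i * u p i := by
    intro p l
    have h1 : z p l ^ 2 = qv (sq (ver p.1.rep)) (lam l) := (qv_sq _ _).symm
    rw [h1, hu p, qv_sum]
    rfl
  have hz0 : ∀ p, z p ≠ 0 := by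
    intro p h0
    apply hv0 p.1.rep p.1.rep_nonzero
    apply sq_eq_zero
    have h1 : u p = 0 := by
      apply hinj
      intro l
      rw [← hz p l, h0]
      simp
    rw [hu p, h1]
    simp
  have hmem : ∀ p, Projectivization.mk k (z p) (hz0 p) ∈ sqCover (RingHom.id k) (Lmat B lam) := by
    intro p
    obtain ⟨t, ht, hrep⟩ := exists_rep_eq (p := Projectivization.mk k (z p) (hz0 p))
      (v := z p) (hv := hz0 p) rfl
    refine ⟨fun i => t ^ 2 * u p i, fun l => ?_⟩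
    rw [hrep]
    simp only [Pi.smul_apply, smul_eq_mul, mul_pow, hz p l, Finset.mul_sum, RingHom.id_apply]
    exact Finset.sum_congr rfl fun i _ => by ring
  have : Finite ↥(sqCover (RingHom.id k) (Lmat B lam)) := hfin
  have hF : Function.Injective fun p : ↥(points (RingHom.id k) S) =>
      (⟨Projectivization.mk k (z p) (hz0 p), hmem p⟩ : ↥(sqCover (RingHom.id k) (Lmat B lam))) := by
    intro p q hpq
    have h1 := congrArg Subtype.val hpq
    dsimp only at h1
    rw [Projectivization.mk_eq_mk_iff'] at h1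
    obtain ⟨t, ht⟩ := h1
    have h2 : u p = t ^ 2 • u q := by
      have h3 : u p - t ^ 2 • u q = 0 := by
        apply hinj
        intro l
        have h4 : z p l ^ 2 = t ^ 2 * z q l ^ 2 := by
          rw [← ht]
          simp [mul_pow]
        rw [hz p l, hz q l, Finset.mul_sum] at h4
        have h5 : ∑ i, Lmat B lam l i * (u p - t ^ 2 • u q) i
            = ∑ i, Lmat B lam l i * u p i - ∑ i, t ^ 2 * (Lmat B lam l i * u q i) := by
          rw [← Finset.sum_sub_distrib]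
          refine Finset.sum_congr rfl fun i _ => ?_
          simp only [Pi.sub_apply, Pi.smul_apply, smul_eq_mul]
          ring
        exact h5.trans (by rw [h4, sub_self])
      exact sub_eq_zero.1 h3
    have h3 : sq (ver p.1.rep) = t ^ 2 • sq (ver q.1.rep) := by
      rw [hu p, hu q, h2, Finset.smul_sum]
      refine Finset.sum_congr rfl fun i _ => ?_
      rw [Pi.smul_apply, smul_smul, smul_eq_mul]
    have h4 : ∃ t : k, ver p.1.rep = t • ver q.1.rep := by
      rcases sq_eq_smul h3 with h | h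
      · exact ⟨t, h⟩
      · exact ⟨-t, h⟩
    obtain ⟨s, hs⟩ := hvinj _ _ p.1.rep_nonzero q.1.rep_nonzero h4
    apply Subtype.ext
    rw [← p.1.mk_rep, ← q.1.mk_rep, Projectivization.mk_eq_mk_iff']
    exact ⟨s, hs.symm⟩
  exact Finite.of_injective _ hF

lemma sqCover_id_map {ι κ k : Type*} [Fintype κ] [Field k] (σ : k →+* ℂ) (L : ι → κ → k) :
    sqCover (RingHom.id ℂ) (fun l i => σ (L l i)) = sqCover σ L := rfl

lemma tendsto_path {ν I k : Type*} [Field k] (σ : k →+* ℂ) (lam₀ lam₁ : I → ν → k) (l : I)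
    (a : ν) : Tendsto (fun m => σ (path lam₀ lam₁ m l a)) atTop (𝓝 (σ (lam₀ l a))) := by
  have h1 : ∀ m, σ (path lam₀ lam₁ m l a)
      = σ (lam₀ l a) + (1 / ((m : ℂ) + 1)) * σ (lam₁ l a - lam₀ l a) := by
    intro m
    simp [path, map_add, map_mul]
  simp only [h1]
  have h2 : Tendsto (fun m : ℕ => (1 : ℂ) / ((m : ℂ) + 1)) atTop (𝓝 0) :=
    tendsto_one_div_add_atTop_nhds_zero_nat
  simpa using (h2.mul_const (σ (lam₁ l a - lam₀ l a))).const_add (σ (lam₀ l a))

lemma tendsto_Lmat {ν I J k : Type*} [Fintype ν] [Field k] (σ : k →+* ℂ) (b : J → ν → ν → k)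
    (lam₀ lam₁ : I → ν → k) (l : I) (i : J) :
    Tendsto (fun m => σ (Lmat b (path lam₀ lam₁ m) l i)) atTop (𝓝 (σ (Lmat b lam₀ l i))) := by
  simp only [Lmat, qv, map_sum, map_mul]
  refine tendsto_finsetSum _ fun p _ => tendsto_finsetSum _ fun q _ => ?_
  exact ((tendsto_path σ lam₀ lam₁ l p).mul (tendsto_path σ lam₀ lam₁ l q)).mul_const _

theorem piece_EMB (hVER : S_VER) (hDUM : S_DUM) (hKEY : S_KEY) (hGOOD : S_GOOD)
    (hPERT : S_PERT) (hLIM : S_LIM) (hINJ : S_INJ) (hNUM : S_NUM) : S_EMB := by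
  intro k _ _ n S hS T hT hZ
  classical
  obtain ⟨ν, _, _, Φ₀, ver, hsym₀, hv0, hvinj, hvmem, hvhyp⟩ := hVER k n S hS
  obtain ⟨D₀, hD₀⟩ := hNUM (Fintype.card ν)
  refine ⟨D₀, fun D hD r hr => ?_⟩
  obtain ⟨h1, h2, h3⟩ := hD₀ D hD
  set a := Nat.sqrt D + 1 with ha
  obtain ⟨Φ, hsym, hrank, hmin, hhyp⟩ := hDUM k ν Φ₀ hsym₀ a D h1 h2
  let b : Module.Basis (Fin (D + 1)) k Φ := Module.finBasisOfFinrankEq k Φ hrank
  let B : Fin (D + 1) → (ν ⊕ (Fin a ⊕ Fin a)) → (ν ⊕ (Fin a ⊕ Fin a)) → k := fun i => (b i).1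
  have hB : LinearIndependent k B := b.linearIndependent.map' Φ.subtype (Submodule.ker_subtype _)
  have hBsym : ∀ i p q, B i p q = B i q p := fun i p q => hsym _ (b i).2 p q
  -- the unperturbed family
  have hcard : Fintype.card (GI (ν ⊕ (Fin a ⊕ Fin a))) ≤ D + r + 1 := by
    rw [card_GI]
    simp only [Fintype.card_sum, Fintype.card_fin]
    have : Fintype.card ν + (a + a) = Fintype.card ν + 2 * a := by ring
    rw [this]
    omega
  have hne : Nonempty (GI (ν ⊕ (Fin a ⊕ Fin a))) := by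
    let y : ν ⊕ (Fin a ⊕ Fin a) := Sum.inr (Sum.inl ⟨0, by omega⟩)
    exact ⟨(y, (y, y, 0), (y, y, 0), 0, 0)⟩
  obtain ⟨e, he⟩ : ∃ e : Fin (D + r + 1) → GI (ν ⊕ (Fin a ⊕ Fin a)), Function.Surjective e := by
    have h4 : Nonempty (GI (ν ⊕ (Fin a ⊕ Fin a)) ↪ Fin (D + r + 1)) := by
      rw [Function.Embedding.nonempty_iff_card_le, Fintype.card_fin]
      exact hcard
    obtain ⟨f⟩ := h4
    exact ⟨Function.invFun f, Function.invFun_surjective f.injective⟩
  let lam₀ : Fin (D + r + 1) → (ν ⊕ (Fin a ⊕ Fin a)) → k := fun l => gv k (e l)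
  have hlam₀ : ∀ g, ∃ l, lam₀ l = gv k g := fun g => (he g).imp fun l hl => by
    simp only [lam₀, hl]
  obtain ⟨lam₁, hlam₁⟩ := hGOOD k _ D (D + r + 1) B hB hBsym
  have hgen := hPERT k _ D (D + r + 1) B lam₀ lam₁ hlam₁
  have hlim : ∀ σ ∈ T, ∀ᶠ m in atTop, BrodyHyperbolic (sqCover σ (Lmat B (path lam₀ lam₁ m))) := by
    intro σ hσ
    refine hLIM (Fin (D + r + 1)) (Fin (D + 1)) (fun m l i => σ (Lmat B (path lam₀ lam₁ m) l i))
      (fun l i => σ (Lmat B lam₀ l i)) (fun l i => tendsto_Lmat σ B lam₀ lam₁ l i) ?_ ?_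
    · exact hINJ k _ (Fin (D + r + 1)) D B hB hBsym lam₀ hlam₀ ℂ σ
    · rw [sqCover_id_map, ← valSet_ext σ Φ b lam₀]
      refine hKEY _ _ (ext σ Φ) (ext_symm σ hsym) _ ?_ (hhyp σ (hvhyp σ (hZ σ hσ)))
      intro g
      obtain ⟨l, hl⟩ := hlam₀ g
      exact ⟨l, by rw [hl, gv_map]⟩
  obtain ⟨m, hm1, hm2⟩ := (hgen.and ((hT.eventually_all (l := atTop)
    (p := fun σ m => BrodyHyperbolic (sqCover σ (Lmat B (path lam₀ lam₁ m))))).2 hlim)).exists
  refine ⟨Lmat B (path lam₀ lam₁ m), hm1, hm2, fun hfin => ?_⟩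
  refine finite_of_sqCover Φ b (path lam₀ lam₁ m) (hm1.inj (by omega))
    (fun x => Sum.elim (ver x) 0) ?_ ?_ ?_ hfin
  · intro x hx h0
    apply hv0 x hx
    funext i
    simpa using congrFun h0 (Sum.inl i)
  · rintro x y hx hy ⟨t, ht⟩
    refine hvinj x y hx hy ⟨t, ?_⟩
    funext i
    simpa using congrFun ht (Sum.inl i)
  · intro x hx hxS
    exact hmin _ (hvmem x hx hxS)

end Pool.Agent.Lib.MP_627a61_nt
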