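import Pool.Agent.Lib.MP_627a61_nt.Sq.Ver2

/-!
# Forms which span all forms of one degree
-/

open scoped LinearAlgebra.Projectivization Topology
open Filter MvPolynomial

namespace Pool.Agent.Lib.MP_627a61_nt

section theta

variable {k : Type} [Field k] {n e : ℕ}

/-- the form with given coefficients with respect to the monomials `∏ a, X (α a)` -/
noncomputable def thF (k : Type) [Field k] (n e : ℕ) :
    ((Fin e → Fin n) → k) →ₗ[k] MvPolynomial (Fin n) k where
  toFun v := ∑ α, C (v α) * ∏ a, X (α a)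
  map_add' v w := by
    rw [← Finset.sum_add_distrib]
    refine Finset.sum_congr rfl fun α _ => ?_
    rw [Pi.add_apply, C_add, add_mul]
  map_smul' c v := by
    rw [RingHom.id_apply, Finset.smul_sum]
    refine Finset.sum_congr rfl fun α _ => ?_
    rw [Pi.smul_apply, smul_eq_mul, C_mul, mul_assoc, C_mul']

lemma thF_apply (v : (Fin e → Fin n) → k) :
    thF k n e v = ∑ α, C (v α) * ∏ a, X (α a) := rfl

lemma eval_thF {K : Type} [Field K] (τ : k →+* K) (v : (Fin e → Fin n) → k) (x : Fin n → K) :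
    (thF k n e v).eval₂ τ x = ∑ α, τ (v α) * verc e x α := by
  rw [thF_apply, eval₂_sum]
  refine Finset.sum_congr rfl fun α _ => ?_
  rw [eval₂_mul, eval₂_C]
  congr 1
  unfold verc
  rw [show (eval₂ τ x (∏ a, X (α a)) : K) = (eval₂Hom τ x) (∏ a, X (α a)) from rfl, map_prod]
  refine Finset.prod_congr rfl fun a _ => ?_
  rw [coe_eval₂Hom, eval₂_X]

lemma thF_homog (v : (Fin e → Fin n) → k) : (thF k n e v).IsHomogeneous e := by
  rw [thF_apply]
  refine IsHomogeneous.sum _ _ _ fun α _ => ?_
  have h1 : (∏ a, X (α a) : MvPolynomial (Fin n) k).IsHomogeneous (∑ _a : Fin e, 1) :=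
    IsHomogeneous.prod _ _ _ fun a _ => isHomogeneous_X k (α a)
  have h2 := (isHomogeneous_C (Fin n) (v α)).mul h1
  simpa using h2

lemma range_thF : LinearMap.range (thF k n e) = homogeneousSubmodule (Fin n) k e := by
  apply le_antisymm
  · rintro _ ⟨v, rfl⟩
    exact thF_homog v
  · intro P hP
    rw [mem_homogeneousSubmodule] at hP
    rw [P.as_sum]
    refine Submodule.sum_mem _ fun m hm => ?_
    have hdeg : m.degree = e := (hP.degree_eq_sum_deg_support hm).symm
    obtain ⟨γ, hγ⟩ := exists_tuple_monomial (k := k) m hdeg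
    classical
    refine ⟨Pi.single γ (P.coeff m), ?_⟩
    rw [thF_apply, Finset.sum_eq_single γ]
    · rw [Pi.single_eq_same, hγ, C_mul_monomial, mul_one]
    · intro α _ hα
      rw [Pi.single_eq_of_ne hα, C_0, zero_mul]
    · intro h
      exact absurd (Finset.mem_univ _) h

end theta

section span

variable {k : Type} [Field k] {n e M : ℕ} {F : Fin M → MvPolynomial (Fin (n + 1)) k}

/-- values of all forms in terms of the spanning forms -/
lemma eval_of_span {K : Type} [Field K] (τ : k →+* K)
    (hF : Submodule.span k (Set.range F) = homogeneousSubmodule (Fin (n + 1)) k e)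
    {x y : Fin (n + 1) → K} {c : K} (h : ∀ l, (F l).eval₂ τ x = c * (F l).eval₂ τ y)
    (H : MvPolynomial (Fin (n + 1)) k) (hH : H.IsHomogeneous e) :
    H.eval₂ τ x = c * H.eval₂ τ y := by
  have h1 : H ∈ Submodule.span k (Set.range F) := by
    rw [hF]
    exact hH
  refine Submodule.span_induction (p := fun H _ => H.eval₂ τ x = c * H.eval₂ τ y)
    ?_ ?_ ?_ ?_ h1
  · rintro _ ⟨l, rfl⟩
    exact h l
  · rw [eval₂_zero, eval₂_zero, mul_zero]
  · intro P Q _ _ hP hQ
    rw [eval₂_add, eval₂_add, hP, hQ, mul_add]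
  · intro a P _ hP
    rw [← C_mul', eval₂_mul, eval₂_mul, eval₂_C, eval₂_C, hP]
    ring

lemma homog_of_span (hF : Submodule.span k (Set.range F) = homogeneousSubmodule (Fin (n + 1)) k e)
    (l : Fin M) : (F l).IsHomogeneous e := by
  have h1 : F l ∈ homogeneousSubmodule (Fin (n + 1)) k e := by
    rw [← hF]
    exact Submodule.subset_span ⟨l, rfl⟩
  exact h1

/-- the forms have no common zero -/
lemma ne_zero_of_span {K : Type} [Field K] (τ : k →+* K)
    (hF : Submodule.span k (Set.range F) = homogeneousSubmodule (Fin (n + 1)) k e)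
    {x : Fin (n + 1) → K} (hx : x ≠ 0) : (fun l => (F l).eval₂ τ x) ≠ 0 := by
  intro h0
  obtain ⟨i, hi⟩ := Function.ne_iff.mp hx
  have h1 := eval_of_span τ hF (x := x) (y := x) (c := 0)
    (fun l => by rw [zero_mul]; exact congrFun h0 l) (X i ^ e) (by
      simpa using (isHomogeneous_X k i).pow e)
  rw [zero_mul, eval₂_pow, eval₂_X] at h1
  exact hi (eq_zero_of_pow_eq_zero h1)

/-- the map given by the forms is injective -/
lemma inj_of_span {K : Type} [Field K] (τ : k →+* K) (he : 0 < e)
    (hF : Submodule.span k (Set.range F) = homogeneousSubmodule (Fin (n + 1)) k e)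
    {x y : Fin (n + 1) → K} (hx : x ≠ 0)
    (h : ∃ c : K, (fun l => (F l).eval₂ τ x) = c • fun l => (F l).eval₂ τ y) :
    ∃ s : K, x = s • y := by
  obtain ⟨c, hc⟩ := h
  obtain ⟨i, hi⟩ := Function.ne_iff.mp hx
  have hi : x i ≠ 0 := hi
  obtain ⟨e, rfl⟩ : ∃ e', e = e' + 1 := ⟨e - 1, by omega⟩
  have h1 : ∀ j, x j * x i ^ e = c * (y j * y i ^ e) := by
    intro j
    have h2 := eval_of_span τ hF (x := x) (y := y) (c := c) (fun l => congrFun hc l)
      (X j * X i ^ e) (by
        have h3 := (isHomogeneous_X k j).mul ((isHomogeneous_X k i).pow e)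
        have h4 : 1 + 1 * e = e + 1 := by ring
        rw [h4] at h3
        exact h3)
    simpa only [eval₂_mul, eval₂_pow, eval₂_X] using h2
  refine ⟨c * y i ^ e / x i ^ e, ?_⟩
  funext j
  have h2 : x i ^ e ≠ 0 := pow_ne_zero _ hi
  rw [Pi.smul_apply, smul_eq_mul]
  field_simp
  linear_combination h1 j

end span

end Pool.Agent.Lib.MP_627a61_nt
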