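import Pool.Agent.Lib.MP_627a61_nt.Sq.Core
import Pool.Agent.Lib.MP_627a61_nt.Sq.Span

/-!
# Embedding of a projective variety in a cover defined by squares of linear forms
-/

open scoped LinearAlgebra.Projectivization Topology
open Filter MvPolynomial

namespace Pool.Agent.Lib.MP_627a61_nt

/-- EMB2: the embedding theorem with all the data -/
theorem emb2 (k : Type) [Field k] [CharZero k] (n : ℕ) (S : Set (MvPolynomial (Fin (n + 1)) k))
    (hS : Homog S) : ∃ D₀ e : ℕ, 0 < e ∧ ∀ D, D₀ ≤ D → ∀ r, D ^ 3 ≤ r →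
    ∀ T : Set (k →+* ℂ), T.Finite → ∃ (L : Fin (D + r + 1) → Fin (D + 1) → k)
      (F : Fin (D + r + 1) → MvPolynomial (Fin (n + 1)) k), GenPos L ∧
      Submodule.span k (Set.range F) = homogeneousSubmodule (Fin (n + 1)) k e ∧
      (∀ (K : Type) [Field K] (τ : k →+* K) (x : Fin (n + 1) → K), x ≠ 0 →
        ((∀ P ∈ S, P.eval₂ τ x = 0) ↔
          ∃ u : Fin (D + 1) → K, ∀ l, (F l).eval₂ τ x ^ 2 = ∑ i, τ (L l i) * u i)) ∧
      (∀ (x y : Fin (n + 1) → k) (s : k), x ≠ 0 →
        (∀ l, (F l).eval₂ (RingHom.id k) x ^ 2 = s * (F l).eval₂ (RingHom.id k) y ^ 2) →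
        ∃ t : k, x = t • y) ∧
      ∀ σ ∈ T, BrodyHyperbolic (points σ S) → BrodyHyperbolic (sqCover σ L) := by
  obtain ⟨e', he', S', hS', hz⟩ := piece_VERDEG k n S hS
  obtain ⟨e, rfl⟩ : ∃ e, e' = e + 1 := ⟨e' - 1, by omega⟩
  obtain ⟨Φ₀, hsym₀, hmem₀, hvhyp⟩ := ver2 k n e S' hS'
  obtain ⟨D₀, hD₀⟩ := piece_NUM (Fintype.card (Fin (e + 1) → Fin (n + 1)))
  refine ⟨D₀, e + 1, he', fun D hD r hr T hT => ?_⟩
  obtain ⟨h1, h2, h3⟩ := hD₀ D hD
  obtain ⟨L, mu, hL, hspan, hmem, hsep, hhyp⟩ :=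
    emb_core k (Fin (e + 1) → Fin (n + 1)) Φ₀ hsym₀ D r h1 h2 h3 hr T hT
  refine ⟨L, fun l => thF k (n + 1) (e + 1) (mu l), hL, ?_, ?_, ?_, ?_⟩
  · have h4 : Set.range (fun l => thF k (n + 1) (e + 1) (mu l)) =
        (thF k (n + 1) (e + 1)) '' Set.range mu := by
      rw [← Set.range_comp]
      rfl
    rw [h4, Submodule.span_image, hspan, Submodule.map_top, range_thF]
  · intro K _ τ x hx
    rw [hz K τ x hx, ← hmem₀ K τ, hmem K τ]
    simp only [eval_thF]
  · intro x y s hx hs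
    simp only [eval_thF, RingHom.id_apply] at hs
    have h4 := hsep (verc (e + 1) x) (verc (e + 1) y) s hs
    obtain ⟨i, hi⟩ := Function.ne_iff.mp hx
    have hi : x i ≠ 0 := hi
    have hval : ∀ (z : Fin (n + 1) → k) (j : Fin (n + 1)),
        verc (e + 1) z (Function.update (fun _ => i) 0 j) = z j * z i ^ e := by
      intro z j
      show ∏ a : Fin (e + 1), z (Function.update (fun _ => i) 0 j a) = z j * z i ^ e
      rw [Fin.prod_univ_succ, Function.update_self]
      congr 1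
      have h1 : ∀ a : Fin e, z (Function.update (fun _ => i) 0 j a.succ) = z i := by
        intro a
        rw [Function.update_of_ne (Fin.succ_ne_zero a)]
      rw [Finset.prod_congr rfl (fun a _ => h1 a), Finset.prod_const, Finset.card_univ,
        Fintype.card_fin]
    have hval' : ∀ z : Fin (n + 1) → k, verc (e + 1) z (fun _ => i) = z i ^ (e + 1) := by
      intro z
      show ∏ _a : Fin (e + 1), z i = z i ^ (e + 1)
      rw [Finset.prod_const, Finset.card_univ, Fintype.card_fin]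
    refine ⟨s * y i ^ (2 * e + 1) / x i ^ (2 * e + 1), ?_⟩
    funext j
    have h5 := h4 (Function.update (fun _ => i) 0 j) (fun _ => i)
    rw [hval, hval, hval', hval'] at h5
    have h6 : x i ^ (2 * e + 1) ≠ 0 := pow_ne_zero _ hi
    rw [Pi.smul_apply, smul_eq_mul, div_mul_eq_mul_div, eq_div_iff h6]
    have h7 : x i ^ (2 * e + 1) = x i ^ e * x i ^ (e + 1) := by ring
    have h8 : y i ^ (2 * e + 1) = y i ^ e * y i ^ (e + 1) := by ring
    rw [h7, h8]
    linear_combination h5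
  · intro σ hσ hB
    have hE : points σ S' = points σ S := by
      apply Set.ext
      intro x
      exact (hz ℂ σ x.rep x.rep_nonzero).symm
    exact hhyp σ hσ (hvhyp σ (hE.symm ▸ hB))

end Pool.Agent.Lib.MP_627a61_nt
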