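import Pool.Agent.Lib.MP_627a61_nt.SmoothQuadDefs

/-!
# Diagonal quadrics with nonzero maximal minors define a smooth complete intersection
-/

open MvPolynomial

namespace Pool.Agent.Lib.MP_627a61_nt

private lemma smo_minor {r M : ℕ} {k K : Type*} [Field k] [Field K] (τ : k →+* K)
    {a : Fin r → Fin M → k} (ha : MaxMinors a) (c : Fin r → Fin M) (hc : Function.Injective c) :
    (Matrix.of fun i j => τ (a i (c j))).det ≠ 0 := by
  have h1 := ha c hc
  have h2 : (Matrix.of fun i j => τ (a i (c j))).det =
      τ (Matrix.of fun i j => a i (c j)).det := by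
    rw [RingHom.map_det]
    rfl
  rw [h2]
  exact (map_ne_zero τ).2 h1

/-- a relation between the columns in the range of `c` is trivial -/
private lemma smo_col {r M : ℕ} {k K : Type*} [Field k] [Field K] (τ : k →+* K)
    {a : Fin r → Fin M → k} (ha : MaxMinors a) (c : Fin r → Fin M) (hc : Function.Injective c)
    (y : Fin M → K) (hy : ∀ l, l ∉ Set.range c → y l = 0)
    (h : ∀ i, ∑ l, τ (a i l) * y l = 0) : y = 0 := by
  classical
  have h1 : ∀ i, ∑ j, τ (a i (c j)) * y (c j) = 0 := by
    intro i
    rw [← h i]
    have h2 : ∑ j, τ (a i (c j)) * y (c j) =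
        ∑ l ∈ Finset.univ.image c, τ (a i l) * y l := by
      rw [Finset.sum_image fun x _ y _ hxy => hc hxy]
    rw [h2]
    refine Finset.sum_subset (Finset.subset_univ _) fun l _ hl => ?_
    rw [hy l, mul_zero]
    rintro ⟨j, rfl⟩
    exact hl (Finset.mem_image_of_mem _ (Finset.mem_univ _))
  have h3 : (fun j => y (c j)) = 0 := by
    refine Matrix.eq_zero_of_mulVec_eq_zero (smo_minor τ ha c hc) ?_
    funext i
    simpa [Matrix.mulVec, dotProduct] using h1 i
  funext l
  by_cases hl : l ∈ Set.range c
  · obtain ⟨j, rfl⟩ := hl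
    exact congrFun h3 j
  · exact hy l hl

/-- a relation between the rows restricted to the range of `c` is trivial -/
private lemma smo_row {r M : ℕ} {k K : Type*} [Field k] [Field K] (τ : k →+* K)
    {a : Fin r → Fin M → k} (ha : MaxMinors a) (c : Fin r → Fin M) (hc : Function.Injective c)
    (g : Fin r → K) (h : ∀ j, ∑ i, g i * τ (a i (c j)) = 0) : g = 0 := by
  refine Matrix.eq_zero_of_vecMul_eq_zero (smo_minor τ ha c hc) ?_
  funext j
  simpa [Matrix.vecMul, dotProduct] using h j

/-- A system of diagonal quadrics such that all maximal minors of the matrix of coefficients are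
nonzero defines a smooth complete intersection. -/
theorem smooth_of_maxMinors {r M : ℕ} {k : Type*} [Field k] [CharZero k] (hrM : r ≤ M)
    {a : Fin r → Fin M → k} (ha : MaxMinors a) :
    SmoothCompleteIntersection fun c => (∑ l, C (a c l) * X l ^ 2 : MvPolynomial (Fin M) k) := by
  classical
  intro x hx hzero
  set τ : k →+* AlgebraicClosure k := algebraMap k (AlgebraicClosure k) with hτ
  have h0 : ∀ c, ∑ l, τ (a c l) * x l ^ 2 = 0 := by
    intro c
    have := hzero c
    simpa [map_sum, aeval_C, hτ] using this
  have hgrad : ∀ c i, aeval x (pderiv i (∑ l, C (a c l) * X l ^ 2 : MvPolynomial (Fin M) k)) =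
      τ (a c i) * (2 * x i) := by
    intro c i
    rw [map_sum, map_sum]
    rw [Finset.sum_eq_single i]
    · simp [hτ]
    · intro l _ hl
      simp [hl]
    · intro h
      exact absurd (Finset.mem_univ _) h
  let s : Finset (Fin M) := Finset.univ.filter fun l => x l ≠ 0
  have hs : ∀ l, l ∈ s ↔ x l ≠ 0 := fun l => by simp [s]
  have hcard : r ≤ s.card := by
    by_contra hlt
    push Not at hlt
    obtain ⟨t, hst, ht⟩ := Finset.exists_superset_card_eq (s := s) (n := r) hlt.le
      (by simpa using hrM)
    let c : Fin r → Fin M := fun j => (t.orderIsoOfFin ht j : Fin M)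
    have hc : Function.Injective c := fun i j hij =>
      (t.orderIsoOfFin ht).injective (Subtype.ext hij)
    have hrange : ∀ l ∈ t, l ∈ Set.range c := by
      intro l hl
      exact ⟨(t.orderIsoOfFin ht).symm ⟨l, hl⟩,
        congrArg Subtype.val ((t.orderIsoOfFin ht).apply_symm_apply ⟨l, hl⟩)⟩
    have h1 := smo_col τ ha c hc (fun l => x l ^ 2) (by
      intro l hl
      have h2 : l ∉ s := fun h => hl (hrange l (hst h))
      rw [hs] at h2
      push Not at h2
      rw [h2]
      ring) h0
    apply hx
    funext l
    have := congrFun h1 l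
    simpa using this
  obtain ⟨t, hts, ht⟩ := Finset.exists_subset_card_eq hcard
  let c : Fin r → Fin M := fun j => (t.orderIsoOfFin ht j : Fin M)
  have hc : Function.Injective c := fun i j hij =>
    (t.orderIsoOfFin ht).injective (Subtype.ext hij)
  rw [Fintype.linearIndependent_iff]
  intro g hg
  have h1 : g = 0 := by
    refine smo_row τ ha c hc g fun j => ?_
    have h2 := congrFun hg (c j)
    simp only [Finset.sum_apply, Pi.smul_apply, smul_eq_mul, hgrad, Pi.zero_apply] at h2
    have hne : (2 * x (c j)) ≠ 0 := by
      refine mul_ne_zero two_ne_zero ((hs _).1 (hts ?_))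
      exact (t.orderIsoOfFin ht j).2
    have h3 : (∑ i, g i * τ (a i (c j))) * (2 * x (c j)) = 0 := by
      rw [Finset.sum_mul, ← h2]
      exact Finset.sum_congr rfl fun i _ => by ring
    exact (mul_eq_zero.1 h3).resolve_right hne
  exact fun i => congrFun h1 i

end Pool.Agent.Lib.MP_627a61_nt
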