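import Pool.Agent.Lib.MP_627a61_nt.Sq.Emb2
import Pool.Agent.Lib.MP_627a61_nt.Sq.Smo

/-!
# Embedding of a projective variety in a smooth complete intersection of diagonal quadrics
-/

open scoped LinearAlgebra.Projectivization Topology
open Filter MvPolynomial

namespace Pool.Agent.Lib.MP_627a61_nt

/-- The main theorem: embedding in a smooth complete intersection of diagonal quadrics. -/
theorem quad_embedding (k : Type) [Field k] [CharZero k] (n : ℕ)
    (S : Set (MvPolynomial (Fin (n + 1)) k)) (hS : ∀ P ∈ S, ∃ m, P.IsHomogeneous m) :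
    ∃ D₀ e : ℕ, 0 < e ∧ ∀ D, D₀ ≤ D → ∀ r, D ^ 3 ≤ r → ∀ T : Set (k →+* ℂ), T.Finite →
      ∃ (a : Fin r → Fin (D + r + 1) → k) (L : Fin (D + r + 1) → Fin (D + 1) → k)
        (F : Fin (D + r + 1) → MvPolynomial (Fin (n + 1)) k),
        (MaxMinors a ∧ SmoothCompleteIntersection fun c =>
          (∑ l, C (a c l) * X l ^ 2 : MvPolynomial (Fin (D + r + 1)) k)) ∧
        (GenPos L ∧ ∀ (K : Type) [Field K] (τ : k →+* K),
          points τ (diagQuad a) = sqCover τ L) ∧
        Submodule.span k (Set.range F) = homogeneousSubmodule (Fin (n + 1)) k e ∧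
        (∀ (K : Type) [Field K] (τ : k →+* K) (x : Fin (n + 1) → K), x ≠ 0 →
          ((∀ P ∈ S, P.eval₂ τ x = 0) ↔ ∀ c, ∑ l, τ (a c l) * (F l).eval₂ τ x ^ 2 = 0)) ∧
        (∀ σ ∈ T, KobayashiHyperbolic (points σ (diagQuad a)) ↔
          KobayashiHyperbolic (points σ S)) ∧
        (∃ g : points (RingHom.id k) S → squarePoints L, Function.Injective g) ∧
        ((squarePoints L).Finite ↔ (points (RingHom.id k) (diagQuad a)).Finite) := by
  obtain ⟨D₀, e, he, H⟩ := emb2 k n S hS
  refine ⟨D₀, e, he, fun D hD r hr T hT => ?_⟩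
  obtain ⟨L, F, hL, hF, hiff, hinj, hhyp⟩ := H D hD r hr T hT
  obtain ⟨a, ha, haL⟩ := piece_MAT k D r L hL
  have hQ : ∀ (K : Type) [Field K] (τ : k →+* K) (y : Fin (D + r + 1) → K) (c : Fin r),
      MvPolynomial.eval₂ τ y (∑ l, C (a c l) * X l ^ 2) = ∑ l, τ (a c l) * y l ^ 2 := by
    intro K _ τ y c
    rw [eval₂_sum]
    refine Finset.sum_congr rfl fun l _ => ?_
    rw [eval₂_mul, eval₂_C, eval₂_pow, eval₂_X]
  have hmk : ∀ (K : Type) [Field K] (τ : k →+* K) (y : Fin (D + r + 1) → K) (hy : y ≠ 0),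
      (∀ c, ∑ l, τ (a c l) * y l ^ 2 = 0) ↔ ∃ u : Fin (D + 1) → K, ∀ l, y l ^ 2 =
        ∑ i, τ (L l i) * u i := by
    intro K _ τ y hy
    have h1 : (∀ c, ∑ l, τ (a c l) * y l ^ 2 = 0) ↔
        Projectivization.mk K y hy ∈ points τ (diagQuad a) := by
      rw [mem_points_mk (homog_diagQuad a)]
      unfold diagQuad
      simp only [Set.mem_range, forall_exists_index, forall_apply_eq_imp_iff, hQ]
    rw [h1, haL]
    obtain ⟨t, ht, hrep⟩ := exists_rep_eq (p := Projectivization.mk K y hy) (v := y) (hv := hy) rfl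
    constructor
    · rintro ⟨u, hu⟩
      refine ⟨fun i => (t ^ 2)⁻¹ * u i, fun l => ?_⟩
      have h2 := hu l
      rw [hrep, Pi.smul_apply, smul_eq_mul, mul_pow] at h2
      have h3 : (t ^ 2) ≠ 0 := pow_ne_zero _ ht
      have h4 : ∑ i, τ (L l i) * ((t ^ 2)⁻¹ * u i) = (t ^ 2)⁻¹ * ∑ i, τ (L l i) * u i := by
        rw [Finset.mul_sum]
        exact Finset.sum_congr rfl fun i _ => by ring
      rw [h4, ← h2, ← mul_assoc, inv_mul_cancel₀ h3, one_mul]
    · rintro ⟨u, hu⟩
      refine ⟨fun i => t ^ 2 * u i, fun l => ?_⟩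
      rw [hrep, Pi.smul_apply, smul_eq_mul, mul_pow, hu l, Finset.mul_sum]
      exact Finset.sum_congr rfl fun i _ => by ring
  have hiff' : ∀ (K : Type) [Field K] (τ : k →+* K) (x : Fin (n + 1) → K), x ≠ 0 →
      ((∀ P ∈ S, P.eval₂ τ x = 0) ↔ ∀ c, ∑ l, τ (a c l) * (F l).eval₂ τ x ^ 2 = 0) := by
    intro K _ τ x hx
    rw [hiff K τ x hx, hmk K τ _ (ne_zero_of_span τ hF hx)]
  refine ⟨a, L, F, ⟨ha, smooth_of_maxMinors (by omega) ha⟩, ⟨hL, fun K _ τ => haL K τ⟩, hF, hiff',
    ?_, ?_, ?_⟩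
  · intro σ hσ
    constructor
    · intro hX
      have hXB := hX.brody
      have hZB : BrodyHyperbolic (points σ S) := by
        intro ψ hψ hψS
        obtain ⟨χ, hχ, hval, -⟩ := exists_division hψ
          (fun x (l : Fin (D + r + 1)) => (F l).eval₂ σ x)
          (fun x => analyticAt_pi_iff.2 fun l => analyticAt_eval₂ (F l) σ x) e
          (fun t x => by
            funext l
            exact eval₂_smul_homog (homog_of_span hF l) σ t x)
          (z₀ := 0) (ne_zero_of_span σ hF (ψ 0).rep_nonzero)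
        have hχm : ∀ z, χ z ∈ points σ (diagQuad a) := by
          intro z
          rw [hval z (ne_zero_of_span σ hF (ψ z).rep_nonzero), mem_points_mk (homog_diagQuad a)]
          rintro _ ⟨c, rfl⟩
          rw [hQ]
          exact (hiff' ℂ σ _ (ψ z).rep_nonzero).1 (hψS z) c
        intro z w
        have h1 := hXB χ hχ hχm z w
        rw [hval z (ne_zero_of_span σ hF (ψ z).rep_nonzero),
          hval w (ne_zero_of_span σ hF (ψ w).rep_nonzero), Projectivization.mk_eq_mk_iff'] at h1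
        obtain ⟨t, ht⟩ := h1
        obtain ⟨s, hs⟩ := inj_of_span σ he hF (ψ z).rep_nonzero ⟨t, ht.symm⟩
        rw [← (ψ z).mk_rep, ← (ψ w).mk_rep, Projectivization.mk_eq_mk_iff']
        exact ⟨s, hs.symm⟩
      exact hZB.kobayashi (pclosed_points hS σ)
    · intro hZ
      have h1 : BrodyHyperbolic (points σ (diagQuad a)) := by
        rw [haL]
        exact hhyp σ hσ hZ.brody
      exact h1.kobayashi (pclosed_points (homog_diagQuad a) σ)
  · -- the injection
    have hu : ∀ p : points (RingHom.id k) S, ∃ u : Fin (D + 1) → k,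
        ∀ l, (F l).eval₂ (RingHom.id k) p.1.rep ^ 2 = ∑ i, L l i * u i := by
      intro p
      obtain ⟨u, hu⟩ := (hiff k (RingHom.id k) p.1.rep p.1.rep_nonzero).1 p.2
      exact ⟨u, hu⟩
    choose u hu using hu
    have hu0 : ∀ p, u p ≠ 0 := by
      intro p h0
      apply ne_zero_of_span (RingHom.id k) hF p.1.rep_nonzero
      funext l
      have h1 := hu p l
      rw [h0] at h1
      simpa using h1
    have hmem : ∀ p, Projectivization.mk k (u p) (hu0 p) ∈ squarePoints L := by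
      intro p
      obtain ⟨t, ht, hrep⟩ := exists_rep_eq (p := Projectivization.mk k (u p) (hu0 p))
        (v := u p) (hv := hu0 p) rfl
      refine ⟨t⁻¹, inv_ne_zero ht, fun l => ⟨(F l).eval₂ (RingHom.id k) p.1.rep, ?_⟩⟩
      rw [hrep]
      have h1 : ∑ i, L l i * (t • u p) i = t * ∑ i, L l i * u p i := by
        rw [Finset.mul_sum]
        refine Finset.sum_congr rfl fun i _ => ?_
        rw [Pi.smul_apply, smul_eq_mul]
        ring
      rw [h1, ← mul_assoc, inv_mul_cancel₀ ht, one_mul, ← hu p l, pow_two]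
    refine ⟨fun p => ⟨_, hmem p⟩, fun p q hpq => ?_⟩
    have h1 := congrArg Subtype.val hpq
    dsimp only at h1
    rw [Projectivization.mk_eq_mk_iff'] at h1
    obtain ⟨t, ht⟩ := h1
    obtain ⟨s, hs⟩ := hinj p.1.rep q.1.rep t p.1.rep_nonzero (fun l => by
      rw [hu p l, hu q l, ← ht, Finset.mul_sum]
      refine Finset.sum_congr rfl fun i _ => ?_
      rw [Pi.smul_apply, smul_eq_mul]
      ring)
    apply Subtype.ext
    rw [← p.1.mk_rep, ← q.1.mk_rep, Projectivization.mk_eq_mk_iff']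
    exact ⟨s, hs.symm⟩
  · rw [piece_SQFIN k D (D + r + 1) L (hL.inj (by omega)), ← haL]

end Pool.Agent.Lib.MP_627a61_nt
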