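import Pool.Agent.Lib.MP_627a61_nt.Sq.All
import Pool.Agent.Lib.MP_627a61_nt.Sq.Box

/-!
# The final theorems with the box form
-/

open scoped LinearAlgebra.Projectivization Topology
open Filter MvPolynomial

namespace Pool.Agent.Lib.MP_627a61_nt

theorem squares_box : S_BOX :=
  piece_BOX squares_key (piece_VER piece_VERDEG piece_VER1) piece_INJ piece_SQFIN

theorem squares_rat2 : S_RAT2 := by
  intro B hB' r hr A hA
  have h02 := (squares_rat r hr A hA).out 0 2 rfl rfl
  have hS02 := (squares_same r hr ℚ {algebraMap ℚ ℂ} (Set.finite_singleton _) A hA).out 0 2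
    rfl rfl
  have hB := (squares_box B hB' ℚ {algebraMap ℚ ℂ}).out 0 2 rfl rfl
  tfae_have 1 ↔ 2 := h02
  tfae_have 1 → 3 := by
    intro h n Φ hΦ hσ
    refine hB.1 ?_ n Φ hΦ fun σ hσ' => ?_
    · intro n S hS hZ
      refine h ℚ n S hS fun σ => ?_
      rw [Subsingleton.elim σ (algebraMap ℚ ℂ)]
      exact hZ _ rfl
    · rw [Set.mem_singleton_iff] at hσ'
      rw [hσ']
      exact hσ
  tfae_have 3 → 2 := by
    intro h D hD L hL hσ
    refine hS02.1 (hB.2 fun n Φ hΦ hσ' => h n Φ hΦ (hσ' _ rfl)) D hD L hL fun σ hσ' => ?_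
    rw [Set.mem_singleton_iff] at hσ'
    rw [hσ']
    exact hσ
  tfae_finish

end Pool.Agent.Lib.MP_627a61_nt
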