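import Pool.Agent.Lib.MP_627a61_nt.Sq.BaseCh
import Pool.Agent.Lib.MP_627a61_nt.Sq.Stm

/-!
# The Veronese step, over all extension fields
(the auxiliary lemmas are those of `P_VER1`)
-/

open scoped LinearAlgebra.Projectivization Topology
open Filter MvPolynomial

namespace Pool.Agent.Lib.MP_627a61_nt

/-! ### Exponents -/

/-- the exponent of the monomial `∏ a, X (α a)` -/
private noncomputable def ver1_mon {n e : ℕ} (α : Fin e → Fin n) : Fin n →₀ ℕ :=
  ∑ a, Finsupp.single (α a) 1

/-- the value of a monomial -/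
private noncomputable def ver1_mv {K : Type} [Field K] {n : ℕ} (x : Fin n → K)
    (m : Fin n →₀ ℕ) : K := m.prod fun i j => x i ^ j

private lemma ver1_mv_add {K : Type} [Field K] {n : ℕ} (x : Fin n → K) (m m' : Fin n →₀ ℕ) :
    ver1_mv x (m + m') = ver1_mv x m * ver1_mv x m' := by
  unfold ver1_mv
  exact Finsupp.prod_add_index' (fun i => pow_zero _) (fun i a b => pow_add _ _ _)

private lemma ver1_mv_mon {K : Type} [Field K] {n e : ℕ} (x : Fin n → K) (α : Fin e → Fin n) :
    ver1_mv x (ver1_mon α) = ∏ a, x (α a) := by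
  unfold ver1_mon
  have h : ∀ s : Finset (Fin e), ver1_mv x (∑ a ∈ s, Finsupp.single (α a) 1) =
      ∏ a ∈ s, x (α a) := by
    intro s
    induction s using Finset.induction_on with
    | empty =>
      rw [Finset.sum_empty, Finset.prod_empty]
      unfold ver1_mv
      exact Finsupp.prod_zero_index
    | insert b s hb ih =>
      rw [Finset.sum_insert hb, Finset.prod_insert hb, ver1_mv_add, ih]
      congr 1
      unfold ver1_mv
      have h1 := Finsupp.prod_single_index (a := α b) (b := 1) (h := fun i j => x i ^ j)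
        (pow_zero _)
      rw [h1, pow_one]
  exact h Finset.univ

/-- every exponent of degree `d` comes from a tuple -/
private lemma ver1_exists_tuple {n : ℕ} : ∀ (d : ℕ) (m : Fin n →₀ ℕ), m.degree = d →
    ∃ γ : Fin d → Fin n, ver1_mon γ = m := by
  intro d
  induction d with
  | zero =>
    intro m hm
    refine ⟨Fin.elim0, ?_⟩
    rw [Finsupp.degree_eq_zero_iff] at hm
    rw [hm]
    unfold ver1_mon
    rw [Finset.univ_eq_empty, Finset.sum_empty]
  | succ d ih =>
    intro m hm
    have hm0 : m ≠ 0 := by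
      rintro rfl
      rw [map_zero] at hm
      omega
    obtain ⟨i, hi⟩ : ∃ i, m i ≠ 0 := by
      by_contra h
      push Not at h
      exact hm0 (Finsupp.ext h)
    have hle : Finsupp.single i 1 ≤ m := by
      rw [Finsupp.single_le_iff]
      omega
    have hsum : Finsupp.single i 1 + (m - Finsupp.single i 1) = m := add_tsub_cancel_of_le hle
    have hdeg : (m - Finsupp.single i 1).degree = d := by
      have h1 := congrArg Finsupp.degree hsum
      rw [map_add, Finsupp.degree_single, hm] at h1
      omega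
    obtain ⟨γ, hγ⟩ := ih _ hdeg
    refine ⟨Fin.cons i γ, ?_⟩
    unfold ver1_mon at hγ ⊢
    rw [Fin.sum_univ_succ, Fin.cons_zero]
    simp only [Fin.cons_succ]
    rw [hγ, hsum]

private lemma ver1_exists_pair {n e : ℕ} (m : Fin n →₀ ℕ) (hm : m.degree = 2 * e) :
    ∃ α β : Fin e → Fin n, ver1_mon α + ver1_mon β = m := by
  obtain ⟨γ, hγ⟩ := ver1_exists_tuple (e + e) m (by rw [hm]; ring)
  refine ⟨fun a => γ (Fin.castAdd e a), fun a => γ (Fin.natAdd e a), ?_⟩
  rw [← hγ]
  unfold ver1_mon
  rw [Fin.sum_univ_add]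

private lemma ver1_mon_update {n e : ℕ} (α : Fin e → Fin n) (b : Fin e) (j : Fin n) :
    ver1_mon (Function.update α b j) + Finsupp.single (α b) 1 =
      ver1_mon α + Finsupp.single j 1 := by
  unfold ver1_mon
  have h1 := Finset.add_sum_erase Finset.univ
    (fun a => (Finsupp.single (Function.update α b j a) 1 : Fin n →₀ ℕ)) (Finset.mem_univ b)
  have h2 := Finset.add_sum_erase Finset.univ
    (fun a => (Finsupp.single (α a) 1 : Fin n →₀ ℕ)) (Finset.mem_univ b)
  have h3 : ∑ a ∈ Finset.univ.erase b,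
      (Finsupp.single (Function.update α b j a) 1 : Fin n →₀ ℕ) =
      ∑ a ∈ Finset.univ.erase b, (Finsupp.single (α a) 1 : Fin n →₀ ℕ) := by
    refine Finset.sum_congr rfl fun a ha => ?_
    rw [Function.update_of_ne (Finset.ne_of_mem_erase ha)]
  rw [← h1, ← h2, h3]
  simp only [Function.update_self]
  abel

/-! ### The relations -/

section rel

variable {K : Type} [Field K] {n e : ℕ}

/-- the vector `y` satisfies the equations of the Veronese variety, for the values `l` -/
private def Ver1Rel (y : (Fin (e + 1) → Fin n) → K) (l : (Fin n →₀ ℕ) → K) : Prop :=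
  ∀ α β, y α * y β = l (ver1_mon α + ver1_mon β)

private lemma ver1_relA {y : (Fin (e + 1) → Fin n) → K} {l : (Fin n →₀ ℕ) → K}
    (hy : Ver1Rel y l) (i : Fin n) (α : Fin (e + 1) → Fin n) (b : Fin (e + 1)) :
    y α * y (fun _ => i) =
      y (Function.update α b i) * y (Function.update (fun _ => i) 0 (α b)) := by
  rw [hy, hy]
  congr 1
  have h1 := ver1_mon_update α b i
  have h2 := ver1_mon_update (fun _ : Fin (e + 1) => i) 0 (α b)
  have h3 : ver1_mon (Function.update α b i) +
      ver1_mon (Function.update (fun _ : Fin (e + 1) => i) 0 (α b)) +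
      (Finsupp.single (α b) 1 + Finsupp.single i 1) =
      ver1_mon α + ver1_mon (fun _ : Fin (e + 1) => i) +
      (Finsupp.single (α b) 1 + Finsupp.single i 1) := by
    calc _ = (ver1_mon (Function.update α b i) + Finsupp.single (α b) 1) +
        (ver1_mon (Function.update (fun _ : Fin (e + 1) => i) 0 (α b)) + Finsupp.single i 1) := by
          abel
      _ = (ver1_mon α + Finsupp.single i 1) +
        (ver1_mon (fun _ : Fin (e + 1) => i) + Finsupp.single (α b) 1) := by rw [h1, h2]
      _ = _ := by abel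
  exact (add_right_cancel h3).symm

private lemma ver1_relB {y : (Fin (e + 1) → Fin n) → K} {l : (Fin n →₀ ℕ) → K}
    (hy : Ver1Rel y l) (α : Fin (e + 1) → Fin n) (b : Fin (e + 1)) :
    y α * y α = y (Function.update α b (α 0)) * y (Function.update α 0 (α b)) := by
  rw [hy, hy]
  congr 1
  have h1 := ver1_mon_update α b (α 0)
  have h2 := ver1_mon_update α 0 (α b)
  have h3 : ver1_mon (Function.update α b (α 0)) + ver1_mon (Function.update α 0 (α b)) +
      (Finsupp.single (α b) 1 + Finsupp.single (α 0) 1) =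
      ver1_mon α + ver1_mon α + (Finsupp.single (α b) 1 + Finsupp.single (α 0) 1) := by
    calc _ = (ver1_mon (Function.update α b (α 0)) + Finsupp.single (α b) 1) +
        (ver1_mon (Function.update α 0 (α b)) + Finsupp.single (α 0) 1) := by
          abel
      _ = (ver1_mon α + Finsupp.single (α 0) 1) +
        (ver1_mon α + Finsupp.single (α b) 1) := by rw [h1, h2]
      _ = _ := by abel
  exact (add_right_cancel h3).symm

/-- one of the pure powers is not zero -/
private lemma ver1_exists_const {y : (Fin (e + 1) → Fin n) → K} {l : (Fin n →₀ ℕ) → K}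
    (hy : Ver1Rel y l) (h0 : y ≠ 0) : ∃ i, y (fun _ => i) ≠ 0 := by
  by_contra hc
  push Not at hc
  apply h0
  have key : ∀ (m : ℕ) (i : Fin n) (α : Fin (e + 1) → Fin n), α 0 = i →
      (Finset.univ.filter fun b => α b ≠ i).card = m → y α = 0 := by
    intro m
    induction m with
    | zero =>
      intro i α h1 h2
      rw [Finset.card_eq_zero, Finset.filter_eq_empty_iff] at h2
      have h3 : α = fun _ => i := by
        funext b
        exact not_not.mp (h2 (Finset.mem_univ b))
      rw [h3]
      exact hc i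
    | succ m ih =>
      intro i α h1 h2
      obtain ⟨b, hb⟩ : (Finset.univ.filter fun b => α b ≠ i).Nonempty := by
        rw [← Finset.card_pos]
        omega
      have hb' : α b ≠ i := (Finset.mem_filter.mp hb).2
      have hb0 : b ≠ 0 := by
        rintro rfl
        exact hb' h1
      have h3 : y (Function.update α b i) = 0 := by
        apply ih i
        · rw [Function.update_of_ne hb0.symm, h1]
        · have h4 : (Finset.univ.filter fun a => Function.update α b i a ≠ i) =
              (Finset.univ.filter fun a => α a ≠ i).erase b := by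
            ext a
            rw [Finset.mem_filter, Finset.mem_erase, Finset.mem_filter]
            by_cases hab : a = b
            · subst hab
              simp
            · rw [Function.update_of_ne hab]
              simp [hab]
          rw [h4, Finset.card_erase_of_mem hb, h2]
          rfl
      have h5 := ver1_relB hy α b
      rw [h1, h3, zero_mul] at h5
      exact mul_self_eq_zero.mp h5
  funext α
  exact key _ (α 0) α rfl rfl

/-- the point of projective space -/
private def ver1_x (i : Fin n) (y : (Fin (e + 1) → Fin n) → K) : Fin n → K :=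
  fun j => y (Function.update (fun _ => i) 0 j)

omit [Field K] in
private lemma ver1_x_self (i : Fin n) (y : (Fin (e + 1) → Fin n) → K) :
    ver1_x i y i = y (fun _ => i) := by
  unfold ver1_x
  congr 1
  exact Function.update_eq_self 0 (fun _ : Fin (e + 1) => i)

private lemma ver1_prod {y : (Fin (e + 1) → Fin n) → K} {l : (Fin n →₀ ℕ) → K}
    (hy : Ver1Rel y l) (i : Fin n) (hi : y (fun _ => i) ≠ 0) (α : Fin (e + 1) → Fin n) :
    ∏ a, ver1_x i y (α a) = y (fun _ => i) ^ e * y α := by
  have key : ∀ s : Finset (Fin (e + 1)), y (fun _ => i) ^ s.card * y α =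
      (∏ a ∈ s, ver1_x i y (α a)) * y (fun a => if a ∈ s then i else α a) := by
    intro s
    induction s using Finset.induction_on with
    | empty =>
      simp
    | insert b s hb ih =>
      rw [Finset.card_insert_of_notMem hb, Finset.prod_insert hb, pow_succ]
      have h1 := ver1_relA hy i (fun a => if a ∈ s then i else α a) b
      have h2 : Function.update (fun a => if a ∈ s then i else α a) b i =
          fun a => if a ∈ insert b s then i else α a := by
        funext a
        by_cases hab : a = b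
        · subst hab
          simp
        · rw [Function.update_of_ne hab]
          simp only [Finset.mem_insert, hab, false_or]
      rw [h2] at h1
      simp only [hb, if_false] at h1
      have h3 : y (Function.update (fun _ => i) 0 (α b)) = ver1_x i y (α b) := rfl
      rw [h3] at h1
      calc y (fun _ => i) ^ s.card * y (fun _ => i) * y α =
          (y (fun _ => i) ^ s.card * y α) * y (fun _ => i) := by ring
        _ = (∏ a ∈ s, ver1_x i y (α a)) *
            (y (fun a => if a ∈ s then i else α a) * y (fun _ => i)) := by rw [ih]; ring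
        _ = _ := by rw [h1]; ring
  have h := key Finset.univ
  simp only [Finset.mem_univ, if_true, Finset.card_univ, Fintype.card_fin] at h
  have h2 : y (fun _ => i) * (y (fun _ => i) ^ e * y α) =
      y (fun _ => i) * ∏ a, ver1_x i y (α a) := by
    rw [← mul_assoc, ← pow_succ', h]
    ring
  exact (mul_left_cancel₀ hi h2).symm

/-- the polynomials vanish at the point -/
private lemma ver1_eval {k : Type} [Field k] (σ : k →+* K) {y : (Fin (e + 1) → Fin n) → K}
    {l : (Fin n →₀ ℕ) → K} (hy : Ver1Rel y l) (i : Fin n) (hi : y (fun _ => i) ≠ 0)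
    (P : MvPolynomial (Fin n) k) (hP : P.IsHomogeneous (2 * (e + 1)))
    (hl : ∑ m ∈ P.support, σ (P.coeff m) * l m = 0) : P.eval₂ σ (ver1_x i y) = 0 := by
  rw [eval₂_eq]
  have h1 : ∀ m ∈ P.support, σ (P.coeff m) * ∏ j ∈ m.support, ver1_x i y j ^ m j =
      (y (fun _ => i) ^ e * y (fun _ => i) ^ e) * (σ (P.coeff m) * l m) := by
    intro m hm
    have hdeg : m.degree = 2 * (e + 1) := (hP.degree_eq_sum_deg_support hm).symm
    obtain ⟨α, β, hαβ⟩ := ver1_exists_pair m hdeg
    have h2 : ∏ j ∈ m.support, ver1_x i y j ^ m j = ver1_mv (ver1_x i y) m := rfl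
    rw [h2, ← hαβ, ver1_mv_add, ver1_mv_mon, ver1_mv_mon, ver1_prod hy i hi, ver1_prod hy i hi,
      ← hy]
    ring
  rw [Finset.sum_congr rfl h1, ← Finset.mul_sum, hl, mul_zero]

end rel

/-! ### The subspace -/

section sub

variable {k K : Type} [Field k] [Field K]

/-- the values of the monomials which satisfy the equations -/
private def ver1_Lam (σ : k →+* K) {n : ℕ} (S : Set (MvPolynomial (Fin n) k)) :
    Submodule K ((Fin n →₀ ℕ) → K) where
  carrier := {l | ∀ P ∈ S, ∑ m ∈ P.support, σ (P.coeff m) * l m = 0}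
  add_mem' := by
    intro l l' h h' P hP
    simp only [Pi.add_apply, mul_add, Finset.sum_add_distrib]
    rw [h P hP, h' P hP, add_zero]
  zero_mem' := by
    intro P _
    simp
  smul_mem' := by
    intro c l h P hP
    simp only [Pi.smul_apply, smul_eq_mul]
    rw [← mul_zero c, ← h P hP, Finset.mul_sum]
    refine Finset.sum_congr rfl fun m _ => ?_
    ring

/-- the matrix of the values -/
private noncomputable def ver1_lin (K : Type) [Field K] (n e : ℕ) :
    ((Fin n →₀ ℕ) → K) →ₗ[K] ((Fin e → Fin n) → (Fin e → Fin n) → K) where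
  toFun l := fun α β => l (ver1_mon α + ver1_mon β)
  map_add' _ _ := rfl
  map_smul' _ _ := rfl

/-- the subspace -/
private noncomputable def ver1_Phi (σ : k →+* K) {n : ℕ} (e : ℕ)
    (S : Set (MvPolynomial (Fin n) k)) :
    Submodule K ((Fin e → Fin n) → (Fin e → Fin n) → K) :=
  (ver1_Lam σ S).map (ver1_lin K n e)

private lemma ver1_ext (σ : k →+* K) {n : ℕ} (e : ℕ) (S : Set (MvPolynomial (Fin n) k)) :
    ext σ (ver1_Phi (RingHom.id k) e S) ≤ ver1_Phi σ e S := by
  unfold ext
  rw [Submodule.span_le]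
  rintro _ ⟨φ, hφ, rfl⟩
  obtain ⟨l, hl, rfl⟩ := hφ
  refine ⟨fun m => σ (l m), ?_, rfl⟩
  intro P hP
  have h1 := congrArg σ (hl P hP)
  rw [map_zero, map_sum] at h1
  rw [← h1]
  refine Finset.sum_congr rfl fun m _ => ?_
  rw [map_mul]
  rfl

private lemma ver1_sym (σ : k →+* K) {n : ℕ} (e : ℕ) (S : Set (MvPolynomial (Fin n) k)) :
    Symm (ver1_Phi σ e S) := by
  rintro _ ⟨l, _, rfl⟩ α β
  show l (ver1_mon α + ver1_mon β) = l (ver1_mon β + ver1_mon α)
  rw [add_comm]

private lemma ver1_rel_of_mem (σ : k →+* K) {n : ℕ} (e : ℕ) (S : Set (MvPolynomial (Fin n) k))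
    (y : (Fin (e + 1) → Fin n) → K) (hy : sq y ∈ ver1_Phi σ (e + 1) S) :
    ∃ l ∈ ver1_Lam σ S, Ver1Rel y l := by
  obtain ⟨l, hl, h⟩ := hy
  refine ⟨l, hl, fun α β => ?_⟩
  have h1 : sq y α β = ver1_lin K n (e + 1) l α β := by rw [h]
  exact h1

end sub

/-- the Veronese map -/
def verc {k : Type} [Field k] {n : ℕ} (e : ℕ) (x : Fin n → k) :
    (Fin e → Fin n) → k := fun α => ∏ a, x (α a)

private lemma ver1_ext' {k K : Type} [Field k] [Field K] (τ : k →+* K) {n : ℕ} (e : ℕ)
    (S : Set (MvPolynomial (Fin n) k)) :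
    ver1_Phi τ e S ≤ ext τ (ver1_Phi (RingHom.id k) e S) := by
  rintro _ ⟨l, hl, rfl⟩
  refine mem_ext_of_fnl τ _ _ fun f hf => ?_
  refine ⟨fun m => f (l m), fun P hP => ?_, rfl⟩
  have h0 : f 0 = 0 := by
    have h1 := hf.2 0 0
    rwa [map_zero, zero_mul, zero_mul] at h1
  have h1 := congrArg f (hl P hP)
  rw [h0, hf.map_sum] at h1
  rw [← h1]
  refine Finset.sum_congr rfl fun m _ => ?_
  rw [hf.2]
  rfl

private lemma ver1_mem_iff {k K : Type} [Field k] [Field K] (τ : k →+* K) {n : ℕ} (e : ℕ)
    (S : Set (MvPolynomial (Fin n) k)) (hS : ∀ P ∈ S, P.IsHomogeneous (2 * e))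
    (x : Fin n → K) : sq (verc e x) ∈ ver1_Phi τ e S ↔ ∀ P ∈ S, P.eval₂ τ x = 0 := by
  constructor
  · rintro ⟨l, hl, h⟩ P hP
    rw [eval₂_eq, ← hl P hP]
    refine Finset.sum_congr rfl fun m hm => ?_
    have hdeg : m.degree = 2 * e := ((hS P hP).degree_eq_sum_deg_support hm).symm
    obtain ⟨α, β, hαβ⟩ := ver1_exists_pair m hdeg
    have h1 : l m = (∏ a, x (α a)) * ∏ a, x (β a) := by
      have h2 := congrFun (congrFun h α) β
      rw [← hαβ]
      exact h2
    have h3 : ∏ i ∈ m.support, x i ^ m i = ver1_mv x m := rfl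
    rw [h3, h1, ← hαβ, ver1_mv_add, ver1_mv_mon, ver1_mv_mon]
  · intro h
    refine ⟨ver1_mv x, ?_, ?_⟩
    · intro P hP
      have h1 := h P hP
      rw [eval₂_eq] at h1
      exact h1
    · funext α β
      show ver1_mv x (ver1_mon α + ver1_mon β) = (∏ a, x (α a)) * ∏ a, x (β a)
      rw [ver1_mv_add, ver1_mv_mon, ver1_mv_mon]

/-- every exponent of degree `e` comes from a tuple -/
lemma exists_tuple_monomial {k : Type} [Field k] {n e : ℕ} (m : Fin n →₀ ℕ)
    (hm : m.degree = e) :
    ∃ γ : Fin e → Fin n, (∏ a, X (γ a) : MvPolynomial (Fin n) k) = monomial m 1 := by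
  obtain ⟨γ, hγ⟩ := ver1_exists_tuple e m hm
  refine ⟨γ, ?_⟩
  rw [← hγ]
  unfold ver1_mon
  rw [monomial_sum_one]
  rfl

/-- the linear map which gives the point, with its analyticity -/
private noncomputable def ver1_G {n : ℕ} (e : ℕ) (i : Fin n) :
    ((Fin (e + 1) → Fin n) → ℂ) →L[ℂ] (Fin n → ℂ) :=
  ContinuousLinearMap.pi fun j => ContinuousLinearMap.proj (R := ℂ)
    (φ := fun _ : Fin (e + 1) → Fin n => ℂ) (Function.update (fun _ => i) 0 j)

private lemma ver1_G_apply {n : ℕ} (e : ℕ) (i : Fin n) (y : (Fin (e + 1) → Fin n) → ℂ) :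
    ver1_G e i y = ver1_x i y := rfl

/-- VER2 -/
theorem ver2 (k : Type) [Field k] (n e : ℕ) (S : Set (MvPolynomial (Fin (n + 1)) k))
    (hS : ∀ P ∈ S, P.IsHomogeneous (2 * (e + 1))) :
    ∃ Φ : Submodule k ((Fin (e + 1) → Fin (n + 1)) → (Fin (e + 1) → Fin (n + 1)) → k), Symm Φ ∧
      (∀ (K : Type) [Field K] (τ : k →+* K) (x : Fin (n + 1) → K),
        sq (verc (e + 1) x) ∈ ext τ Φ ↔ ∀ P ∈ S, P.eval₂ τ x = 0) ∧
      ∀ σ : k →+* ℂ, BrodyHyperbolic (points σ S) → BrodyHyperbolic (sqSet (ext σ Φ)) := by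
  have hhom : Homog S := fun P hP => ⟨_, hS P hP⟩
  refine ⟨ver1_Phi (RingHom.id k) (e + 1) S, ver1_sym _ _ _, ?_, ?_⟩
  · intro K _ τ x
    rw [← ver1_mem_iff τ (e + 1) S hS x]
    exact ⟨fun h => ver1_ext τ (e + 1) S h, fun h => ver1_ext' τ (e + 1) S h⟩
  · intro σ hB ψ hψ hψS
    have hmem : ∀ z, ∃ l ∈ ver1_Lam σ S, Ver1Rel (ψ z).rep l := by
      intro z
      exact ver1_rel_of_mem σ e S _ (ver1_ext σ (e + 1) S (hψS z))
    obtain ⟨l₀, hl₀, hy₀⟩ := hmem 0
    obtain ⟨i, hi⟩ := ver1_exists_const hy₀ (ψ 0).rep_nonzero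
    -- the coordinate `const i` is not zero near every point
    have hne : ∀ z, ∀ᶠ w in 𝓝[≠] z, (ψ w).rep (fun _ => i) ≠ 0 := by
      have h0 : (fun (y : (Fin (e + 1) → Fin (n + 1)) → ℂ) (_ : Fin 1) => y (fun _ => i))
          (ψ 0).rep ≠ 0 := fun h => hi (congrFun h 0)
      obtain ⟨_, _, _, h3⟩ := exists_division hψ
        (fun (y : (Fin (e + 1) → Fin (n + 1)) → ℂ) (_ : Fin 1) => y (fun _ => i))
        (fun x => (ContinuousLinearMap.pi (fun _ : Fin 1 => ContinuousLinearMap.proj (R := ℂ)
          (φ := fun _ : Fin (e + 1) → Fin (n + 1) => ℂ) (fun _ => i))).analyticAt x) 1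
        (fun t x => by
          funext j
          simp) h0
      intro z
      filter_upwards [h3 z] with w hw h
      exact hw (funext fun _ => h)
    have hG0 : ver1_G e i (ψ 0).rep ≠ 0 := by
      intro h
      apply hi
      rw [← ver1_x_self i (ψ 0).rep, ← ver1_G_apply, h]
      rfl
    obtain ⟨χ, hχ, hχ1, hχ2⟩ := exists_division hψ (fun y => ver1_G e i y)
      (fun x => (ver1_G e i).analyticAt x) 1 (fun t x => by rw [map_smul, pow_one]) hG0
    have hχS : ∀ z, χ z ∈ points σ S := by
      intro z P hP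
      refine (hχ z).zero_of_punctured (fun v => P.eval₂ σ v) (continuous_eval₂ P σ)
        (fun t x ht => ?_) ?_
      · show P.eval₂ σ (t • x) = 0 ↔ P.eval₂ σ x = 0
        rw [eval₂_smul_homog (hS P hP)]
        constructor
        · intro h
          exact (mul_eq_zero.1 h).resolve_left (pow_ne_zero _ ht)
        · intro h
          rw [h, mul_zero]
      · filter_upwards [hχ2 z, hne z] with w hw1 hw2
        obtain ⟨t, ht, hrep⟩ := exists_rep_eq (hχ1 w hw1)
        obtain ⟨l, hl, hy⟩ := hmem w
        rw [hrep, eval₂_smul_homog (hS P hP)]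
        have h1 : P.eval₂ σ (ver1_G e i (ψ w).rep) = 0 :=
          ver1_eval σ hy i hw2 P (hS P hP) (hl P hP)
        rw [h1, mul_zero]
    have hχc := hB χ hχ hχS
    have hev : ∀ᶠ w in 𝓝[≠] (0 : ℂ), ψ w = ψ 0 := by
      filter_upwards [hχ2 0, hne 0] with w hw1 hw2
      have h1 := hχ1 w hw1
      have h2 := hχ1 0 hG0
      rw [hχc w 0, h2, Projectivization.mk_eq_mk_iff'] at h1
      obtain ⟨c, hc⟩ := h1
      obtain ⟨l, hl, hy⟩ := hmem w
      -- `c • x_w = x_0`
      have hc' : ∀ j, c * ver1_x i (ψ w).rep j = ver1_x i (ψ 0).rep j := fun j => congrFun hc j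
      have hcc : c ≠ 0 := by
        rintro rfl
        apply hi
        rw [← ver1_x_self i (ψ 0).rep, ← hc' i, zero_mul]
      have hp : ∀ α, (ψ 0).rep (fun _ => i) ^ e * (ψ 0).rep α =
          c ^ (e + 1) * ((ψ w).rep (fun _ => i) ^ e * (ψ w).rep α) := by
        intro α
        rw [← ver1_prod hy₀ i hi, ← ver1_prod hy i hw2]
        have h3 : ∀ a, ver1_x i (ψ 0).rep (α a) = c * ver1_x i (ψ w).rep (α a) :=
          fun a => (hc' _).symm
        rw [Finset.prod_congr rfl (fun a _ => h3 a), Finset.prod_mul_distrib, Finset.prod_const,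
          Finset.card_univ, Fintype.card_fin]
      rw [← (ψ w).mk_rep, ← (ψ 0).mk_rep, Projectivization.mk_eq_mk_iff']
      have hw3 : (ψ w).rep (fun _ => i) ^ e ≠ 0 := pow_ne_zero _ hw2
      have hc3 : c ^ (e + 1) ≠ 0 := pow_ne_zero _ hcc
      refine ⟨(ψ 0).rep (fun _ => i) ^ e / (c ^ (e + 1) * (ψ w).rep (fun _ => i) ^ e), ?_⟩
      funext α
      rw [Pi.smul_apply, smul_eq_mul]
      rw [div_mul_eq_mul_div, div_eq_iff (mul_ne_zero hc3 hw3), hp α]
      ring
    have hc := eq_of_eventually_const hψ hev.frequently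
    intro z w
    rw [hc z, hc w]

end Pool.Agent.Lib.MP_627a61_nt
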